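import Pool.Agent.Lib.MP_6adaea_nt.S.Defs

/-!
The completion of a polynomial ring at finitely many primes.
-/

set_option linter.unusedSectionVars false

namespace Pool.Agent.Lib.MP_6adaea_nt.S
open Polynomial

variable {k ι : Type} [Field k] [Fintype ι] (P : ι → k[X]) [∀ i, Fact (Irreducible (P i))]

/-- the residue fields -/
abbrev kap (P : ι → k[X]) : ι → Type := fun i => AdjoinRoot (P i)

/-- expansion at the roots -/
noncomputable def emb : k[X] →+* RR (kap P) :=
  RingHom.pi fun i => eval₂RingHom (PowerSeries.C.comp (AdjoinRoot.of (P i)))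
    (PowerSeries.C (AdjoinRoot.root (P i)) + PowerSeries.X)

lemma emb_C (c : k) (i : ι) : emb P (C c) i = PowerSeries.C (AdjoinRoot.of (P i) c) := by
  simp [emb, RingHom.pi_apply]

lemma emb_X (i : ι) : emb P X i = PowerSeries.C (AdjoinRoot.root (P i)) + PowerSeries.X := by
  simp [emb, RingHom.pi_apply]

/-- induction on `a` -/
theorem emb_const (a : k[X]) (i : ι) :
    PowerSeries.constantCoeff (emb P a i) = AdjoinRoot.mk (P i) a := by
  induction a using Polynomial.induction_on with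
  | C c => simp [emb_C]
  | add a b ha hb => rw [map_add, Pi.add_apply, map_add, ha, hb, map_add]
  | monomial n c h =>
    rw [pow_succ, ← mul_assoc, map_mul, Pi.mul_apply, map_mul, h, emb_X, map_mul (AdjoinRoot.mk (P i)) _ X]
    simp

/-- induction on `a` -/
theorem emb_deriv (a : k[X]) (i : ι) :
    PowerSeries.derivative _ (emb P a i) = emb P (derivative a) i := by
  induction a using Polynomial.induction_on with
  | C c => simp [emb_C]
  | add a b ha hb => rw [map_add, Pi.add_apply, map_add, ha, hb, map_add, map_add, Pi.add_apply]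
  | monomial n c h =>
    rw [pow_succ, ← mul_assoc, map_mul, Pi.mul_apply, Derivation.leibniz, h, derivative_mul (g := X),
      derivative_X, mul_one, map_add, map_mul (emb P) _ X, Pi.add_apply, Pi.mul_apply, emb_X]
    simp only [map_add, PowerSeries.derivative_C, PowerSeries.derivative_X, zero_add, smul_eq_mul]
    ring

theorem Brg_dvd {κ : ι → Type} [∀ i, Field (κ i)] {x : RR κ} :
    pi0 κ ∣ x ↔ ∀ i, PowerSeries.constantCoeff (x i) = 0 := by
  constructor
  · rintro ⟨y, rfl⟩ i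
    simp
  · intro h
    choose y hy using fun i => PowerSeries.X_dvd_iff.2 (h i)
    exact ⟨y, funext hy⟩

theorem Brg_cancel {κ : ι → Type} [∀ i, Field (κ i)] (N : ℕ) {x y : RR κ}
    (h : pi0 κ ^ N * x = pi0 κ ^ N * y) : x = y :=
  funext fun i => mul_left_cancel₀ (pow_ne_zero N PowerSeries.X_ne_zero) (congrFun h i)

theorem Brg_crt (hP : Pairwise fun i j => IsCoprime (P i) (P j)) (x : RR (kap P)) :
    ∃ a, pi0 (kap P) ∣ x - emb P a := by
  choose r hr using fun i => AdjoinRoot.mk_surjective (g := P i) (PowerSeries.constantCoeff (x i))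
  obtain ⟨a, ha⟩ := Ideal.exists_forall_sub_mem_ideal (I := fun i => Ideal.span {P i})
    (fun i j hij => (Ideal.isCoprime_span_singleton_iff _ _).2 (hP hij)) r
  refine ⟨a, Brg_dvd.2 fun i => ?_⟩
  rw [Pi.sub_apply, map_sub, emb_const, ← hr, sub_eq_zero, eq_comm, AdjoinRoot.mk_eq_mk]
  exact Ideal.mem_span_singleton.1 (ha i)

/-- `w = ∏ P i` is separable (`Polynomial.separable_prod`, `PerfectField.separable_of_irreducible`),
so `P i` does not divide `w'`. `emb w i = X * y` (`emb_const`), and differentiating gives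
`constantCoeff y = mk (P i) w' ≠ 0`. -/
theorem emb_pi [Finite k] (hP : Pairwise fun i j => IsCoprime (P i) (P j)) :
    ∃ u : (RR (kap P))ˣ, emb P (∏ i, P i) = u * pi0 (kap P) := by
  have hs : (∏ i, P i).Separable := Polynomial.separable_prod hP fun i =>
    PerfectField.separable_of_irreducible (Fact.out : Irreducible (P i))
  have hd : ∀ i, P i ∣ ∏ i, P i := fun i => Finset.dvd_prod_of_mem _ (Finset.mem_univ i)
  obtain ⟨y, hy⟩ : pi0 (kap P) ∣ emb P (∏ i, P i) :=
    Brg_dvd.2 fun i => by rw [emb_const, AdjoinRoot.mk_eq_zero]; exact hd i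
  have hu : IsUnit y := Pi.isUnit_iff.2 fun i => PowerSeries.isUnit_iff_constantCoeff.2 <| by
    have h1 := emb_const P (derivative (∏ i, P i)) i
    rw [← emb_deriv, hy, Pi.mul_apply, Derivation.leibniz, pi0_apply, PowerSeries.derivative_X] at h1
    simp only [smul_eq_mul, map_add, map_mul, PowerSeries.constantCoeff_X, zero_mul, mul_one,
      zero_add] at h1
    rw [h1, isUnit_iff_ne_zero, Ne, AdjoinRoot.mk_eq_zero]
    exact fun h => (Fact.out : Irreducible (P i)).not_isUnit (hs.isUnit_of_dvd' (hd i) h)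
  obtain ⟨u, rfl⟩ := hu
  exact ⟨u, by rw [hy, mul_comm]⟩

/-- induction on `N`: `ϖ ∣ emb a` gives `P i ∣ a` for all `i` (`emb_const`), so `w ∣ a`
(`Finset.prod_dvd_of_coprime`); cancel `ϖ` using `emb_pi` -/
theorem emb_dvd [Finite k] (hP : Pairwise fun i j => IsCoprime (P i) (P j)) (N : ℕ) (a : k[X])
    (h : pi0 (kap P) ^ N ∣ emb P a) : (∏ i, P i) ^ N ∣ a := by
  obtain ⟨u, hu⟩ := emb_pi P hP
  induction N with
  | zero => simp
  | succ N ih =>
    obtain ⟨b, rfl⟩ := ih ((pow_dvd_pow _ (Nat.le_succ N)).trans h)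
    obtain ⟨y, hy⟩ := h
    rw [map_mul, map_pow, hu, mul_pow, mul_comm (_ ^ N) (_ ^ N), mul_assoc, pow_succ, mul_assoc] at hy
    have h1 : pi0 (kap P) ∣ emb P b :=
      (Units.dvd_mul_left (u := u ^ N)).1 ⟨y, by rw [Units.val_pow_eq_pow_val]; exact Brg_cancel N hy⟩
    rw [pow_succ]
    refine mul_dvd_mul_left _ (Finset.prod_dvd_of_coprime (fun i _ j _ hij => hP hij) fun i _ => ?_)
    rw [← AdjoinRoot.mk_eq_zero, ← emb_const]
    exact Brg_dvd.1 h1 i

/-- `N = 1` is the Chinese remainder theorem; if `x - emb a = ϖ ^ N * y` take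
`a + w ^ N * b` with `emb b ≡ u⁻¹ ^ N * y` modulo `ϖ` -/
theorem emb_dense [Finite k] (hP : Pairwise fun i j => IsCoprime (P i) (P j)) (N : ℕ)
    (x : RR (kap P)) : ∃ a, pi0 (kap P) ^ N ∣ x - emb P a := by
  obtain ⟨u, hu⟩ := emb_pi P hP
  induction N with
  | zero => exact ⟨0, by simp⟩
  | succ N ih =>
    obtain ⟨a, y, hy⟩ := ih
    obtain ⟨b, z, hz⟩ := Brg_crt P hP (((u⁻¹ : (RR (kap P))ˣ) : RR (kap P)) ^ N * y)
    refine ⟨a + (∏ i, P i) ^ N * b, (u : RR (kap P)) ^ N * z, ?_⟩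
    have h1 : (u : RR (kap P)) ^ N * ((u⁻¹ : (RR (kap P))ˣ) : RR (kap P)) ^ N = 1 := by
      rw [← mul_pow, Units.mul_inv, one_pow]
    rw [map_add, map_mul, map_pow, hu, mul_pow, pow_succ]
    linear_combination hy + pi0 (kap P) ^ N * (u : RR (kap P)) ^ N * hz - pi0 (kap P) ^ N * y * h1

/-- `k[X] → R ⧸ (ϖ ^ N)` is onto with kernel `(w ^ N)`; compose the quotient map with the inverse of
the induced isomorphism -/
theorem exists_proj [Finite k] (hP : Pairwise fun i j => IsCoprime (P i) (P j)) (N : ℕ) :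
    ∃ π : RR (kap P) →+* AdjoinRoot ((∏ i, P i) ^ N),
      (∀ a, π (emb P a) = AdjoinRoot.mk _ a) ∧ ∀ x, π x = 0 ↔ pi0 (kap P) ^ N ∣ x := by
  obtain ⟨u, hu⟩ := emb_pi P hP
  let f := (Ideal.Quotient.mk (Ideal.span {pi0 (kap P) ^ N})).comp (emb P)
  have hf : Function.Surjective f := fun q => by
    obtain ⟨x, rfl⟩ := Ideal.Quotient.mk_surjective q
    obtain ⟨a, ha⟩ := emb_dense P hP N x
    exact ⟨a, (Ideal.Quotient.eq.2 (Ideal.mem_span_singleton.2 ha)).symm⟩
  let g := f.liftOfSurjective hf ⟨AdjoinRoot.mk ((∏ i, P i) ^ N), fun a ha => by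
    rw [RingHom.mem_ker, AdjoinRoot.mk_eq_zero]
    exact emb_dvd P hP N a (Ideal.mem_span_singleton.1 (Ideal.Quotient.eq_zero_iff_mem.1 ha))⟩
  have hg : ∀ a, g (f a) = AdjoinRoot.mk _ a := fun a =>
    RingHom.liftOfSurjective_comp_apply f hf _ a
  refine ⟨g.comp (Ideal.Quotient.mk _), hg, fun x => ⟨fun h => ?_, fun h => ?_⟩⟩
  · obtain ⟨a, ha⟩ := emb_dense P hP N x
    have h1 : Ideal.Quotient.mk (Ideal.span {pi0 (kap P) ^ N}) x = f a :=
      Ideal.Quotient.eq.2 (Ideal.mem_span_singleton.2 ha)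
    rw [RingHom.comp_apply, h1, hg, AdjoinRoot.mk_eq_zero] at h
    have h2 := map_dvd (emb P) h
    rw [map_pow, hu, mul_pow] at h2
    simpa using ha.add ((dvd_mul_left _ _).trans h2)
  · rw [RingHom.comp_apply, Ideal.Quotient.eq_zero_iff_mem.2 (Ideal.mem_span_singleton.2 h), map_zero]

end Pool.Agent.Lib.MP_6adaea_nt.S
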