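import Pool.Agent.Lib.MP_6adaea_nt.S.Defs

/-!
Explicit Burnside theorem for the adjoint representation.
-/

set_option linter.unusedSectionVars false

namespace Pool.Agent.Lib.MP_6adaea_nt.S
open Matrix G

variable {n : Type} [Fintype n] [DecidableEq n] {R : Type} [CommRing R]

/-- `(adL g - 1) (adL h - 1) = (adL (g h) - 1) - (adL g - 1) - (adL h - 1)`. -/
theorem DM_mul {H : Subgroup (GL n R)} {T T' : Module.End R (Matrix n n R)} (hT : T ∈ DM H)
    (hT' : T' ∈ DM H) : T * T' ∈ DM H := by
  have h : DM H * DM H ≤ DM H := by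
    rw [DM, Submodule.span_mul_span, Submodule.span_le]
    rintro _ ⟨_, ⟨g, hg, rfl⟩, _, ⟨h, hh, rfl⟩, rfl⟩
    have m : ∀ g ∈ H, adL g - 1 ∈ Submodule.span R {T | ∃ g ∈ H, T = adL g - 1} :=
      fun g hg => Submodule.subset_span ⟨g, hg, rfl⟩
    have e : (adL g - 1) * (adL h - 1) = adL (g * h) - 1 - (adL g - 1) - (adL h - 1) := by
      rw [adL_mul, sub_mul, mul_sub, mul_one, one_mul]
      abel
    change (adL g - 1) * (adL h - 1) ∈ _
    rw [e]
    exact Submodule.sub_mem _ (Submodule.sub_mem _ (m _ (H.mul_mem hg hh)) (m _ hg)) (m _ hh)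
  exact h (Submodule.mul_mem_mul hT hT')

theorem Burn_from {H : Subgroup (GL n R)} {w c : R} (hB : Bp H w) (η : Matrix n n R →ₗ[R] R)
    {i j : n} (hij : i ≠ j) (h : c • η.smulRight (single i j (1 : R)) ∈ DM H) {Y : Matrix n n R}
    (hY : Y.trace = 0) : (w ^ 3 * c) • η.smulRight Y ∈ DM H := by
  have e : ∀ (a : R) (X : Matrix n n R), a • η.smulRight X = LinearMap.smulRightₗ η (a • X) :=
    fun a X => by rw [map_smul]; rfl
  rw [e] at h ⊢
  refine inv_from (U := (DM H).comap (LinearMap.smulRightₗ η)) (fun u v huv X hX => ⟨?_, ?_⟩)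
    hij h hY
  · rw [Submodule.mem_comap]
    convert DM_mul (hB u v huv).1 hX using 1
    refine LinearMap.ext fun Z => ?_
    simp only [LinearMap.smulRightₗ_apply, Module.End.mul_apply, LinearMap.smul_apply, map_smul,
      LinearMap.smulRight_apply, brE_apply]
    rw [smul_comm]
  · rw [Submodule.mem_comap]
    convert DM_mul (hB u v huv).2 hX using 1
    refine LinearMap.ext fun Z => ?_
    simp only [LinearMap.smulRightₗ_apply, Module.End.mul_apply, LinearMap.smul_apply, map_smul,
      LinearMap.smulRight_apply, qE_apply, smul_smul]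
    congr 1
    ring

/-- For a functional `η` the set `U` of `Y` with `η.smulRight Y ∈ DM H` is a submodule with
`InvCl U w` (compose on the left with `w • brE i j`, `w • qE i j`). For `η X = X j i` it contains
`w • single i j 1` (`qE`), for `η X = X j j - X i i` it contains `w ^ 2 • single j i 1`
(`qE j i * brE i j`, `inv_br_apply`); use `inv_from`. A functional with `ξ 1 = 0` is
`∑_{a ≠ b} ξ (E_ab) X_ab + ∑_a ξ (E_aa) (X_aa - X_00)`. -/
theorem burn {H : Subgroup (GL n R)} {w : R} (hB : Bp H w) (ξ : Matrix n n R →ₗ[R] R)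
    (hξ : ξ 1 = 0) {Y : Matrix n n R} (hY : Y.trace = 0) : w ^ 5 • ξ.smulRight Y ∈ DM H := by
  rcases isEmpty_or_nonempty n with h | ⟨⟨i0⟩⟩
  · rw [Subsingleton.elim (w ^ 5 • ξ.smulRight Y) 0]
    exact Submodule.zero_mem _
  have h1 : ∀ a b : n, w ^ 5 • (entryLinearMap R R a b -
      if a = b then entryLinearMap R R i0 i0 else 0).smulRight Y ∈ DM H := by
    intro a b
    split_ifs with hab
    · subst hab
      by_cases ha : i0 = a
      · subst ha
        rw [sub_self, LinearMap.zero_smulRight, smul_zero]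
        exact Submodule.zero_mem _
      · have e : w ^ 5 = w ^ 3 * (w * w) := by ring
        rw [e]
        refine Burn_from hB _ (Ne.symm ha) ?_ hY
        convert DM_mul (hB a i0 (Ne.symm ha)).2 (hB i0 a ha).1 using 1
        refine LinearMap.ext fun Z => ?_
        simp only [Module.End.mul_apply, LinearMap.smul_apply, map_smul, qE_apply, brE_apply,
          inv_br_apply, LinearMap.smulRight_apply, LinearMap.sub_apply, entryLinearMap_apply,
          smul_smul, if_true, mul_assoc]
    · have e : w ^ 5 = w * (w ^ 3 * w) := by ring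
      rw [e, mul_smul, sub_zero]
      refine Submodule.smul_mem _ _ (Burn_from hB _ (Ne.symm hab) ?_ hY)
      exact (hB b a (Ne.symm hab)).2
  have e : ξ = ∑ a, ∑ b, ξ (single a b 1) • (entryLinearMap R R a b -
      if a = b then entryLinearMap R R i0 i0 else 0) := by
    refine LinearMap.ext fun X => ?_
    have e1 : ξ X = ∑ a, ∑ b, ξ (single a b 1) * X a b := by
      conv_lhs => rw [matrix_eq_sum_single X]
      simp only [map_sum]
      refine Finset.sum_congr rfl fun a _ => Finset.sum_congr rfl fun b _ => ?_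
      rw [mul_comm, ← smul_eq_mul, ← map_smul, smul_single, smul_eq_mul, mul_one]
    have e2 : ∑ a, ξ (single a a 1) = 0 := by
      rw [← map_sum, ← hξ]
      congr 1
      ext a b
      simp [Matrix.sum_apply, single_apply, one_apply, ite_and, eq_comm]
    simp only [LinearMap.sum_apply, LinearMap.smul_apply, LinearMap.sub_apply,
      entryLinearMap_apply, smul_eq_mul, mul_sub, Finset.sum_sub_distrib,
      apply_ite (fun f : Matrix n n R →ₗ[R] R => f X), LinearMap.zero_apply, mul_ite, mul_zero,
      Finset.sum_ite_eq, Finset.mem_univ, if_true]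
    rw [← Finset.sum_mul, e2, zero_mul, sub_zero, e1]
  have e3 : w ^ 5 • ξ.smulRight Y = ∑ a, ∑ b, ξ (single a b 1) • w ^ 5 • (entryLinearMap R R a b -
      if a = b then entryLinearMap R R i0 i0 else 0).smulRight Y := by
    refine LinearMap.ext fun X => ?_
    have e4 := LinearMap.congr_fun e X
    simp only [LinearMap.sum_apply, LinearMap.smul_apply, LinearMap.smulRight_apply] at e4 ⊢
    rw [e4]
    simp only [Finset.sum_smul, Finset.smul_sum, smul_smul, smul_eq_mul]
    refine Finset.sum_congr rfl fun a _ => Finset.sum_congr rfl fun b _ => ?_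
    congr 1
    ring
  rw [e3]
  exact Submodule.sum_mem _ fun a _ => Submodule.sum_mem _ fun b _ =>
    Submodule.smul_mem _ _ (h1 a b)

end Pool.Agent.Lib.MP_6adaea_nt.S
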