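import Pool.Agent.Lib.MP_6adaea_nt.S.Defs

/-!
The Capelli ideal.
-/

set_option linter.unusedSectionVars false

namespace Pool.Agent.Lib.MP_6adaea_nt.S
open Matrix G

variable {R : Type} [CommRing R]

/-- the trace identity for the determinant in a basis -/
lemma Cap_det {κ M : Type} [Fintype κ] [DecidableEq κ] [AddCommGroup M] [Module R M]
    (e : Module.Basis κ R M) (T : M →ₗ[R] M) (x : κ → M) :
    ∑ l, e.det (Function.update x l (T (x l))) = (∑ l, e.repr (T (e l)) l) * e.det x := by
  have h1 : ∀ l, e.det (Function.update x l (T (x l))) =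
      ((e.toMatrix x).adjugate * (LinearMap.toMatrix e e T * e.toMatrix x)) l l := by
    intro l
    rw [e.det_apply, e.toMatrix_update, ← cramer_apply, cramer_eq_adjugate_mulVec,
      ← LinearMap.toMatrix_mulVec_repr e e T]
    simp only [Matrix.mul_apply, Matrix.mulVec, dotProduct, Module.Basis.toMatrix_apply]
  have h2 : ∑ l, e.repr (T (e l)) l = (LinearMap.toMatrix e e T).trace := by
    simp only [Matrix.trace, Matrix.diag, LinearMap.toMatrix_apply]
  rw [Finset.sum_congr rfl fun l _ => h1 l, h2]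
  change ((e.toMatrix x).adjugate * (LinearMap.toMatrix e e T * e.toMatrix x)).trace = _
  rw [Matrix.trace_mul_comm, Matrix.mul_assoc, mul_adjugate, Matrix.mul_smul, Matrix.mul_one,
    Matrix.trace_smul, e.det_apply, smul_eq_mul, mul_comm]

/-- the trace identity for a matrix valued alternating map -/
lemma Cap_alt {κ M ι : Type} [Fintype κ] [DecidableEq κ] [AddCommGroup M] [Module R M]
    (e : Module.Basis κ R M) (C : M [⋀^κ]→ₗ[R] Matrix ι ι R) (T : M →ₗ[R] M) (x : κ → M) :
    ∑ l, C (Function.update x l (T (x l))) = (∑ l, e.repr (T (e l)) l) • C x := by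
  ext s t
  have h : ∀ y, C y s t = C e s t * e.det y := by
    intro y
    have := ((Matrix.entryLinearMap R R s t).compAlternatingMap C).eq_smul_basis_det e
    have h2 := congrArg (fun f : M [⋀^κ]→ₗ[R] R => f y) this
    simpa using h2
  rw [Matrix.sum_apply, Matrix.smul_apply, Finset.sum_congr rfl fun l _ => h _, h x,
    ← Finset.mul_sum, Cap_det, smul_eq_mul]
  ring

/-- a multilinear map on spans -/
lemma Cap_span {κ M N : Type} [Fintype κ] [DecidableEq κ] [AddCommGroup M] [Module R M]
    [AddCommGroup N] [Module R N] (f : MultilinearMap R (fun _ : κ => M) N) (A : Set M)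
    (S : Submodule R N) (h : ∀ x, (∀ l, x l ∈ A) → f x ∈ S) (x : κ → M)
    (hx : ∀ l, x l ∈ Submodule.span R A) : f x ∈ S := by
  have key : ∀ s : Finset κ, ∀ x : κ → M, (∀ l ∈ s, x l ∈ Submodule.span R A) →
      (∀ l, l ∉ s → x l ∈ A) → f x ∈ S := by
    intro s
    induction s using Finset.induction_on with
    | empty => exact fun x _ h2 => h x fun l => h2 l (Finset.notMem_empty l)
    | insert a s ha ih =>
      intro x h1 h2
      have hle : Submodule.span R A ≤ S.comap (f.toLinearMap x a) := by
        rw [Submodule.span_le]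
        intro y hy
        change f (Function.update x a y) ∈ S
        refine ih _ (fun l hl => ?_) (fun l hl => ?_)
        · have : l ≠ a := fun e => ha (e ▸ hl)
          rw [Function.update_of_ne this]
          exact h1 l (Finset.mem_insert_of_mem hl)
        · by_cases e : l = a
          · subst e; rw [Function.update_self]; exact hy
          · rw [Function.update_of_ne e]
            exact h2 l (by simp [e, hl])
      have := hle (h1 a (Finset.mem_insert_self a s))
      change f (Function.update x a (x a)) ∈ S at this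
      rwa [Function.update_eq_self] at this
  exact key Finset.univ x (fun l _ => hx l) (fun l hl => absurd (Finset.mem_univ l) hl)

section
variable {ι : Type} [Fintype ι] [DecidableEq ι] {m : ℕ}

/-- the Capelli polynomial -/
noncomputable def Cap_D (x : Fin m → Matrix ι ι R) (y0 : Matrix ι ι R)
    (y : Fin m → Matrix ι ι R) : Matrix ι ι R :=
  ∑ σ : Equiv.Perm (Fin m), Equiv.Perm.sign σ • (y0 * (List.ofFn fun l => x (σ l) * y l).prod)

/-- as an alternating map in `x` -/
noncomputable def Cap_X (y0 : Matrix ι ι R) (y : Fin m → Matrix ι ι R) :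
    Matrix ι ι R [⋀^Fin m]→ₗ[R] Matrix ι ι R :=
  MultilinearMap.alternatization ((LinearMap.mulLeft R y0).compMultilinearMap
    ((MultilinearMap.mkPiAlgebraFin R m (Matrix ι ι R)).compLinearMap
      fun l => LinearMap.mulRight R (y l)))

lemma Cap_X_apply (x : Fin m → Matrix ι ι R) (y0 : Matrix ι ι R) (y : Fin m → Matrix ι ι R) :
    Cap_X y0 y x = Cap_D x y0 y := by
  rw [Cap_X, MultilinearMap.alternatization_apply, Cap_D]
  rfl

/-- as a multilinear map in `y` -/
noncomputable def Cap_Y (x : Fin m → Matrix ι ι R) (y0 : Matrix ι ι R) :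
    MultilinearMap R (fun _ : Fin m => Matrix ι ι R) (Matrix ι ι R) :=
  ∑ σ : Equiv.Perm (Fin m), Equiv.Perm.sign σ • ((LinearMap.mulLeft R y0).compMultilinearMap
    ((MultilinearMap.mkPiAlgebraFin R m (Matrix ι ι R)).compLinearMap
      fun l => LinearMap.mulLeft R (x (σ l))))

lemma Cap_Y_apply (x : Fin m → Matrix ι ι R) (y0 : Matrix ι ι R) (y : Fin m → Matrix ι ι R) :
    Cap_Y x y0 y = Cap_D x y0 y := by
  rw [Cap_Y, _root_.sum_apply, Cap_D]
  rfl

lemma Cap_D_left (x : Fin m → Matrix ι ι R) (y0 : Matrix ι ι R) (y : Fin m → Matrix ι ι R) :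
    Cap_D x y0 y = y0 * Cap_D x 1 y := by
  simp only [Cap_D, Finset.mul_sum, Matrix.one_mul, mul_smul_comm]

lemma Cap_prod (s : ι) : ∀ (m : ℕ) (a : Fin (m + 1) → ι) (b : Fin m → ι)
    (x : Fin m → Matrix ι ι R),
    single s (a 0) (1 : R) * (List.ofFn fun l => x l * single (b l) (a l.succ) (1 : R)).prod =
      (∏ l, x l (a l.castSucc) (b l)) • single s (a (Fin.last m)) (1 : R) := by
  intro m
  induction m with
  | zero => intro a b x; simp
  | succ m ih =>
    intro a b x
    have e1 : single s (a 0) (1 : R) * (x 0 * single (b 0) (a (Fin.succ 0)) (1 : R)) =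
        x 0 (a 0) (b 0) • single s (a (Fin.succ 0)) (1 : R) := by
      rw [← Matrix.mul_assoc, single_mul_mul_single]; simp [smul_single]
    have e2 := ih (fun l => a l.succ) (fun l => b l.succ) (fun l => x l.succ)
    rw [List.ofFn_succ, List.prod_cons, ← Matrix.mul_assoc, e1, Matrix.smul_mul, e2,
      Fin.prod_univ_succ, smul_smul]
    rfl

lemma Cap_unit (e : Fin m ≃ ι × ι) (s t : ι) :
    ∃ (x : Fin m → Matrix ι ι R) (y0 : Matrix ι ι R) (y : Fin m → Matrix ι ι R),
      Cap_D x y0 y = single s t 1 := by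
  let a : Fin (m + 1) → ι := Fin.snoc (α := fun _ => ι) (fun l => (e l).1) t
  refine ⟨fun l => single (e l).1 (e l).2 1, single s (a 0) 1,
    fun l => single (e l).2 (a l.succ) 1, ?_⟩
  have h1 : ∀ σ : Equiv.Perm (Fin m), single s (a 0) (1 : R) *
      (List.ofFn fun l => single (e (σ l)).1 (e (σ l)).2 (1 : R) *
        single (e l).2 (a l.succ) (1 : R)).prod =
      (∏ l, (1 : Matrix (Fin m) (Fin m) R) (σ l) l) • single s t (1 : R) := by
    intro σ
    rw [Cap_prod s m a (fun l => (e l).2) (fun l => single (e (σ l)).1 (e (σ l)).2 (1 : R))]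
    have ha : a (Fin.last m) = t := by simp [a]
    rw [ha]
    refine congrArg (· • single s t (1 : R)) (Finset.prod_congr rfl fun l _ => ?_)
    have hl : a l.castSucc = (e l).1 := by simp [a]
    rw [hl, Matrix.one_apply, Matrix.single_apply]
    by_cases h : σ l = l
    · simp [h]
    · rw [if_neg h, if_neg]
      intro h'
      exact h (e.injective (Prod.ext h'.1 h'.2))
  rw [Cap_D, Finset.sum_congr rfl fun σ _ => congrArg (Equiv.Perm.sign σ • ·) (h1 σ)]
  simp only [← smul_assoc]
  rw [← Finset.sum_smul, ← Matrix.det_apply, Matrix.det_one, one_smul]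

lemma Cap_trace (e : Fin m ≃ ι × ι) (b b' : Matrix ι ι R) (x : Fin m → Matrix ι ι R)
    (y0 : Matrix ι ι R) (y : Fin m → Matrix ι ι R) :
    (b.trace * b'.trace) • Cap_D x y0 y =
      ∑ l, Cap_D (Function.update x l (b * x l * b')) y0 y := by
  have h := Cap_alt ((Matrix.stdBasis R ι ι).reindex e.symm) (Cap_X y0 y)
    ((LinearMap.mulRight R b').comp (LinearMap.mulLeft R b)) x
  simp only [Cap_X_apply, LinearMap.comp_apply, LinearMap.mulRight_apply,
    LinearMap.mulLeft_apply] at h
  rw [h]
  refine congrArg (· • Cap_D x y0 y) ?_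
  have hr : ∀ (X : Matrix ι ι R) (p : ι × ι), (Matrix.stdBasis R ι ι).repr X p = X p.1 p.2 := by
    intro X p
    simp [Matrix.stdBasis]
  have : ∀ l, ((Matrix.stdBasis R ι ι).reindex e.symm).repr
      (b * ((Matrix.stdBasis R ι ι).reindex e.symm) l * b') l =
      b (e l).1 (e l).1 * b' (e l).2 (e l).2 := by
    intro l
    rw [Module.Basis.repr_reindex_apply, Module.Basis.reindex_apply, Equiv.symm_symm, hr]
    have : Matrix.stdBasis R ι ι (e l) = single (e l).1 (e l).2 1 :=
      Matrix.stdBasis_eq_single R (e l).1 (e l).2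
    rw [this, Matrix.mul_apply, Finset.sum_eq_single (e l).2]
    · rw [Matrix.mul_single_apply_same, mul_one]
    · intro k _ hk
      rw [Matrix.mul_single_apply_of_ne _ _ _ _ _ hk, zero_mul]
    · simp
  rw [Finset.sum_congr rfl fun l _ => this l,
    Equiv.sum_comp e (fun p => b p.1 p.1 * b' p.2 p.2), Fintype.sum_prod_type, Matrix.trace,
    Matrix.trace, Finset.sum_mul_sum]
  rfl

end

/-- Let `m = card ι ^ 2`, enumerate `ι × ι` by `Fin m`. The Capelli polynomial
`C x y0 y = ∑ σ, sign σ • (y0 * ∏ l, (x (σ l) * y l))` is alternating in `x` on a free module of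
rank `m`, so the additive closure `J` of its values on `G` is stable under products of two traces,
and `w ^ (2 m + 1) • E_st` is in the `R`-span of `J`. -/
theorem cap {ι : Type} [Fintype ι] [DecidableEq ι] (G : Submonoid (Matrix ι ι R)) (w u v : R)
    (hw : ∀ b, w • b ∈ Submodule.span R (G : Set (Matrix ι ι R)))
    (hT : ∀ x : R, ∃ o ∈ Subring.closure {o | ∃ b ∈ G, ∃ b' ∈ G, o = b.trace * b'.trace},
      v ∣ u * x - o) (b : Matrix ι ι R) :
    ∃ z ∈ AddSubgroup.closure (G : Set (Matrix ι ι R)),
      Cong v z ((w ^ (2 * Fintype.card ι ^ 2 + 1) * u) • b) := by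
  obtain ⟨m, hm⟩ : ∃ m, m = Fintype.card ι ^ 2 := ⟨_, rfl⟩
  rw [← hm]
  have e : Fin m ≃ ι × ι :=
    (Fintype.equivFinOfCardEq (by rw [Fintype.card_prod, hm, sq])).symm
  let V : Set (Matrix ι ι R) := {z | ∃ (x : Fin m → Matrix ι ι R) (y0 : Matrix ι ι R)
    (y : Fin m → Matrix ι ι R), (∀ l, x l ∈ G) ∧ y0 ∈ G ∧ (∀ l, y l ∈ G) ∧ z = Cap_D x y0 y}
  let J := AddSubgroup.closure V
  have hJG : J ≤ AddSubgroup.closure (G : Set (Matrix ι ι R)) := by
    rw [AddSubgroup.closure_le]
    rintro _ ⟨x, y0, y, hx, hy0, hy, rfl⟩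
    refine AddSubgroup.sum_mem _ fun σ _ => ?_
    rw [Units.smul_def]
    refine AddSubgroup.zsmul_mem _ (AddSubgroup.subset_closure ?_) _
    refine G.mul_mem hy0 (G.list_prod_mem fun z hz => ?_)
    obtain ⟨l, rfl⟩ := (List.mem_ofFn' _ _).mp hz
    exact G.mul_mem (hx _) (hy _)
  have hgen : ∀ b ∈ G, ∀ b' ∈ G, ∀ z ∈ J, (b.trace * b'.trace) • z ∈ J := by
    intro b hb b' hb' z hz
    induction hz using AddSubgroup.closure_induction with
    | mem z hz =>
      obtain ⟨x, y0, y, hx, hy0, hy, rfl⟩ := hz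
      rw [Cap_trace e]
      refine AddSubgroup.sum_mem _ fun l _ => AddSubgroup.subset_closure
        ⟨_, y0, y, fun k => ?_, hy0, hy, rfl⟩
      by_cases hk : k = l
      · subst hk; rw [Function.update_self]
        exact G.mul_mem (G.mul_mem hb (hx _)) hb'
      · rw [Function.update_of_ne hk]; exact hx k
    | zero => rw [smul_zero]; exact J.zero_mem
    | add x y _ _ hx hy => rw [smul_add]; exact J.add_mem hx hy
    | neg x _ hx => rw [smul_neg]; exact J.neg_mem hx
  have hO : ∀ o ∈ Subring.closure {o | ∃ b ∈ G, ∃ b' ∈ G, o = b.trace * b'.trace},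
      ∀ z ∈ J, o • z ∈ J := by
    intro o ho
    induction ho using Subring.closure_induction with
    | mem o ho =>
      obtain ⟨b, hb, b', hb', rfl⟩ := ho
      exact hgen b hb b' hb'
    | zero => intro z _; rw [zero_smul]; exact J.zero_mem
    | one => intro z hz; rwa [one_smul]
    | add x y _ _ hx hy => intro z hz; rw [add_smul]; exact J.add_mem (hx z hz) (hy z hz)
    | neg x _ hx => intro z hz; rw [neg_smul]; exact J.neg_mem (hx z hz)
    | mul x y _ _ hx hy => intro z hz; rw [mul_smul]; exact hx _ (hy z hz)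
  have hK : ∀ z ∈ Submodule.span R V, ∀ r : R, ∃ z' ∈ J, Cong v z' ((u * r) • z) := by
    intro z hz
    induction hz using Submodule.span_induction with
    | mem z hz =>
      intro r
      obtain ⟨o, ho, hd⟩ := hT r
      refine ⟨o • z, hO o ho z (AddSubgroup.subset_closure hz), fun i j => ?_⟩
      have : (o • z) i j - ((u * r) • z) i j = (u * r - o) * (-z i j) := by
        simp only [Matrix.smul_apply, smul_eq_mul]; ring
      rw [this]
      exact hd.mul_right _
    | zero => intro r; exact ⟨0, J.zero_mem, by rw [smul_zero]; exact Cong.refl _ _⟩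
    | add x y _ _ hx hy =>
      intro r
      obtain ⟨x', hx', h1⟩ := hx r
      obtain ⟨y', hy', h2⟩ := hy r
      refine ⟨x' + y', J.add_mem hx' hy', fun i j => ?_⟩
      have : (x' + y') i j - ((u * r) • (x + y)) i j =
          (x' i j - ((u * r) • x) i j) + (y' i j - ((u * r) • y) i j) := by
        simp only [Matrix.smul_apply, Matrix.add_apply, smul_eq_mul]; ring
      rw [this]
      exact (h1 i j).add (h2 i j)
    | smul c x _ hx =>
      intro r
      obtain ⟨x', hx', h1⟩ := hx (r * c)
      exact ⟨x', hx', by rwa [smul_smul, mul_assoc]⟩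
  have hS : ∀ (x : Fin m → Matrix ι ι R) (y0 : Matrix ι ι R) (y : Fin m → Matrix ι ι R),
      (∀ l, x l ∈ Submodule.span R (G : Set (Matrix ι ι R))) →
      y0 ∈ Submodule.span R (G : Set (Matrix ι ι R)) →
      (∀ l, y l ∈ Submodule.span R (G : Set (Matrix ι ι R))) →
      Cap_D x y0 y ∈ Submodule.span R V := by
    intro x y0 y hx hy0 hy
    rw [← Cap_X_apply]
    refine Cap_span (Cap_X y0 y).toMultilinearMap G _ (fun x hx => ?_) x hx
    change Cap_X y0 y x ∈ _
    rw [Cap_X_apply, ← Cap_Y_apply]
    refine Cap_span (Cap_Y x y0) G _ (fun y hy => ?_) y hy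
    rw [Cap_Y_apply, Cap_D_left]
    have hle : Submodule.span R (G : Set (Matrix ι ι R)) ≤
        (Submodule.span R V).comap (LinearMap.mulRight R (Cap_D x 1 y)) := by
      rw [Submodule.span_le]
      intro g hg
      change g * Cap_D x 1 y ∈ Submodule.span R V
      rw [← Cap_D_left]
      exact Submodule.subset_span ⟨x, g, y, hx, hg, hy, rfl⟩
    exact hle hy0
  have hE : ∀ s t : ι, w ^ (2 * m + 1) • single s t (1 : R) ∈ Submodule.span R V := by
    intro s t
    obtain ⟨x, y0, y, h⟩ := Cap_unit (R := R) e s t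
    have h1 := hS (fun l => w • x l) (w • y0) (fun l => w • y l) (fun _ => hw _) (hw _)
      (fun _ => hw _)
    have h2 : Cap_D (fun l => w • x l) (w • y0) (fun l => w • y l) =
        w ^ (2 * m + 1) • Cap_D x y0 y := by
      have a1 := (Cap_X (w • y0) (fun l => w • y l)).map_smul_univ (fun _ => w) x
      have a2 := (Cap_Y x (w • y0)).map_smul_univ (fun _ => w) y
      rw [Cap_X_apply, Cap_X_apply] at a1
      rw [Cap_Y_apply, Cap_Y_apply] at a2
      rw [a1, a2, Cap_D_left x (w • y0), Matrix.smul_mul, ← Cap_D_left, smul_smul, smul_smul,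
        Finset.prod_const, Finset.card_univ, Fintype.card_fin]
      refine congrArg (· • Cap_D x y0 y) ?_
      ring
    rwa [h2, h] at h1
  have hb : w ^ (2 * m + 1) • b ∈ Submodule.span R V := by
    rw [Matrix.matrix_eq_sum_single b, Finset.smul_sum]
    refine Submodule.sum_mem _ fun s _ => ?_
    rw [Finset.smul_sum]
    refine Submodule.sum_mem _ fun t _ => ?_
    have : w ^ (2 * m + 1) • single s t (b s t) = b s t • w ^ (2 * m + 1) • single s t (1 : R) := by
      rw [smul_comm, smul_single (b s t), smul_eq_mul, mul_one]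
    rw [this]
    exact Submodule.smul_mem _ _ (hE s t)
  obtain ⟨z, hz, hc⟩ := hK _ hb 1
  refine ⟨z, hJG hz, ?_⟩
  rwa [smul_smul, mul_one, mul_comm u] at hc

end Pool.Agent.Lib.MP_6adaea_nt.S
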