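import Mathlib

/-!
Counting homomorphisms.
-/

set_option linter.unusedSectionVars false

namespace Pool.Agent.Lib.MP_6adaea_nt.S
open Polynomial

open scoped nonZeroDivisors

theorem Cnt_sep {K E : Type} [Field K] [Field E] [Algebra K E] {x : E} {f : K[X]}
    (h0 : aeval x f = 0) (h1 : aeval x f.derivative ≠ 0) : IsSeparable K x := by
  have hf : f ≠ 0 := by
    rintro rfl
    simp at h1
  have hi : IsIntegral K x := (IsAlgebraic.isIntegral ⟨f, hf, h0⟩)
  unfold IsSeparable
  rw [Polynomial.separable_iff_derivative_ne_zero (minpoly.irreducible hi)]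
  intro hd
  obtain ⟨g, rfl⟩ := minpoly.dvd K x h0
  apply h1
  simp [derivative_mul, hd]

/-- Let `K` be the fraction field of `Λ`, `E` that of `B` (finite and separable over `K`: elements of
`B` are separable, and the separable closure is a subfield). `K`-homomorphisms `E → Ω` number
`finrank K E = finrank Λ B` (`AlgHom.card`, `IsFractionRing.finrank_eq` or
`Algebra.IsAlgebraic.finrank_of_isFractionRing`), and restriction to `B` is injective. -/
theorem homs_ge {Λ B Ω : Type} [CommRing Λ] [IsDomain Λ] [CommRing B] [IsDomain B] [Algebra Λ B]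
    [Module.Finite Λ B] [Field Ω] [IsAlgClosed Ω] [Algebra Λ Ω]
    (hB : Function.Injective (algebraMap Λ B)) (hΩ : Function.Injective (algebraMap Λ Ω))
    (hsep : ∀ x : B, ∃ f : Λ[X], aeval x f = 0 ∧ aeval x f.derivative ≠ 0) :
    ∃ σ : Fin (Module.finrank Λ B) → (B →ₐ[Λ] Ω), Function.Injective σ ∧
      ∀ l, Function.Injective (σ l) := by
  classical
  have : FaithfulSMul Λ B := (faithfulSMul_iff_algebraMap_injective Λ B).2 hB
  have : FaithfulSMul Λ Ω := (faithfulSMul_iff_algebraMap_injective Λ Ω).2 hΩ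
  let K := FractionRing Λ
  let E := FractionRing B
  let : Algebra K E := FractionRing.liftAlgebra Λ E
  have : IsScalarTower Λ K E := FractionRing.isScalarTower_liftAlgebra Λ E
  let : Algebra K Ω := FractionRing.liftAlgebra Λ Ω
  have : IsScalarTower Λ K Ω := FractionRing.isScalarTower_liftAlgebra Λ Ω
  have : Algebra.IsIntegral Λ B := inferInstance
  have : FiniteDimensional K E := .of_isLocalization Λ B Λ⁰
  have hinj : Function.Injective (algebraMap B E) := IsFractionRing.injective B E
  have hs : ∀ x : B, IsSeparable K (algebraMap B E x) := fun x => by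
    obtain ⟨f, h0, h1⟩ := hsep x
    refine Cnt_sep (f := f.map (algebraMap Λ K)) ?_ ?_
    · rw [aeval_map_algebraMap, aeval_algebraMap_apply, h0, map_zero]
    · rw [derivative_map, aeval_map_algebraMap, aeval_algebraMap_apply]
      exact fun h => h1 (hinj (by rw [h, map_zero]))
  have : Algebra.IsSeparable K E := ⟨fun y => by
    obtain ⟨a, b, -, rfl⟩ := IsFractionRing.div_surjective (A := B) y
    exact mem_separableClosure_iff.1 ((separableClosure K E).div_mem
      (mem_separableClosure_iff.2 (hs a)) (mem_separableClosure_iff.2 (hs b)))⟩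
  have hc : Fintype.card (E →ₐ[K] Ω) = Module.finrank Λ B := by
    rw [AlgHom.card K E Ω, IsFractionRing.finrank_eq Λ K B E]
  let e := (Fintype.equivFinOfCardEq hc).symm
  refine ⟨fun l => ((e l).restrictScalars Λ).comp (IsScalarTower.toAlgHom Λ B E), ?_, ?_⟩
  · intro l l' h
    apply e.injective
    ext y
    obtain ⟨a, b, -, rfl⟩ := IsFractionRing.div_surjective (A := B) y
    have h1 : ∀ c : B, e l (algebraMap B E c) = e l' (algebraMap B E c) := fun c =>
      DFunLike.congr_fun h c
    rw [map_div₀, map_div₀, h1, h1]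
  · intro l
    exact (e l).toRingHom.injective.comp hinj

/-- The maps `x ↦ σ i l (x i)` are `∑ i, finrank Λ (B i) = finrank Λ (∀ i, B i)` different
homomorphisms (test on `Pi.single i 1`). If their restrictions to `O` are different then
`finrank Λ (∀ i, B i) ≤ finrank Λ O` (`card_algHom_le_finrank`, `O` is finite free over a principal
ideal domain), so the quotient by `O` has rank zero, is torsion and finitely generated. -/
theorem two_homs {Λ Ω ι : Type} [CommRing Λ] [IsDomain Λ] [IsPrincipalIdealRing Λ] [Finite ι]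
    (B : ι → Type) [∀ i, CommRing (B i)] [∀ i, IsDomain (B i)] [∀ i, Algebra Λ (B i)]
    [∀ i, Module.Finite Λ (B i)] [Field Ω] [IsAlgClosed Ω] [Algebra Λ Ω]
    (hB : ∀ i, Function.Injective (algebraMap Λ (B i)))
    (hΩ : Function.Injective (algebraMap Λ Ω))
    (hsep : ∀ i (x : B i), ∃ f : Λ[X], aeval x f = 0 ∧ aeval x f.derivative ≠ 0)
    (O : Subalgebra Λ (∀ i, B i)) :
    (∃ l : Λ, l ≠ 0 ∧ ∀ x, l • x ∈ O) ∨
      ∃ (i j : ι) (σ : B i →ₐ[Λ] Ω) (τ : B j →ₐ[Λ] Ω), Function.Injective σ ∧
        Function.Injective τ ∧ (∃ x : ∀ i, B i, σ (x i) ≠ τ (x j)) ∧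
        ∀ o ∈ O, σ (o i) = τ (o j) := by
  classical
  have := Fintype.ofFinite ι
  have : ∀ i, FaithfulSMul Λ (B i) := fun i =>
    (faithfulSMul_iff_algebraMap_injective Λ (B i)).2 (hB i)
  have : ∀ i, Module.IsTorsionFree Λ (B i) := fun i => inferInstance
  have : ∀ i, Module.Free Λ (B i) := fun i => inferInstance
  choose σ hσ hσ' using fun i => homs_ge (Ω := Ω) (hB i) hΩ (hsep i)
  by_contra hcon
  rw [not_or] at hcon
  obtain ⟨h1, h2⟩ := hcon
  apply h1
  have : Module.Finite Λ O := Module.Finite.of_injective O.val.toLinearMap Subtype.val_injective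
  have : Module.IsTorsionFree Λ O :=
    Function.Injective.moduleIsTorsionFree O.val Subtype.val_injective (map_smul O.val)
  let ψ : (Σ i, Fin (Module.finrank Λ (B i))) → (O →ₐ[Λ] Ω) := fun a =>
    ((σ a.1 a.2).comp (Pi.evalAlgHom Λ B a.1)).comp O.val
  have hψ : Function.Injective ψ := by
    rintro ⟨i, l⟩ ⟨j, m⟩ h
    by_contra hne
    refine h2 ⟨i, j, σ i l, σ j m, hσ' i l, hσ' j m, ?_, fun o ho => DFunLike.congr_fun h ⟨o, ho⟩⟩
    by_cases hij : i = j
    · subst hij
      have hlm : l ≠ m := fun h => hne (by rw [h])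
      obtain ⟨b, hb⟩ := DFunLike.ne_iff.1 ((hσ i).ne hlm)
      exact ⟨Pi.single i b, by simpa using hb⟩
    · exact ⟨Pi.single i 1, by simp [Pi.single_eq_of_ne (Ne.symm hij)]⟩
  have h3 : Module.finrank Λ (∀ i, B i) ≤ Module.finrank Λ O := by
    refine le_trans ?_ (card_algHom_le_finrank Λ O Ω)
    refine le_trans (le_of_eq ?_) (Nat.card_le_card_of_injective ψ hψ)
    rw [Module.finrank_pi_fintype]
    simp
  have h4 := Submodule.finrank_quotient_add_finrank (Subalgebra.toSubmodule O)
  have h5 : Module.finrank Λ (Subalgebra.toSubmodule O) = Module.finrank Λ O := rfl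
  have h6 : Module.finrank Λ ((∀ i, B i) ⧸ Subalgebra.toSubmodule O) = 0 := by omega
  obtain ⟨l, hl, hl0⟩ := Submodule.annihilator_top_inter_nonZeroDivisors
    (Module.finrank_eq_zero_iff_isTorsion.1 h6)
  refine ⟨l, nonZeroDivisors.ne_zero hl0, fun x => ?_⟩
  have h7 := Submodule.mem_annihilator.1 hl ((Subalgebra.toSubmodule O).mkQ x) Submodule.mem_top
  rw [← map_smul, Submodule.mkQ_apply, Submodule.Quotient.mk_eq_zero] at h7
  exact h7

/-- The quotient of `V ⧸ M` by its torsion submodule is finite and torsion free, hence free, and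
the image of `v` is nonzero. -/
theorem exists_functional {Λ V : Type} [CommRing Λ] [IsDomain Λ] [IsPrincipalIdealRing Λ]
    [AddCommGroup V] [Module Λ V] [Module.Finite Λ V] (M : Submodule Λ V) (v : V)
    (h : ∀ l : Λ, l ≠ 0 → l • v ∉ M) : ∃ η : V →ₗ[Λ] Λ, (∀ m ∈ M, η m = 0) ∧ η v ≠ 0 := by
  let T := Submodule.torsion Λ (V ⧸ M)
  have : Module.Free Λ ((V ⧸ M) ⧸ T) := inferInstance
  have hv : T.mkQ (M.mkQ v) ≠ 0 := by
    intro h0
    rw [Submodule.mkQ_apply, Submodule.Quotient.mk_eq_zero] at h0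
    obtain ⟨⟨l, hl⟩, h1⟩ := (Submodule.mem_torsion_iff _).1 h0
    apply h l (nonZeroDivisors.ne_zero hl)
    change l • M.mkQ v = 0 at h1
    rwa [← map_smul, Submodule.mkQ_apply, Submodule.Quotient.mk_eq_zero] at h1
  obtain ⟨f, hf⟩ := Module.Projective.exists_dual_ne_zero Λ hv
  refine ⟨f ∘ₗ T.mkQ ∘ₗ M.mkQ, fun m hm => ?_, hf⟩
  have : M.mkQ m = 0 := by rwa [Submodule.mkQ_apply, Submodule.Quotient.mk_eq_zero]
  simp only [LinearMap.comp_apply, this, map_zero]

end Pool.Agent.Lib.MP_6adaea_nt.S
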