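import Pool.Agent.Lib.MP_6adaea_nt.S.Defs

/-!
Dual bases of sl modulo scalars.
-/

set_option linter.unusedSectionVars false

namespace Pool.Agent.Lib.MP_6adaea_nt.S
open Matrix G

variable {n : Type} [Fintype n] [DecidableEq n] {R : Type} [CommRing R]

/-- the basis matrices -/
def SDat_B (z : n) (a : n × n) : Matrix n n R :=
  single a.1 a.2 1 - if a.1 = a.2 then single z z 1 else 0

/-- the dual functionals -/
def SDat_xi (η : Matrix n n R →ₗ[R] R) (a : n × n) : Matrix n n R →ₗ[R] R :=
  entryLinearMap R R a.1 a.2 - if a.1 = a.2 then η else 0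

lemma SDat_xi_apply (η : Matrix n n R →ₗ[R] R) (a : n × n) (X : Matrix n n R) :
    SDat_xi η a X = X a.1 a.2 - if a.1 = a.2 then η X else 0 := by
  rw [SDat_xi]
  split_ifs <;> simp

lemma SDat_tr (z : n) (a : n × n) : (SDat_B z a : Matrix n n R).trace = 0 := by
  obtain ⟨i, j⟩ := a
  rw [SDat_B]
  split_ifs with h
  · obtain rfl : i = j := h
    simp
  · simp [trace_single_eq_of_ne _ _ _ h]

lemma SDat_sum {α M : Type} [Fintype α] [AddCommMonoid M] (q : α → Prop) [DecidablePred q]
    (f : α → M) (h : ∀ a, ¬q a → f a = 0) : ∑ a : {a // q a}, f a = ∑ a, f a := by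
  rw [← Fintype.sum_subtype_add_sum_subtype q f,
    Finset.sum_eq_zero (s := Finset.univ) fun (a : {a // ¬q a}) _ => h a a.2, add_zero]

lemma SDat_K1 (z : n) (η : Matrix n n R →ₗ[R] R) (Y : Matrix n n R) :
    ∑ a, SDat_xi η a Y • SDat_B z a =
      Y - ((Y.trace - Fintype.card n * η Y) • single z z 1 + η Y • 1) := by
  have h : ∀ i j : n, SDat_xi η (i, j) Y • SDat_B z (i, j) = single i j (Y i j) -
      if i = j then (Y i i - η Y) • (single z z 1 : Matrix n n R) + η Y • single i i 1 else 0 :=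
    fun i j => by
      have e : single i j (Y i j) = Y i j • (single i j 1 : Matrix n n R) := by
        rw [smul_single, smul_eq_mul, mul_one]
      rw [SDat_xi_apply, SDat_B, e]
      split_ifs with h
      · obtain rfl : i = j := h
        module
      · simp
  rw [Fintype.sum_prod_type]
  simp only [h, Finset.sum_sub_distrib, Finset.sum_ite_eq, Finset.mem_univ, if_true,
    Finset.sum_add_distrib]
  rw [← matrix_eq_sum_single, ← Finset.sum_smul, ← Finset.smul_sum, sum_single_one,
    Finset.sum_sub_distrib, Finset.sum_const, nsmul_eq_mul]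
  rfl

lemma SDat_K2 (z : n) (η : Matrix n n R →ₗ[R] R) (g : GL n R) :
    ∑ a, SDat_xi η a (ad g (SDat_B z a)) = g.val.trace * (g⁻¹).val.trace -
      (1 + η 1 - Fintype.card n * η (ad g (single z z 1))) := by
  have h : ∀ i j : n, SDat_xi η (i, j) (ad g (SDat_B z (i, j))) = g.val i i * (g⁻¹).val j j -
      if i = j then ad g (single z z 1) i i + η (adL g (single i i 1)) -
        η (ad g (single z z 1)) else 0 := fun i j => by
    have e : ad g (single i j 1) i j = g.val i i * (g⁻¹).val j j := by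
      rw [ad, mul_apply, Finset.sum_eq_single j]
      · simp
      · intro b _ hb
        rw [mul_single_apply_of_ne _ _ _ _ _ hb, zero_mul]
      · simp
    rw [SDat_xi_apply, SDat_B, ← e]
    split_ifs with h
    · obtain rfl : i = j := h
      simp only [ad_sub, map_sub, Matrix.sub_apply, adL_apply]
      ring
    · simp
  rw [Fintype.sum_prod_type]
  simp only [h, Finset.sum_sub_distrib, Finset.sum_ite_eq, Finset.mem_univ, if_true,
    Finset.sum_add_distrib]
  have e : ∑ i, ad g (single z z 1) i i = 1 := by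
    have := ad_trace g (single z z 1)
    rwa [trace_single_eq_same] at this
  rw [← Finset.sum_mul_sum, ← map_sum, ← map_sum, sum_single_one, adL_apply, ad_id, e,
    Finset.sum_const, nsmul_eq_mul]
  rfl

theorem SDat_core {z o : n} (hzo : z ≠ o) (p : n → Prop) [DecidablePred p] (hz : p z)
    (η : Matrix n n R →ₗ[R] R) (c : R) (h1 : η 1 = 1)
    (h2 : ∀ a : n × n, ¬(a.1 = a.2 ∧ p a.1) → η (SDat_B z a) = 0)
    (h3 : ∀ i, p i → i = z ∨ ∀ X, η X = X i i)
    (h4 : ∀ Y, Fintype.card n * η Y = c * Y.trace) (h5 : (ee n R : R) = 2 - c) :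
    ∃ (ι : Type) (_ : Fintype ι) (_ : DecidableEq ι) (_ : Nonempty ι), Nonempty (SD n R ι) := by
  have h6 : ∀ a : n × n, ¬¬(a.1 = a.2 ∧ p a.1) →
      (SDat_B z a : Matrix n n R) = 0 ∨ ∀ X, SDat_xi η a X = 0 := by
    rintro ⟨i, j⟩ h
    obtain ⟨h, hp⟩ := not_not.1 h
    obtain rfl : i = j := h
    rcases h3 i hp with rfl | h
    · exact Or.inl (by simp [SDat_B])
    · exact Or.inr fun X => by simp [SDat_xi_apply, h]
  refine ⟨{a : n × n // ¬(a.1 = a.2 ∧ p a.1)}, inferInstance, inferInstance,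
    ⟨⟨(z, o), fun h => hzo h.1⟩⟩, ⟨⟨fun a => SDat_B z a.1, fun a => SDat_xi η a.1,
      fun a => SDat_tr z a.1, fun a => ?_, fun a b => ?_, fun Y hY => ⟨η Y, ?_⟩, fun g => ?_⟩⟩⟩
  · rw [SDat_xi_apply, h1, one_apply, sub_self]
  · have e : (single z z 1 : Matrix n n R) a.1.1 a.1.2 = 0 :=
      single_apply_of_ne _ _ _ _ _ fun h => a.2 ⟨h.1.symm.trans h.2, h.1 ▸ hz⟩
    have e' : (if b.1.1 = b.1.2 then (single z z 1 : Matrix n n R) else 0) a.1.1 a.1.2 = 0 := by
      split_ifs
      exacts [e, rfl]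
    rw [SDat_xi_apply, h2 _ b.2, ite_self, sub_zero, SDat_B, Matrix.sub_apply, e', sub_zero]
    split_ifs with h
    · rw [h, single_apply_same]
    · exact single_apply_of_ne _ _ _ _ _ fun h' => h (Subtype.ext (Prod.ext h'.1.symm h'.2.symm))
  · rw [SDat_sum _ (fun a => SDat_xi η a Y • SDat_B z a) fun a h => by
      rcases h6 a h with h | h <;> simp [h], SDat_K1, h4, hY]
    simp
  · rw [SDat_sum _ (fun a => SDat_xi η a (ad g (SDat_B z a))) fun a h => by
      rcases h6 a h with h | h <;> simp [h, ad], SDat_K2, h4, ad_trace, trace_single_eq_same, h1,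
      chi, h5]
    ring

/-- Fix `0 ≠ 1` in `n`. Index set: pairs `(i, j) ≠ (0, 0)`, and `≠ (1, 1)` if `card n = 0` in `R`.
`B (i, j) = E_ij - [i = j] E_00`, `ξ (i, j) X = X i j - [i = j] η X` with `η X = trace X / card n`
in the first case and `η X = X 1 1` in the second. Then `η 1 = 1`, `η (B a) = 0` and
`Y - ∑ ξ a Y • B a = η Y • 1` for `trace Y = 0`. For `T = ad g` use `T 1 = 1`, `trace (T X) = trace X`,
`∑ i j, T (E_ij) i j = trace g * trace g⁻¹`. (If `card n` is both a unit and zero the ring is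
trivial; decide first whether `card n = 0`.) -/
theorem exists_SD [Nontrivial n] (h : IsUnit (Fintype.card n : R) ∨ (Fintype.card n : R) = 0) :
    ∃ (ι : Type) (_ : Fintype ι) (_ : DecidableEq ι) (_ : Nonempty ι), Nonempty (SD n R ι) := by
  obtain ⟨z, o, hzo⟩ := exists_pair_ne n
  by_cases h0 : (Fintype.card n : R) = 0
  · refine SDat_core hzo (fun i => i = z ∨ i = o) (Or.inl rfl) (entryLinearMap R R o o) 0
      (by simp) (fun a ha => ?_) (fun i hi => hi.imp_right fun e X => by simp [e])
      (by simp [h0]) (by simp [ee, h0])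
    have e : (single a.1 a.2 1 : Matrix n n R) o o = 0 :=
      single_apply_of_ne _ _ _ _ _ fun h => ha ⟨h.1.trans h.2.symm, Or.inr h.1⟩
    rw [entryLinearMap_apply, SDat_B, Matrix.sub_apply, e]
    split_ifs <;> simp [hzo]
  · obtain ⟨u, hu⟩ := (h.resolve_right h0).exists_right_inv
    refine SDat_core hzo (fun i => i = z) rfl (u • traceLinearMap n R R) 1
      (by simp [mul_comm u, hu]) (fun a _ => by simp [SDat_tr]) (fun i hi => Or.inl hi)
      (fun Y => by simp [← mul_assoc, hu]) (by simp [ee, h0]; norm_num)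

end Pool.Agent.Lib.MP_6adaea_nt.S
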