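import Pool.Agent.Lib.MP_6adaea_nt.S.Burn
import Pool.Agent.Lib.MP_6adaea_nt.S.Cap

/-!
The sandwich argument.
-/

set_option linter.unusedSectionVars false

namespace Pool.Agent.Lib.MP_6adaea_nt.S
open Matrix G

variable {n : Type} [Fintype n] [DecidableEq n] {R : Type} [CommRing R]

section aux

variable {ι : Type} [Fintype ι] [DecidableEq ι] (D : SD n R ι)

/-- the matrix of an operator in the given bases -/
def Sand_pr : Module.End R (Matrix n n R) →ₗ[R] Matrix ι ι R where
  toFun T := Matrix.of fun a b => D.ξ a (T (D.B b))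
  map_add' T T' := by ext a b; simp
  map_smul' c T := by ext a b; simp

lemma Sand_pr_apply (T : Module.End R (Matrix n n R)) (a b : ι) :
    Sand_pr D T a b = D.ξ a (T (D.B b)) := rfl

lemma Sand_dec {Y : Matrix n n R} (hY : Y.trace = 0) :
    ∃ s : R, Y = ∑ c, D.ξ c Y • D.B c + s • (1 : Matrix n n R) := by
  obtain ⟨s, hs⟩ := D.scal Y hY
  exact ⟨s, by rw [← hs]; abel⟩

lemma Sand_xi (g : GL n R) {Y : Matrix n n R} (hY : Y.trace = 0) (a : ι) :
    D.ξ a (ad g Y) = ∑ c, D.ξ a (ad g (D.B c)) * D.ξ c Y := by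
  obtain ⟨s, hs⟩ := Sand_dec D hY
  have h1 : ad g Y = adL g (∑ c, D.ξ c Y • D.B c + s • (1 : Matrix n n R)) := by
    rw [← hs, adL_apply]
  rw [h1]
  simp only [map_add, map_sum, map_smul, adL_apply, ad_id, D.one, smul_eq_mul, mul_zero, add_zero]
  exact Finset.sum_congr rfl fun c _ => mul_comm _ _

lemma Sand_mul (g h : GL n R) :
    Sand_pr D (adL (g * h)) = Sand_pr D (adL g) * Sand_pr D (adL h) := by
  ext a b
  rw [Matrix.mul_apply, Sand_pr_apply, adL_apply, ad_mul,
    Sand_xi D g ((ad_trace h _).trans (D.trB b))]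
  rfl

lemma Sand_one : Sand_pr D 1 = 1 := by
  ext a b
  rw [Sand_pr_apply, Module.End.one_apply, D.dual, Matrix.one_apply]

lemma Sand_single (a c : ι) : Sand_pr D ((D.ξ c).smulRight (D.B a)) = single a c 1 := by
  ext a' c'
  rw [Sand_pr_apply, LinearMap.smulRight_apply, map_smul, D.dual, D.dual, single_apply]
  by_cases h1 : c = c' <;> by_cases h2 : a = a' <;> simp [h1, h2, eq_comm (a := a')]

/-- the image of a subgroup -/
def Sand_G (H : Subgroup (GL n R)) : Submonoid (Matrix ι ι R) where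
  carrier := {b | ∃ g ∈ H, b = Sand_pr D (adL g)}
  one_mem' := ⟨1, H.one_mem, by rw [adL_one, Sand_one]⟩
  mul_mem' := by
    rintro _ _ ⟨g, hg, rfl⟩ ⟨h, hh, rfl⟩
    exact ⟨g * h, H.mul_mem hg hh, (Sand_mul D g h).symm⟩

lemma Sand_hw {H : Subgroup (GL n R)} {w : R} (hB : Bp H w) (b : Matrix ι ι R) :
    w ^ 5 • b ∈ Submodule.span R (Sand_G D H : Set (Matrix ι ι R)) := by
  have h1 : DM H ≤ (Submodule.span R (Sand_G D H : Set (Matrix ι ι R))).comap (Sand_pr D) := by
    refine Submodule.span_le.2 ?_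
    rintro _ ⟨g, hg, rfl⟩
    refine Submodule.mem_comap.2 ?_
    rw [map_sub, Sand_one]
    exact Submodule.sub_mem _ (Submodule.subset_span ⟨g, hg, rfl⟩)
      (Submodule.subset_span (Sand_G D H).one_mem)
  rw [matrix_eq_sum_single b, Finset.smul_sum]
  refine Submodule.sum_mem _ fun a _ => ?_
  rw [Finset.smul_sum]
  refine Submodule.sum_mem _ fun c _ => ?_
  have h2 := Submodule.mem_comap.1 (h1 (burn hB (D.ξ c) (D.one c) (D.trB a)))
  rw [map_smul, Sand_single] at h2
  have h3 : single a c (b a c) = b a c • (single a c 1 : Matrix ι ι R) := by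
    rw [smul_single, smul_eq_mul, mul_one]
  rw [h3, smul_comm]
  exact Submodule.smul_mem _ _ h2

/-- the sandwich map -/
def Sand_psi (g : GL n R) (W : Matrix n n R) : Matrix ι ι R →ₗ[R] Matrix n n R where
  toFun b := (adL g - 1) (∑ a, (∑ a', b a a' * D.ξ a' W) • D.B a)
  map_add' b b' := by
    rw [← map_add, ← Finset.sum_add_distrib]
    simp only [Matrix.add_apply, add_mul, Finset.sum_add_distrib, add_smul]
  map_smul' c b := by
    rw [RingHom.id_apply, ← map_smul, Finset.smul_sum]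
    simp only [Matrix.smul_apply, smul_eq_mul, mul_assoc, ← Finset.mul_sum, mul_smul]

lemma Sand_psi_ad (g γ : GL n R) {W : Matrix n n R} (hW : W.trace = 0) :
    Sand_psi D g W (Sand_pr D (adL γ)) = ad g (ad γ W) - ad γ W := by
  obtain ⟨s, hs⟩ := Sand_dec D ((ad_trace γ W).trans hW)
  have h1 : ∑ a, (∑ a', Sand_pr D (adL γ) a a' * D.ξ a' W) • D.B a = ad γ W - s • 1 := by
    rw [eq_sub_iff_add_eq]
    refine Eq.trans ?_ hs.symm
    congr 1
    refine Finset.sum_congr rfl fun a _ => ?_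
    rw [Sand_xi D γ hW]
    rfl
  change (adL g - 1) (∑ a, (∑ a', Sand_pr D (adL γ) a a' * D.ξ a' W) • D.B a) = _
  rw [h1, LinearMap.sub_apply, adL_apply, Module.End.one_apply, ad_sub, ad_smul, ad_id]
  abel

lemma Sand_psi_single (g : GL n R) (W : Matrix n n R) (a a' : ι) :
    Sand_psi D g W (single a a' 1) = D.ξ a' W • (adL g - 1) (D.B a) := by
  change (adL g - 1) (∑ c, (∑ c', (single a a' 1 : Matrix ι ι R) c c' * D.ξ c' W) • D.B c) = _
  rw [← map_smul]
  congr 1
  rw [Finset.sum_eq_single a, Finset.sum_eq_single a']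
  · simp
  · intro c _ hc
    rw [single_apply_of_col_ne _ _ hc.symm, zero_mul]
  · simp
  · intro c _ hc
    simp [single_apply_of_row_ne hc.symm]
  · simp

/-- the matrices whose multiples lie in `DS H X` modulo `v` -/
def Sand_V (H : Subgroup (GL n R)) (X : Matrix n n R) (u v : R) : Submodule R (Matrix n n R) where
  carrier := {Y | ∀ x : R, ∃ Z ∈ DS H X, Cong v Z ((u * x) • Y)}
  zero_mem' := fun x => ⟨0, zero_mem _, by rw [smul_zero]; exact Cong.refl _ _⟩
  add_mem' := by
    intro Y Y' h h' x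
    obtain ⟨Z, hZ, hc⟩ := h x
    obtain ⟨Z', hZ', hc'⟩ := h' x
    refine ⟨Z + Z', add_mem hZ hZ', fun i j => ?_⟩
    have := (hc i j).add (hc' i j)
    rw [smul_add, Matrix.add_apply, Matrix.add_apply]
    convert this using 1
    ring
  smul_mem' := by
    intro c Y h x
    obtain ⟨Z, hZ, hc⟩ := h (x * c)
    exact ⟨Z, hZ, by rwa [smul_smul, mul_assoc]⟩

end aux

/-- Put `pr T = of fun a b => ξ a (T (B b))`, linear in `T`. `A g = pr (adL g)` is multiplicative
(`scal`, `ad g` fixes scalars and keeps the trace), `A 1 = 1`, `trace (A g) = chi g`. `G` is the image of `H`.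
`pr` maps `DM H` into the span of `G`, and `pr ((ξ b).smulRight (B a)) = E_ab`, so `burn` gives `hw` of
`cap` with `w ^ 5`. For `g, g' ∈ H` and fixed `X` put
`Ψ b = (adL g - 1) (∑ a a', (b a a' * ξ a' (ad g' X - X)) • B a)`, linear in `b`, with
`Ψ (A γ) = (adL g - 1) (ad γ (ad g' X - X)) ∈ DS H X`. So `u' • Ψ b ∈ DS H X` modulo `v` for all `b`,
`u' = (w ^ 5) ^ (2 m + 1) * u`. The set `V` of `Y` such that `(u' * x) • Y ∈ DS H X` modulo `v` for all
`x` is a submodule containing all `ξ a' (ad g' X - X) • (ad g (B a) - B a)`. By span induction and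
`burn` (with `(ξ a).smulRight Y`) it contains `ξ a' (ad g' X - X) • w ^ 5 • Y`, and again by `burn`
(with `η.smulRight (B a')`) it contains `η X • w ^ 10 • Y` for every functional `η` with `η 1 = 0`.
These values `η X` generate `lev X`. -/
theorem sand {ι : Type} [Fintype ι] [DecidableEq ι] [Nonempty ι] (D : SD n R ι)
    {H : Subgroup (GL n R)} {w u v : R} (hB : Bp H w)
    (hT : ∀ x : R, ∃ o ∈ trR H, v ∣ u * x - o) :
    Wd H (w ^ (10 * Fintype.card ι ^ 2 + 15) * u) v := by
  intro X Y hY a ha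
  obtain ⟨i₀⟩ := ‹Nonempty ι›
  obtain ⟨u', hu'⟩ : ∃ u', u' = (w ^ 5) ^ (2 * Fintype.card ι ^ 2 + 1) * u := ⟨_, rfl⟩
  have hcap : ∀ b, ∃ z ∈ AddSubgroup.closure (Sand_G D H : Set (Matrix ι ι R)),
      Cong v z (u' • b) := by
    rw [hu']
    refine cap (Sand_G D H) (w ^ 5) u v (Sand_hw D hB) fun x => ?_
    obtain ⟨o, ho, hv⟩ := hT x
    refine ⟨o, Subring.closure_mono ?_ ho, hv⟩
    rintro _ ⟨g, hg, g', hg', rfl⟩
    exact ⟨_, ⟨g, hg, rfl⟩, _, ⟨g', hg', rfl⟩, by rw [← D.tr, ← D.tr]; rfl⟩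
  have h1 : ∀ g ∈ H, ∀ g' ∈ H, ∀ b, Sand_psi D g (ad g' X - X) b ∈ Sand_V H X u' v := by
    intro g hg g' hg' b x
    have hW : (ad g' X - X).trace = 0 := by rw [trace_sub, ad_trace, sub_self]
    obtain ⟨z, hz, hc⟩ := hcap (x • b)
    refine ⟨Sand_psi D g (ad g' X - X) z, ?_, ?_⟩
    · have h2 : AddSubgroup.closure (Sand_G D H : Set (Matrix ι ι R)) ≤
          (DS H X).comap (Sand_psi D g (ad g' X - X)).toAddMonoidHom := by
        refine (AddSubgroup.closure_le _).2 ?_
        rintro _ ⟨γ, hγ, rfl⟩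
        change Sand_psi D g (ad g' X - X) (Sand_pr D (adL γ)) ∈ DS H X
        have h3 : ∀ k ∈ H, ad k X - X ∈ DS H X := fun k hk =>
          AddSubgroup.subset_closure ⟨k, hk, rfl⟩
        have h4 := sub_mem (sub_mem (h3 _ (H.mul_mem hg (H.mul_mem hγ hg')))
          (h3 _ (H.mul_mem hg hγ))) (sub_mem (h3 _ (H.mul_mem hγ hg')) (h3 _ hγ))
        rw [Sand_psi_ad D g γ hW]
        simp only [ad_mul, ad_sub] at h4 ⊢
        convert h4 using 1
        abel
      exact h2 hz
    · obtain ⟨Z, rfl⟩ := cong_iff.1 hc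
      refine cong_iff.2 ⟨Sand_psi D g (ad g' X - X) Z, ?_⟩
      rw [map_add, map_smul, map_smul, map_smul, smul_smul]
  have h2 : ∀ g' ∈ H, D.ξ i₀ (ad g' X - X) • w ^ 5 • Y ∈ Sand_V H X u' v := by
    intro g' hg'
    have h3 : ∀ T ∈ DM H, D.ξ i₀ (ad g' X - X) • T (D.B i₀) ∈ Sand_V H X u' v := by
      intro T hT
      induction hT using Submodule.span_induction with
      | mem T hT =>
        obtain ⟨g, hg, rfl⟩ := hT
        rw [← Sand_psi_single]
        exact h1 g hg g' hg' _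
      | zero => simp
      | add T T' _ _ h h' =>
        rw [LinearMap.add_apply, smul_add]
        exact add_mem h h'
      | smul c T _ h =>
        rw [LinearMap.smul_apply, smul_comm]
        exact Submodule.smul_mem _ _ h
    have h4 := h3 _ (burn hB (D.ξ i₀) (D.one i₀) hY)
    rwa [LinearMap.smul_apply, LinearMap.smulRight_apply, D.dual, if_pos rfl, one_smul] at h4
  have h3 : ∀ η : Matrix n n R →ₗ[R] R, η 1 = 0 → η X • w ^ 5 • w ^ 5 • Y ∈ Sand_V H X u' v := by
    intro η hη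
    have h4 : ∀ T ∈ DM H, D.ξ i₀ (T X) • w ^ 5 • Y ∈ Sand_V H X u' v := by
      intro T hT
      induction hT using Submodule.span_induction with
      | mem T hT =>
        obtain ⟨g, hg, rfl⟩ := hT
        exact h2 g hg
      | zero => simp
      | add T T' _ _ h h' =>
        rw [LinearMap.add_apply, map_add, add_smul]
        exact add_mem h h'
      | smul c T _ h =>
        rw [LinearMap.smul_apply, map_smul, smul_eq_mul, mul_smul]
        exact Submodule.smul_mem _ _ h
    have h5 := h4 _ (burn hB η hη (D.trB i₀))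
    rwa [LinearMap.smul_apply, LinearMap.smulRight_apply, map_smul, map_smul, D.dual, if_pos rfl,
      smul_eq_mul, smul_eq_mul, mul_one, mul_comm, mul_smul] at h5
  have h4 : lev X ≤ (Sand_V H X u' v).comap
      (LinearMap.toSpanSingleton R _ (w ^ 5 • w ^ 5 • Y)) := by
    refine lev_le_iff.2 ⟨fun i j hij => ?_, fun i j => ?_⟩
    · exact h3 (entryLinearMap R R i j) (one_apply_ne hij)
    · exact h3 (entryLinearMap R R i i - entryLinearMap R R j j) (by simp)
  obtain ⟨Z, hZ, hc⟩ := h4 ha 1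
  refine ⟨Z, hZ, ?_⟩
  rw [LinearMap.toSpanSingleton_apply, smul_smul, smul_smul, smul_smul, hu'] at hc
  convert hc using 2
  ring

end Pool.Agent.Lib.MP_6adaea_nt.S
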