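import Pool.Agent.Lib.MP_6adaea_nt.S.Defs
import Pool.Agent.Lib.MP_6adaea_nt.S.Cnt

/-!
Saturation.
-/

set_option linter.unusedSectionVars false

namespace Pool.Agent.Lib.MP_6adaea_nt.S
open Matrix G

variable {n : Type} [Fintype n] [DecidableEq n]

/-- For each `i` let `M i` be the image of `M` in `J → (κ i)⟦X⟧`, a submodule. If no nonzero
multiple of the image of `v` is in `M i`, then `exists_functional` and `Pi.single i` give a functional
contradicting `h`. So `X ^ c i • v i ∈ M i`; multiply by the idempotents and add. -/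
theorem sat {ι : Type} [Finite ι] (κ : ι → Type) [∀ i, Field (κ i)] {J : Type} [Finite J]
    (M : Submodule (RR κ) (J → RR κ)) (v : J → RR κ)
    (h : ∀ η : (J → RR κ) →ₗ[RR κ] RR κ, (∀ m ∈ M, η m = 0) → η v = 0) :
    ∃ c : ℕ, pi0 κ ^ c • v ∈ M := by
  classical
  have := Fintype.ofFinite ι
  have key : ∀ i, ∃ c : ℕ, ∃ m ∈ M, ∀ j, PowerSeries.X ^ c * v j i = m j i := by
    intro i
    let N : Submodule (PowerSeries (κ i)) (J → PowerSeries (κ i)) :=
      { carrier := {w | ∃ m ∈ M, ∀ j, w j = m j i}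
        zero_mem' := ⟨0, zero_mem _, fun _ => rfl⟩
        add_mem' := fun ⟨m, hm, e⟩ ⟨m', hm', e'⟩ =>
          ⟨m + m', add_mem hm hm', fun j => by simp [e j, e' j]⟩
        smul_mem' := fun c _ ⟨m, hm, e⟩ =>
          ⟨(Pi.single i c : RR κ) • m, M.smul_mem _ hm, fun j => by simp [e j]⟩ }
    by_contra hc
    obtain ⟨η, h1, h2⟩ := exists_functional N (fun j => v j i) fun l hl hm => by
      obtain ⟨c, u, e⟩ :=
        IsDiscreteValuationRing.associated_pow_irreducible hl PowerSeries.X_irreducible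
      obtain ⟨m, hm, e'⟩ := N.smul_mem (u : PowerSeries (κ i)) hm
      refine hc ⟨c, m, hm, fun j => ?_⟩
      rw [← e' j, ← e]
      simp only [Pi.smul_apply, smul_eq_mul]
      ring
    let η' : (J → RR κ) →ₗ[RR κ] RR κ :=
      { toFun := fun m => Pi.single i (η fun j => m j i)
        map_add' := fun m m' => by
          rw [← Pi.single_add, ← map_add]
          rfl
        map_smul' := fun r m => by
          have e : (fun j => (r • m) j i) = r i • fun j => m j i := rfl
          rw [e, map_smul]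
          funext k
          by_cases hk : k = i
          · subst hk
            simp
          · simp [hk] }
    have h3 := congrFun (h η' fun m hm => by
      change (Pi.single i (η fun j => m j i) : RR κ) = 0
      rw [h1 _ ⟨m, hm, fun _ => rfl⟩, Pi.single_zero]) i
    exact h2 (by simpa [η'] using h3)
  choose c m hm e using key
  refine ⟨Finset.univ.sup c, ?_⟩
  have h1 : pi0 κ ^ Finset.univ.sup c • v =
      ∑ i, (Pi.single i (PowerSeries.X ^ (Finset.univ.sup c - c i)) : RR κ) • m i := by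
    funext j k
    rw [Finset.sum_apply, Finset.sum_apply, Finset.sum_eq_single k]
    · simp only [Pi.smul_apply, smul_eq_mul, Pi.mul_apply, Pi.pow_apply, pi0_apply,
        Pi.single_eq_same]
      rw [← e, ← mul_assoc, ← pow_add, Nat.sub_add_cancel (Finset.le_sup (Finset.mem_univ k))]
    · intro i _ hi
      simp [hi.symm]
    · simp
  rw [h1]
  exact sum_mem fun i _ => M.smul_mem _ (hm i)

theorem Sat_gen {ι : Type} [Finite ι] (κ : ι → Type) [∀ i, Field (κ i)] {V : Type} [AddCommGroup V]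
    [Module (RR κ) V] [Module.Free (RR κ) V] [Module.Finite (RR κ) V]
    (M : Submodule (RR κ) V) (v : V)
    (h : ∀ η : V →ₗ[RR κ] RR κ, (∀ m ∈ M, η m = 0) → η v = 0) :
    ∃ c : ℕ, ∀ d, c ≤ d → pi0 κ ^ d • v ∈ M := by
  let e := (Module.Free.chooseBasis (RR κ) V).equivFun
  obtain ⟨c, m, hm, e1⟩ := sat κ (M.map e.toLinearMap) (e v) fun η hη =>
    h (η ∘ₗ e.toLinearMap) fun m hm => hη _ ⟨m, hm, rfl⟩
  refine ⟨c, fun d hd => ?_⟩
  have e2 : m = pi0 κ ^ c • v := e.injective (by rw [map_smul]; exact e1)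
  rw [← Nat.sub_add_cancel hd, pow_add, mul_smul, ← e2]
  exact M.smul_mem _ hm

theorem Sat_two {ι : Type} (κ : ι → Type) [∀ i, Field (κ i)] {a b : RR κ}
    (h : ∀ t : RR κ, t * a - t ^ 2 * b = 0) : a = 0 ∧ b = 0 := by
  have key : ∀ i, a i = 0 ∧ b i = 0 := fun i => by
    have h1 : PowerSeries.X * a i - PowerSeries.X ^ 2 * b i = 0 := congrFun (h (pi0 κ)) i
    have h2 : PowerSeries.X ^ 2 * a i - (PowerSeries.X ^ 2) ^ 2 * b i = 0 :=
      congrFun (h (pi0 κ ^ 2)) i
    have h3 : (1 - PowerSeries.X : PowerSeries (κ i)) ≠ 0 := fun e => by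
      simpa using congrArg PowerSeries.constantCoeff e
    have h4 : PowerSeries.X ^ 3 * ((1 - PowerSeries.X) * b i) = 0 := by
      linear_combination h2 - PowerSeries.X * h1
    have h5 : b i = 0 := (mul_eq_zero.1 ((mul_eq_zero.1 h4).resolve_left
      (pow_ne_zero _ PowerSeries.X_ne_zero))).resolve_left h3
    rw [h5, mul_zero, sub_zero] at h1
    exact ⟨(mul_eq_zero.1 h1).resolve_left PowerSeries.X_ne_zero, h5⟩
  exact ⟨funext fun i => (key i).1, funext fun i => (key i).2⟩

/-- Transport `sat` along a basis of `Module.End R (Matrix n n R)`. If `η` kills `DM Γ` then `h` and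
`adL_rt` give `t * η (brE i j) = t ^ 2 * η (qE i j)` for `t = ϖ, ϖ ^ 2`; `ϖ` and `1 - ϖ` are not zero
divisors. Take the maximum of the exponents. -/
theorem exists_Bp {ι : Type} [Finite ι] (κ : ι → Type) [∀ i, Field (κ i)]
    (Γ : Subgroup (GL n (RR κ)))
    (h : ∀ η : Module.End (RR κ) (Matrix n n (RR κ)) →ₗ[RR κ] RR κ,
      (∀ g ∈ Γ, η (adL g - 1) = 0) → ∀ g : GL n (RR κ), g.val.det = 1 → η (adL g - 1) = 0) :
    ∃ c : ℕ, Bp Γ (pi0 κ ^ c) := by
  have key : ∀ p : n × n, ∃ c : ℕ, p.1 ≠ p.2 → ∀ d, c ≤ d →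
      pi0 κ ^ d • brE p.1 p.2 ∈ DM Γ ∧ pi0 κ ^ d • qE p.1 p.2 ∈ DM Γ := by
    rintro ⟨i, j⟩
    by_cases hij : i = j
    · exact ⟨0, fun h => absurd hij h⟩
    have h1 : ∀ η : Module.End (RR κ) (Matrix n n (RR κ)) →ₗ[RR κ] RR κ,
        (∀ m ∈ DM Γ, η m = 0) → η (brE i j) = 0 ∧ η (qE i j) = 0 := fun η hη =>
      Sat_two κ fun t => by
        have h2 := h η (fun g hg => hη _ (Submodule.subset_span ⟨g, hg, rfl⟩)) (rt hij t)
          (rt_det hij t)
        rwa [adL_rt, map_sub, map_smul, map_smul] at h2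
    obtain ⟨c, hc⟩ := Sat_gen κ (DM Γ) (brE i j) fun η hη => (h1 η hη).1
    obtain ⟨c', hc'⟩ := Sat_gen κ (DM Γ) (qE i j) fun η hη => (h1 η hη).2
    exact ⟨max c c', fun _ d hd => ⟨hc d (le_of_max_le_left hd), hc' d (le_of_max_le_right hd)⟩⟩
  choose c hc using key
  exact ⟨Finset.univ.sup c, fun i j hij => hc (i, j) hij _ (Finset.le_sup (Finset.mem_univ _))⟩

end Pool.Agent.Lib.MP_6adaea_nt.S
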