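import Pool.Agent.Lib.MP_6adaea_nt.S.Lay

/-!
A seed of the same level at all components.
-/

set_option linter.unusedSectionVars false

namespace Pool.Agent.Lib.MP_6adaea_nt.S
open Matrix G

variable {n : Type} [Fintype n] [DecidableEq n]

section aux

variable {ι : Type} {κ : ι → Type} [∀ i, Field (κ i)]

theorem Seed_dvd {N : ℕ} {x : RR κ} :
    pi0 κ ^ N ∣ x ↔ ∀ i, (PowerSeries.X : PowerSeries (κ i)) ^ N ∣ x i := by
  constructor
  · rintro ⟨y, rfl⟩ i
    exact ⟨y i, rfl⟩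
  · intro h
    choose y hy using h
    exact ⟨y, funext hy⟩

theorem Seed_unit (x : RR κ) : IsUnit (1 + pi0 κ * x) :=
  Pi.isUnit_iff.2 fun i => PowerSeries.isUnit_iff_constantCoeff.2 (by simp)

theorem Seed_fin [Finite ι] [∀ i, Finite (κ i)] (N : ℕ) :
    Finite (RR κ ⧸ Ideal.span {pi0 κ ^ N}) := by
  refine Finite.of_surjective (fun r : ∀ i, Fin N → κ i => Ideal.Quotient.mk _
    (fun i => PowerSeries.mk fun j => if h : j < N then r i ⟨j, h⟩ else 0 : RR κ)) fun q => ?_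
  obtain ⟨x, rfl⟩ := Ideal.Quotient.mk_surjective q
  refine ⟨fun i j => PowerSeries.coeff j (x i), Ideal.Quotient.eq.2
    (Ideal.mem_span_singleton.2 (Seed_dvd.2 fun i => PowerSeries.X_pow_dvd_iff.2 fun m hm => ?_))⟩
  simp [hm]

/-- the element with the components `X ^ m i` -/
noncomputable def Seed_xp (κ : ι → Type) [∀ i, Field (κ i)] (m : ι → ℕ) : RR κ :=
  fun i => PowerSeries.X ^ m i

theorem Seed_up [Nontrivial n] {Γ : Subgroup (GL n (RR κ))} {c : ℕ}
    (hW : Wd Γ (pi0 κ ^ c) (pi0 κ ^ (c + 2))) {m e : ι → ℕ} (hm : ∀ i, c + 2 ≤ m i)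
    (he : ∀ i, e i ≤ 1) (hs : Seed Γ (Seed_xp κ m)) :
    Seed Γ (Seed_xp κ fun i => m i + c + e i) := by
  obtain ⟨a, b, hab⟩ := exists_pair_ne n
  obtain ⟨g, hg, -, Z, W, h⟩ := seed_step hW hs (Y := single a b 1)
    (trace_single_eq_of_ne a b 1 hab) (Seed_xp κ e)
  have e1 : Seed_xp κ m * pi0 κ ^ c * Seed_xp κ e = Seed_xp κ fun i => m i + c + e i := by
    funext i
    simp [Seed_xp, pow_add]
  have e2 : Seed_xp κ m * pi0 κ ^ (c + 2) =
      (Seed_xp κ fun i => m i + c + e i) * (pi0 κ * Seed_xp κ fun i => 1 - e i) := by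
    funext i
    simp only [Seed_xp, Pi.mul_apply, Pi.pow_apply, pi0_apply]
    rw [← pow_add, ← pow_succ', ← pow_add]
    congr 1
    have := he i
    omega
  have e3 : Seed_xp κ m ^ 2 =
      (Seed_xp κ fun i => m i + c + e i) * (pi0 κ * Seed_xp κ fun i => m i - c - e i - 1) := by
    funext i
    simp only [Seed_xp, Pi.mul_apply, Pi.pow_apply, pi0_apply]
    rw [← pow_mul, ← pow_succ', ← pow_add]
    congr 1
    have := he i
    have := hm i
    omega
  refine ⟨g, hg, 1, single a b 1 + pi0 κ • ((Seed_xp κ fun i => 1 - e i) • Z +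
    (Seed_xp κ fun i => m i - c - e i - 1) • W), ?_, ?_⟩
  · rw [h, e1, e2, e3, Units.val_one, one_smul]
    simp only [smul_add, smul_smul, add_assoc]
  · refine Ideal.eq_top_of_isUnit_mem _ (offdiag_mem_lev _ hab) ?_
    rw [Matrix.add_apply, single_apply_same, Matrix.smul_apply, smul_eq_mul]
    exact Seed_unit _

theorem Seed_level [Nontrivial n] {Γ : Subgroup (GL n (RR κ))} {c N : ℕ}
    (hW : Wd Γ (pi0 κ ^ c) (pi0 κ ^ (c + 2))) (hN : c + 2 ≤ N) (d : ℕ) :
    ∀ (m : ι → ℕ) (M : ℕ), N ≤ M → (∀ i, N ≤ m i ∧ m i ≤ M ∧ M ≤ m i + d) →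
      Seed Γ (Seed_xp κ m) → ∃ β, N ≤ β ∧ Seed Γ (pi0 κ ^ β) := by
  induction d with
  | zero =>
    intro m M hM hm hs
    refine ⟨M, hM, ?_⟩
    convert hs using 1
    funext i
    obtain ⟨-, h1, h2⟩ := hm i
    simp [Seed_xp, show m i = M by omega]
  | succ d ih =>
    intro m M hM hm hs
    refine ih _ (M + c) (by omega) (fun i => ?_) (Seed_up hW (e := fun i => if m i < M then 1 else 0)
      (fun i => hN.trans (hm i).1) (fun i => by split_ifs <;> omega) hs)
    obtain ⟨h0, h1, h2⟩ := hm i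
    split_ifs <;> omega

theorem Seed_ord {k : Type} [Field k] {T : Matrix n n (PowerSeries k)} (hT : T ≠ 0) {N : ℕ}
    (hN : ∀ p q, PowerSeries.X ^ N ∣ T p q) : ∃ m, N ≤ m ∧ ∃ Y : Matrix n n (PowerSeries k),
      (∀ p q, T p q = PowerSeries.X ^ m * Y p q) ∧ ∃ p q, IsUnit (Y p q) := by
  classical
  have h : ∃ m, ∃ p q, PowerSeries.coeff m (T p q) ≠ 0 := by
    by_contra h
    push Not at h
    exact hT (Matrix.ext fun p q => PowerSeries.ext fun m => by simpa using h m p q)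
  obtain ⟨p, q, hpq⟩ := Nat.find_spec h
  have h1 : ∀ p q, PowerSeries.X ^ Nat.find h ∣ T p q := fun p q =>
    PowerSeries.X_pow_dvd_iff.2 fun m hm => by
      have := Nat.find_min h hm
      push Not at this
      exact this p q
  choose Y hY using h1
  refine ⟨Nat.find h, ?_, Matrix.of Y, hY, p, q, PowerSeries.isUnit_iff_constantCoeff.2 ?_⟩
  · by_contra hlt
    exact hpq (PowerSeries.X_pow_dvd_iff.1 (hN p q) _ (not_le.1 hlt))
  · rw [hY, PowerSeries.coeff_X_pow_mul', if_pos le_rfl, Nat.sub_self,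
      PowerSeries.coeff_zero_eq_constantCoeff_apply] at hpq
    exact isUnit_iff_ne_zero.2 hpq

theorem Seed_start [Nontrivial n] [Finite ι] {Γ : Subgroup (GL n (RR κ))} {N : ℕ} (hN : 1 ≤ N)
    {g : GL n (RR κ)} (hg : g ∈ Γ) (h1 : Cong (pi0 κ ^ N) g.val 1)
    (h2 : ∀ i, ¬Scal (g.val.map (Pi.evalRingHom _ i))) :
    ∃ m : ι → ℕ, (∀ i, N ≤ m i) ∧ Seed Γ (Seed_xp κ m) := by
  classical
  have := Fintype.ofFinite ι
  obtain ⟨i0⟩ : Nonempty n := inferInstance
  have hz : IsUnit (g.val i0 i0) := by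
    obtain ⟨y, hy⟩ := (dvd_pow_self (pi0 κ) (by omega : N ≠ 0)).trans (h1 i0 i0)
    rw [Matrix.one_apply_eq, sub_eq_iff_eq_add'] at hy
    rw [hy]
    exact Seed_unit y
  obtain ⟨z, hz⟩ := hz
  obtain ⟨T, hT⟩ : ∃ T : Matrix n n (RR κ), T = ((z⁻¹ : (RR κ)ˣ) : RR κ) • g.val - 1 := ⟨_, rfl⟩
  have hgT : g.val = (z : RR κ) • (1 + T) := by
    rw [hT, add_sub_cancel, smul_smul, Units.mul_inv, one_smul]
  have hT0 : T i0 i0 = 0 := by
    rw [hT, Matrix.sub_apply, Matrix.smul_apply, ← hz, smul_eq_mul, Units.inv_mul, Matrix.one_apply_eq,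
      sub_self]
  have hTd : ∀ p q, pi0 κ ^ N ∣ T p q := fun p q => by
    have e : T p q = ((z⁻¹ : (RR κ)ˣ) : RR κ) * ((g.val p q - (1 : Matrix n n (RR κ)) p q) -
        (1 : Matrix n n (RR κ)) p q * (g.val i0 i0 - (1 : Matrix n n (RR κ)) i0 i0)) := by
      rw [hT, Matrix.sub_apply, Matrix.smul_apply, smul_eq_mul, ← hz, Matrix.one_apply_eq]
      linear_combination (1 : Matrix n n (RR κ)) p q * Units.inv_mul z
    rw [e]
    exact ((h1 p q).sub ((h1 i0 i0).mul_left _)).mul_left _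
  have h3 : ∀ i, ∃ m, N ≤ m ∧ ∃ Y : Matrix n n (PowerSeries (κ i)),
      (∀ p q, T p q i = PowerSeries.X ^ m * Y p q) ∧ ∃ p q, IsUnit (Y p q) := fun i => by
    refine Seed_ord (T := T.map (Pi.evalRingHom _ i)) (fun h => h2 i ⟨(z : RR κ) i, ?_⟩)
      fun p q => Seed_dvd.1 (hTd p q) i
    ext1 p q
    have h4 : T p q i = 0 := congrFun (congrFun h p) q
    rw [hgT]
    by_cases hpq : p = q
    · subst hpq
      simp [h4]
    · simp [hpq, h4]
  choose m hm Y hY p q hu using h3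
  refine ⟨m, hm, g, hg, z, Matrix.of fun a b i => Y i a b, ?_, ?_⟩
  · rw [hgT]
    congr 2
    ext1 a b
    funext i
    exact hY i a b
  · have h5 : ∀ i, ∃ x ∈ lev (Matrix.of fun a b i => Y i a b : Matrix n n (RR κ)), IsUnit (x i) := by
      intro i
      by_cases hpq : p i = q i
      · refine ⟨_, diag_mem_lev _ (p i) i0, ?_⟩
        have h6 : Y i i0 i0 = 0 := by
          have h7 := hY i i0 i0
          rw [hT0] at h7
          exact (mul_eq_zero.1 h7.symm).resolve_left (pow_ne_zero _ PowerSeries.X_ne_zero)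
        have h8 := hu i
        rw [← hpq] at h8
        simpa [h6] using h8
      · exact ⟨_, offdiag_mem_lev _ hpq, hu i⟩
    choose x hx hxu using h5
    rw [Ideal.eq_top_iff_one, ← Finset.univ_sum_single (1 : RR κ)]
    refine Ideal.sum_mem _ fun i _ => ?_
    obtain ⟨y, hy⟩ := (hxu i).exists_left_inv
    convert Ideal.mul_mem_left _ (Pi.single i y) (hx i) using 1
    funext j
    by_cases hj : j = i
    · subst hj
      simp [hy]
    · simp [hj]

/-- the elements whose component at `i` commutes with a root vector -/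
def Seed_stab (Γ : Subgroup (GL n (RR κ))) (a b : n) (i : ι) : Subgroup Γ where
  carrier := {g | ad (red (Pi.evalRingHom _ i) g.1) (single a b 1) = single a b 1}
  one_mem' := by simp
  mul_mem' := fun {g h} hg hh => by
    simp only [Set.mem_ofPred_eq, Subgroup.coe_mul, map_mul] at hg hh ⊢
    rw [ad_mul, hh, hg]
  inv_mem' := fun {g} hg => by
    simp only [Set.mem_ofPred_eq, Subgroup.coe_inv, map_inv] at hg ⊢
    conv_lhs => rw [← hg, ← ad_mul, inv_mul_cancel, ad_one]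

theorem Seed_inf (p : ℕ) [Fact p.Prime] [∀ i, CharP (κ i) p] {Γ : Subgroup (GL n (RR κ))}
    {c : ℕ} (hW : ∀ N, Wd Γ (pi0 κ ^ c) (pi0 κ ^ N)) {a b : n} (hab : a ≠ b) (i : ι) :
    ¬(Seed_stab Γ a b i).FiniteIndex := by
  intro hf
  obtain ⟨F, hF⟩ : ∃ F : Set (PowerSeries (κ i)), F = Set.range fun q : Γ ⧸ Seed_stab Γ a b i =>
    ad (red (Pi.evalRingHom _ i) q.out.1) (single a b 1) a b - 1 := ⟨_, rfl⟩
  have hFf : Finite F := hF ▸ (Set.finite_range _).to_subtype
  have hfin : Finite (AddSubgroup.closure F) := by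
    refine AddCommGroup.finite_of_fg_isAddTorsion _ fun x => ?_
    refine isOfFinAddOrder_iff_nsmul_eq_zero.2 ⟨p, (Fact.out : p.Prime).pos, Subtype.ext ?_⟩
    ext j
    simp only [AddSubgroup.coe_nsmul, map_nsmul, ZeroMemClass.coe_zero, map_zero]
    rw [nsmul_eq_mul, CharP.cast_eq_zero, zero_mul]
  have hD : ∀ Z ∈ DS Γ (single a b 1), Z a b i ∈ AddSubgroup.closure F := by
    intro Z hZ
    induction hZ using AddSubgroup.closure_induction with
    | mem Z hZ =>
      obtain ⟨g, hg, rfl⟩ := hZ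
      refine AddSubgroup.subset_closure ?_
      obtain ⟨s, hs⟩ := QuotientGroup.mk_out_eq_mul (Seed_stab Γ a b i) ⟨g, hg⟩
      rw [hF]
      refine ⟨QuotientGroup.mk ⟨g, hg⟩, ?_⟩
      have h1 : ad (red (Pi.evalRingHom _ i) s.1.1) (single a b 1) = single a b 1 := s.2
      have h2 := congrFun (congrFun (ad_map (Pi.evalRingHom _ i) g (single a b 1)) a) b
      rw [Matrix.map_single, map_one] at h2
      simp only [hs, Subgroup.coe_mul, map_mul]
      rw [ad_mul, h1, ← h2]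
      simp
    | zero => exact zero_mem _
    | add Y Z _ _ h1 h2 => exact add_mem h1 h2
    | neg Y _ h1 => exact neg_mem h1
  have hl : lev (single a b 1 : Matrix n n (RR κ)) = ⊤ :=
    Ideal.eq_top_of_isUnit_mem _ (offdiag_mem_lev _ hab) (by simp)
  have h3 : ∀ j : ℕ, ∃ x : AddSubgroup.closure F, PowerSeries.X ^ (c + j + 1) ∣
      (x : PowerSeries (κ i)) - PowerSeries.X ^ (c + j) := fun j => by
    obtain ⟨Z, hZ, hc⟩ := hW (c + j + 1) (single a b 1) (single a b 1)
      (trace_single_eq_of_ne a b 1 hab) (pi0 κ ^ j) (hl ▸ Submodule.mem_top)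
    refine ⟨⟨Z a b i, hD Z hZ⟩, ?_⟩
    have h4 := Seed_dvd.1 (hc a b) i
    simpa [pow_add] using h4
  choose x hx using h3
  have h5 : ∀ j j', j < j' → x j ≠ x j' := fun j j' hj h => by
    have h6 := PowerSeries.X_pow_dvd_iff.1 (hx j) (c + j) (by omega)
    have h7 := PowerSeries.X_pow_dvd_iff.1 (hx j') (c + j) (by omega)
    rw [map_sub, PowerSeries.coeff_X_pow] at h6 h7
    rw [if_pos rfl, h] at h6
    rw [if_neg (by omega), sub_zero] at h7
    rw [h7] at h6
    simp at h6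
  exact not_injective_infinite_finite x fun j j' h => by
    rcases lt_trichotomy j j' with h1 | h1 | h1
    · exact absurd h (h5 j j' h1)
    · exact h1
    · exact absurd h.symm (h5 j' j h1)

open Pointwise in
theorem Seed_neu [Nontrivial n] (p : ℕ) [Fact p.Prime] [Finite ι] [∀ i, Finite (κ i)]
    [∀ i, CharP (κ i) p] {Γ : Subgroup (GL n (RR κ))} {c : ℕ}
    (hW : ∀ N, Wd Γ (pi0 κ ^ c) (pi0 κ ^ N)) (N : ℕ) : ∃ g ∈ Γ, Cong (pi0 κ ^ N) g.val 1 ∧
      ∀ i, ¬Scal (g.val.map (Pi.evalRingHom _ i)) := by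
  classical
  obtain ⟨a, b, hab⟩ := exists_pair_ne n
  have := Seed_fin (κ := κ) N
  have := Fintype.ofFinite ι
  let f := (red (n := n) (Ideal.Quotient.mk (Ideal.span {pi0 κ ^ N}))).comp Γ.subtype
  have := Fintype.ofFinite (Γ ⧸ f.ker)
  by_contra h
  push Not at h
  have h1 : ∀ g ∈ f.ker, ∃ i, g ∈ Seed_stab Γ a b i := fun g hg => by
    obtain ⟨i, z, hz⟩ := h g.1 g.2 fun u v => by
      have h2 : red (Ideal.Quotient.mk (Ideal.span {pi0 κ ^ N})) g.1 = 1 := hg
      have h3 := congrArg (fun y : GL n _ => y.val u v) h2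
      refine Ideal.mem_span_singleton.1 (Ideal.Quotient.eq.1 ?_)
      simpa [Matrix.one_apply, apply_ite (Ideal.Quotient.mk (Ideal.span {pi0 κ ^ N}))] using h3
    refine ⟨i, ?_⟩
    show ad (red (Pi.evalRingHom _ i) g.1) (single a b 1) = single a b 1
    have h4 : (red (Pi.evalRingHom _ i) g.1).val * single a b 1 =
        single a b 1 * (red (Pi.evalRingHom _ i) g.1).val := by
      rw [red_val, hz]
      simp
    rw [ad, h4, Matrix.mul_assoc, ← Units.val_mul, mul_inv_cancel, Units.val_one, Matrix.mul_one]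
  obtain ⟨k, -, hk⟩ := Subgroup.exists_finiteIndex_of_leftCoset_cover
    (H := fun k : (Γ ⧸ f.ker) × ι => Seed_stab Γ a b k.2) (g := fun k => k.1.out)
    (s := Finset.univ) (Set.eq_univ_of_forall fun g => by
      obtain ⟨s, hs⟩ := QuotientGroup.mk_out_eq_mul f.ker g
      obtain ⟨i, hi⟩ := h1 _ (inv_mem s.2)
      refine Set.mem_biUnion (x := (QuotientGroup.mk g, i)) (Finset.mem_univ _) ?_
      rw [mem_leftCoset_iff, hs]
      simpa using hi)
  exact Seed_inf p hW hab k.2 hk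

end aux

/-- Write `ϖ = pi0 κ`, `R = RR κ`.
(1) `R ⧸ (ϖ ^ N)` is finite, so `Γ1 = {g ∈ Γ | g ≡ 1 mod ϖ ^ N}` has finite index in `Γ`
(kernel of a map to a finite group), `N = β0 + c + 2`.
(2) For each `i` the subgroup `S i` of `g ∈ Γ` whose `i`-th component is scalar has infinite index
in `Γ`: otherwise the `i`-th components of `ad g X - X`, `X = single a b 1`, form a finite set, whose
additive closure is finite (characteristic `p`: `AddSubgroup.closure` of a finite set in a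
`ZMod p`-module), while `hW` puts an element congruent to `X ^ (c + j) • single a b 1` modulo
`X ^ (c + j + 1)` in it for every `j`, and these have different orders at the entry `(a, b)`.
(3) Neumann's lemma (`Subgroup.exists_finiteIndex_of_leftCoset_cover`, cosets of `1`) gives
`g ∈ Γ1` in no `S i` (treat empty `ι` apart: `R` is then trivial).
(4) `z = g i0 i0` is a unit (`≡ 1` mod `ϖ`), `z⁻¹ g - 1` has entry zero at `(i0, i0)`; at each
component let `m i` be the least order of an entry; `a i = X ^ m i`, `N ≤ m i`. So `Seed Γ a`.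
(5) If `Seed Γ a` with `a i = X ^ m i`, `c + 2 ≤ m i`, and `y i ∈ {1, X}` then
`Seed Γ (a * ϖ ^ c * y)` by `seed_step` with `v = ϖ ^ (c + 2)`, `Y = single i j 1` (`1 + ϖ * x` is a unit).
Take `y i = X` where `m i` is not maximal; induct on `max m - min m` (or on the sum of
`M - m i`). -/
theorem seed_exists [Nontrivial n] (p : ℕ) [Fact p.Prime] {ι : Type} [Finite ι] (κ : ι → Type)
    [∀ i, Field (κ i)] [∀ i, Finite (κ i)] [∀ i, CharP (κ i) p] (Γ : Subgroup (GL n (RR κ)))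
    (c : ℕ) (hW : ∀ N, Wd Γ (pi0 κ ^ c) (pi0 κ ^ N)) (β0 : ℕ) :
    ∃ β, β0 ≤ β ∧ Seed Γ (pi0 κ ^ β) := by
  obtain ⟨g, hg, h1, h2⟩ := Seed_neu p hW (β0 + c + 2)
  obtain ⟨m, hm, hs⟩ := Seed_start (by omega) hg h1 h2
  obtain ⟨M, hM⟩ := (Set.finite_range m).bddAbove
  obtain ⟨β, hβ, h⟩ := Seed_level (N := β0 + c + 2) (hW (c + 2)) (by omega) (M + (β0 + c + 2)) m
    (M + (β0 + c + 2)) (by omega) (fun i => by
      have := hM (Set.mem_range_self i)
      exact ⟨hm i, by omega, by omega⟩) hs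
  exact ⟨β, by omega, h⟩

end Pool.Agent.Lib.MP_6adaea_nt.S
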