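import Pool.Agent.Lib.MP_6adaea_nt.S.Exp

/-!
Embedding a separable integral extension in a power series ring.
-/

set_option linter.unusedSectionVars false

namespace Pool.Agent.Lib.MP_6adaea_nt.S
open PowerSeries

lemma Ser_core {F D : Type} [Field F] [IsAlgClosed F] [CommRing D] [IsDedekindDomain D]
    [Algebra F⟦X⟧ D] [Algebra.IsIntegral F⟦X⟧ D]
    (hinj : Function.Injective (algebraMap F⟦X⟧ D)) :
    ∃ e : D →+* F⟦X⟧, Function.Injective e ∧ constantCoeff (e (algebraMap F⟦X⟧ D X)) = 0 := by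
  obtain ⟨m, hm, hcomap⟩ := Ideal.exists_ideal_over_maximal_of_isIntegral (S := D)
    (IsLocalRing.maximalIdeal F⟦X⟧) (by rw [(RingHom.injective_iff_ker_eq_bot _).1 hinj]; exact bot_le)
  have hX : algebraMap F⟦X⟧ D X ∈ m := by
    rw [← Ideal.mem_comap, hcomap, IsLocalRing.mem_maximalIdeal, mem_nonunits_iff]
    exact X_prime.not_isUnit
  have hm0 : m ≠ ⊥ := by
    rintro rfl
    rw [Ideal.mem_bot, map_eq_zero_iff _ hinj] at hX
    exact X_ne_zero hX
  let _ : Algebra F D := ((algebraMap F⟦X⟧ D).comp (algebraMap F F⟦X⟧)).toAlgebra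
  let _ : Field (D ⧸ m) := Ideal.Quotient.field m
  have hfac : (Ideal.Quotient.mk m).comp (algebraMap F⟦X⟧ D) =
      (algebraMap F (D ⧸ m)).comp constantCoeff := by
    refine RingHom.ext fun g => ?_
    obtain ⟨h, hh⟩ : (X : F⟦X⟧) ∣ g - C (constantCoeff g) := by
      rw [X_dvd_iff]
      simp
    change Ideal.Quotient.mk m (algebraMap F⟦X⟧ D g) =
      Ideal.Quotient.mk m (algebraMap F⟦X⟧ D (C (constantCoeff g)))
    rw [Ideal.Quotient.eq, ← map_sub, hh, map_mul]
    exact m.mul_mem_right _ hX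
  have : Algebra.IsIntegral F (D ⧸ m) := ⟨fun y => by
    obtain ⟨x, rfl⟩ := Ideal.Quotient.mk_surjective y
    obtain ⟨f, hf, hx⟩ := Algebra.IsIntegral.isIntegral (R := F⟦X⟧) x
    refine ⟨f.map constantCoeff, hf.map _, ?_⟩
    rw [Polynomial.eval₂_map, ← hfac, ← Polynomial.hom_eval₂, hx, map_zero]⟩
  have hsurj := (IsAlgClosed.algebraMap_bijective_of_isIntegral (k := F) (K := D ⧸ m)).2
  have := IsLocalization.AtPrime.isDiscreteValuationRing_of_dedekind_domain D hm0
    (Localization.AtPrime m)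
  obtain ⟨π, hπ⟩ := IsDiscreteValuationRing.exists_irreducible (Localization.AtPrime m)
  have hmax : ∀ x, x ∈ IsLocalRing.maximalIdeal (Localization.AtPrime m) → π ∣ x := fun x hx => by
    rwa [hπ.maximalIdeal_eq, Ideal.mem_span_singleton] at hx
  have hu : ∀ y : m.primeCompl, IsUnit (Ideal.Quotient.mk m y) := fun y =>
    IsUnit.mk0 _ fun h => y.2 (Ideal.Quotient.eq_zero_iff_mem.1 h)
  obtain ⟨e, he, heπ⟩ := exists_expansion (F := F) π hπ.ne_zero hπ.not_isUnit (fun x => by
    obtain ⟨c, hc⟩ := hsurj (IsLocalization.lift (S := Localization.AtPrime m) hu x)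
    refine ⟨c, hmax _ (IsLocalRing.le_maximalIdeal
      (RingHom.ker_ne_top (IsLocalization.lift (S := Localization.AtPrime m) hu)) ?_)⟩
    rw [RingHom.mem_ker, map_sub, IsScalarTower.algebraMap_apply F D (Localization.AtPrime m),
      IsLocalization.lift_eq, ← hc]
    exact sub_self _) (fun x hx => by
    by_contra h0
    obtain ⟨n, u, rfl⟩ := IsDiscreteValuationRing.eq_unit_mul_pow_irreducible h0 hπ
    have h1 := hx (n + 1)
    rw [pow_succ', mul_dvd_mul_iff_right (pow_ne_zero n hπ.ne_zero)] at h1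
    exact hπ.not_isUnit (isUnit_of_dvd_unit h1 u.isUnit))
  refine ⟨e.toRingHom.comp (algebraMap D (Localization.AtPrime m)),
    he.comp (IsLocalization.injective (Localization.AtPrime m) m.primeCompl_le_nonZeroDivisors), ?_⟩
  obtain ⟨w, hw⟩ := hmax _ ((IsLocalization.AtPrime.to_map_mem_maximal_iff
    (Localization.AtPrime m) m _).2 hX)
  rw [← X_dvd_iff]
  refine ⟨e w, ?_⟩
  exact (congrArg e hw).trans (by rw [map_mul, heπ])

lemma Ser_sep {K Ω : Type} [Field K] [Field Ω] [Algebra K Ω] {x : Ω} {g : Polynomial K}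
    (hg : g.Monic) (h0 : Polynomial.aeval x g = 0) (h1 : Polynomial.aeval x g.derivative ≠ 0) :
    IsSeparable K x := by
  have hi : IsIntegral K x := ⟨g, hg, h0⟩
  rw [IsSeparable, Polynomial.separable_iff_derivative_ne_zero (minpoly.irreducible hi)]
  intro hd
  obtain ⟨h, rfl⟩ := minpoly.dvd K x h0
  apply h1
  rw [Polynomial.derivative_mul, hd, zero_mul, zero_add, map_mul, minpoly.aeval, zero_mul]

/-- Let `K1` be the fraction field of `Λ = F⟦X⟧` (make `Ω` a `K1`-algebra by `IsFractionRing.lift`),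
`L = K1(S)`, finite and separable over `K1` (the minimal polynomial divides `f`, so it does not
divide its own derivative unless that of `f` vanishes at `x`), `C` the integral closure of `Λ` in `L`: a Dedekind domain
(`IsIntegralClosure.isDedekindDomain`). Take a maximal ideal `m` of `C` over `(X)`
(`Ideal.exists_ideal_over_maximal_of_isIntegral`); it is nonzero, `O = Localization.AtPrime m` is a
discrete valuation ring (`IsLocalization.AtPrime.isDiscreteValuationRing_of_dedekind_domain`),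
`C ⧸ m` is integral over `Λ ⧸ (X) = F`, so equal to `F`. Apply `exists_expansion` to a uniformiser
and restrict to `adjoin Λ S ≤ C`. -/
theorem to_series {F Ω : Type} [Field F] [IsAlgClosed F] [Field Ω] [Algebra F⟦X⟧ Ω]
    (hinj : Function.Injective (algebraMap F⟦X⟧ Ω)) (S : Set Ω) (hS : S.Finite)
    (hsep : ∀ x ∈ S, ∃ f : Polynomial F⟦X⟧, f.Monic ∧ Polynomial.aeval x f = 0 ∧
      Polynomial.aeval x f.derivative ≠ 0) :
    ∃ e : Algebra.adjoin F⟦X⟧ S →+* F⟦X⟧, Function.Injective e ∧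
      constantCoeff (e (algebraMap F⟦X⟧ _ X)) = 0 := by
  let _ : Algebra (FractionRing F⟦X⟧) Ω := (IsFractionRing.lift hinj).toAlgebra
  have : IsScalarTower F⟦X⟧ (FractionRing F⟦X⟧) Ω :=
    IsScalarTower.of_algebraMap_eq fun x => (IsFractionRing.lift_algebraMap hinj x).symm
  have hint : ∀ x ∈ S, IsIntegral F⟦X⟧ x := fun x hx => by
    obtain ⟨f, h1, h2, -⟩ := hsep x hx
    exact ⟨f, h1, h2⟩
  have hs : ∀ x ∈ S, IsSeparable (FractionRing F⟦X⟧) x := fun x hx => by
    obtain ⟨f, h1, h2, h3⟩ := hsep x hx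
    refine Ser_sep (h1.map (algebraMap F⟦X⟧ (FractionRing F⟦X⟧))) ?_ ?_
    · rwa [Polynomial.aeval_map_algebraMap]
    · rwa [Polynomial.derivative_map, Polynomial.aeval_map_algebraMap]
  obtain ⟨L, hL⟩ : ∃ L, L = IntermediateField.adjoin (FractionRing F⟦X⟧) S := ⟨_, rfl⟩
  have := hS.to_subtype
  have : FiniteDimensional (FractionRing F⟦X⟧) L :=
    hL ▸ IntermediateField.finiteDimensional_adjoin fun x hx => (hs x hx).isIntegral
  have : Algebra.IsSeparable (FractionRing F⟦X⟧) L :=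
    hL ▸ (IntermediateField.isSeparable_adjoin_iff_isSeparable _ _).2 hs
  have : IsDedekindDomain (integralClosure F⟦X⟧ L) :=
    integralClosure.isDedekindDomain F⟦X⟧ (FractionRing F⟦X⟧) L
  have hi : Function.Injective (algebraMap F⟦X⟧ (integralClosure F⟦X⟧ L)) := fun a b h =>
    hinj (congrArg (fun y : integralClosure F⟦X⟧ L => ((y : L) : Ω)) h)
  obtain ⟨e, he, h0⟩ := Ser_core hi
  have hle : Algebra.adjoin F⟦X⟧ S ≤ L.toSubalgebra.restrictScalars F⟦X⟧ :=
    Algebra.adjoin_le (hL ▸ IntermediateField.subset_adjoin _ S)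
  have hle2 : Algebra.adjoin F⟦X⟧ S ≤ integralClosure F⟦X⟧ Ω := Algebra.adjoin_le hint
  let j0 : Algebra.adjoin F⟦X⟧ S →ₐ[F⟦X⟧] L := Subalgebra.inclusion hle
  have hj : ∀ y, j0 y ∈ integralClosure F⟦X⟧ L := fun y =>
    (isIntegral_algHom_iff (L.val.restrictScalars F⟦X⟧) Subtype.val_injective).1 (hle2 y.2)
  let j := j0.codRestrict _ hj
  refine ⟨e.comp j.toRingHom, he.comp fun a b h => ?_, ?_⟩
  · exact Subtype.ext (congrArg (fun y : integralClosure F⟦X⟧ L => ((y : L) : Ω)) h)
  · rw [← j.commutes] at h0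
    exact h0

end Pool.Agent.Lib.MP_6adaea_nt.S
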