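import Pool.Agent.Lib.MP_6adaea_nt.S.Sub

/-!
Chain rule and separability.
-/

set_option linter.unusedSectionVars false

namespace Pool.Agent.Lib.MP_6adaea_nt.S
open PowerSeries

/-- True for polynomials (`φ (C c)` is a natural number cast); write
`a = trunc N a + X ^ N * a'` and compare modulo `X ^ (N - 1)`. -/
theorem subst_deriv (p : ℕ) [Fact p.Prime] {κ : Type} [Field κ] (φ : (ZMod p)⟦X⟧ →+* κ⟦X⟧)
    (hs : constantCoeff (φ X) = 0) (a : (ZMod p)⟦X⟧) :
    d⁄dX κ (φ a) = d⁄dX κ (φ X) * φ (d⁄dX (ZMod p) a) := by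
  obtain ⟨δ, hδ⟩ : ∃ δ : (ZMod p)⟦X⟧ → κ⟦X⟧,
    ∀ a, δ a = d⁄dX κ (φ a) - d⁄dX κ (φ X) * φ (d⁄dX (ZMod p) a) := ⟨_, fun _ => rfl⟩
  have hadd : ∀ a b, δ (a + b) = δ a + δ b := fun a b => by
    simp only [hδ, map_add]
    ring
  have hmul : ∀ a b, δ (a * b) = φ a * δ b + φ b * δ a := fun a b => by
    simp only [hδ, map_mul, map_add, Derivation.leibniz, smul_eq_mul]
    ring
  have hX : δ X = 0 := by simp [hδ]
  have hC : ∀ c, δ (C c) = 0 := fun c => by
    obtain ⟨n, rfl⟩ := ZMod.natCast_zmod_surjective c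
    simp [hδ]
  have hpow : ∀ n, δ (X ^ n) = 0 := fun n => by
    induction n with
    | zero => simpa using hC 1
    | succ n ih => rw [pow_succ, hmul, hX, ih, mul_zero, mul_zero, add_zero]
  have hpol : ∀ g : Polynomial (ZMod p), δ g = 0 := fun g => by
    induction g using Polynomial.induction_on' with
    | add f g hf hg => rw [Polynomial.coe_add, hadd, hf, hg, add_zero]
    | monomial n c =>
      rw [← Polynomial.C_mul_X_pow_eq_monomial, Polynomial.coe_mul, Polynomial.coe_C,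
        Polynomial.coe_pow, Polynomial.coe_X, hmul, hpow, hC, mul_zero, mul_zero, add_zero]
  rw [← sub_eq_zero, ← hδ]
  ext n
  have h1 : X ^ (n + 1) ∣ δ a := by
    rw [eq_X_pow_mul_shift_add_trunc (n + 1) a, hadd, hpol, add_zero, hmul, hpow, mul_zero,
      add_zero, map_pow]
    exact (pow_dvd_pow_of_dvd (X_dvd_iff.2 hs) _).mul_right _
  rw [X_pow_dvd_iff.1 h1 n (Nat.lt_succ_self n), map_zero]

/-- The coefficients vanish outside multiples of `p`; `b = mk fun i => coeff (p * i) a` and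
`b ^ p = expand p b` over `ZMod p` (`PowerSeries.expand`, or compare truncations). -/
theorem pow_of_deriv (p : ℕ) [Fact p.Prime] (a : (ZMod p)⟦X⟧) (h : d⁄dX (ZMod p) a = 0) :
    ∃ b, a = b ^ p := by
  have hp : p ≠ 0 := (Fact.out : p.Prime).ne_zero
  refine ⟨mk fun i => coeff (p * i) a, ?_⟩
  have h1 : expand p hp (mk fun i => coeff (p * i) a) = a := by
    ext n
    rw [coeff_expand]
    split_ifs with hn
    · rw [coeff_mk, Nat.mul_div_cancel' hn]
    · obtain ⟨m, rfl⟩ := Nat.exists_eq_succ_of_ne_zero (n := n) fun e => hn (e ▸ dvd_zero p)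
      have h2 := congrArg (coeff m) h
      rw [coeff_derivative, map_zero] at h2
      refine ((mul_eq_zero.1 h2).resolve_right fun e => hn ?_).symm
      rw [← ZMod.natCast_eq_zero_iff]
      exact_mod_cast e
  have h2 := MvPowerSeries.map_frobenius_expand p hp (f := (mk fun i => coeff (p * i) a))
  rw [ZMod.frobenius_zmod, MvPowerSeries.map_id] at h2
  exact h1.symm.trans h2

theorem SubD_chain (p : ℕ) [Fact p.Prime] {κ : Type} [Field κ] (φ : (ZMod p)⟦X⟧ →+* κ⟦X⟧)
    (hs : constantCoeff (φ X) = 0) (x : κ⟦X⟧) (g : Polynomial (ZMod p)⟦X⟧) :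
    ∃ h : Polynomial (ZMod p)⟦X⟧, (∀ i, h.coeff i = d⁄dX (ZMod p) (g.coeff i)) ∧
      d⁄dX κ (g.eval₂ φ x) =
        d⁄dX κ (φ X) * h.eval₂ φ x + g.derivative.eval₂ φ x * d⁄dX κ x := by
  induction g using Polynomial.induction_on' with
  | add f g hf hg =>
    obtain ⟨h₁, a1, a2⟩ := hf
    obtain ⟨h₂, b1, b2⟩ := hg
    refine ⟨h₁ + h₂, fun i => by simp only [Polynomial.coeff_add, map_add, a1, b1], ?_⟩
    simp only [Polynomial.eval₂_add, map_add, a2, b2]
    ring
  | monomial n c =>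
    refine ⟨Polynomial.monomial n (d⁄dX (ZMod p) c), fun i => ?_, ?_⟩
    · simp only [Polynomial.coeff_monomial]
      split_ifs
      · rfl
      · exact (map_zero _).symm
    · rw [Polynomial.derivative_monomial, Polynomial.eval₂_monomial, Polynomial.eval₂_monomial,
        Polynomial.eval₂_monomial, Derivation.leibniz, derivative_pow, subst_deriv p φ hs c,
        map_mul, map_natCast, smul_eq_mul, smul_eq_mul]
      ring

/-- Let `f = minpoly Λ x`, `Λ = (ZMod p)⟦X⟧` acting through `φ` (integrally closed; `f` is monic and of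
least degree). Suppose `f' (x) = 0`; then `f' = 0` by degree. Differentiating `f (x) = 0` gives
`d s * ∑ φ (d a_i) x ^ i = 0`, a polynomial of smaller degree (the leading coefficient is `1`), so all
`d a_i = 0`, `a_i = b_i ^ p`; also `a_i = 0` unless `p ∣ i`. Then `f = g ^ p` with
`g = ∑ b_(p j) Z ^ j`, `g (x) = 0`, and `g ≠ 0` has smaller degree. -/
theorem subst_sep (p : ℕ) [Fact p.Prime] {κ : Type} [Field κ] [Finite κ] [CharP κ p]
    (φ : (ZMod p)⟦X⟧ →+* κ⟦X⟧) (hs : constantCoeff (φ X) = 0) (hd : d⁄dX κ (φ X) ≠ 0)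
    (x : κ⟦X⟧) : ∃ f : Polynomial (ZMod p)⟦X⟧, f.Monic ∧ f.eval₂ φ x = 0 ∧
      f.derivative.eval₂ φ x ≠ 0 := by
  have hp : p.Prime := Fact.out
  have h0 : φ X ≠ 0 := fun e => hd (by rw [e, map_zero])
  let _ := φ.toAlgebra
  have : Module.Finite (ZMod p)⟦X⟧ κ⟦X⟧ := subst_finite p φ h0 hs
  have : FaithfulSMul (ZMod p)⟦X⟧ κ⟦X⟧ :=
    (faithfulSMul_iff_algebraMap_injective _ _).2 (subst_injective p φ h0)
  have : CharP (ZMod p)⟦X⟧ p := charP_of_injective_ringHom (C_injective (R := ZMod p)) p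
  have hx : IsIntegral (ZMod p)⟦X⟧ x := IsIntegral.of_finite _ x
  have hm := minpoly.monic hx
  have he : (minpoly (ZMod p)⟦X⟧ x).eval₂ φ x = 0 := minpoly.aeval _ x
  have hmin : ∀ g : Polynomial (ZMod p)⟦X⟧, g.eval₂ φ x = 0 →
      g.degree < (minpoly (ZMod p)⟦X⟧ x).degree → g = 0 := fun g h1 h2 => by
    by_contra h3
    exact absurd (minpoly.IsIntegrallyClosed.degree_le_of_ne_zero h3 h1) (not_le.2 h2)
  have hpos := minpoly.natDegree_pos hx
  generalize minpoly (ZMod p)⟦X⟧ x = f at hm he hmin hpos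
  refine ⟨f, hm, he, fun h1 => ?_⟩
  have h2 : f.derivative = 0 := hmin _ h1 (Polynomial.degree_derivative_lt hm.ne_zero)
  obtain ⟨h, h3, h4⟩ := SubD_chain p φ hs x f
  rw [he, map_zero, h1, zero_mul, add_zero] at h4
  have h5 : h = 0 := by
    refine hmin h ((mul_eq_zero.1 h4.symm).resolve_left hd) ?_
    rw [Polynomial.degree_eq_natDegree hm.ne_zero, Polynomial.degree_lt_iff_coeff_zero]
    intro m hm'
    rw [h3]
    rcases hm'.eq_or_lt with rfl | hlt
    · rw [hm.coeff_natDegree, derivative_one]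
    · rw [Polynomial.coeff_eq_zero_of_natDegree_lt hlt, map_zero]
  have h6 : f.contract p ∈ Polynomial.lifts (frobenius (ZMod p)⟦X⟧ p) := by
    rw [Polynomial.lifts_iff_coeff_lifts]
    intro n
    obtain ⟨b, hb⟩ := pow_of_deriv p (f.coeff (n * p)) (by rw [← h3, h5, Polynomial.coeff_zero])
    exact ⟨b, by rw [Polynomial.coeff_contract hp.ne_zero, hb, frobenius_def]⟩
  obtain ⟨g, hg⟩ := (Polynomial.mem_lifts _).1 h6
  have h7 : f = g ^ p := by
    rw [← Polynomial.map_frobenius_expand, Polynomial.map_expand, hg,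
      Polynomial.expand_contract p h2 hp.ne_zero]
  have h8 : g ≠ 0 := fun e => hm.ne_zero (by rw [h7, e, zero_pow hp.ne_zero])
  refine h8 (hmin g ?_ (Polynomial.degree_lt_degree ?_))
  · rw [h7, Polynomial.eval₂_pow] at he
    exact eq_zero_of_pow_eq_zero he
  · rw [h7, Polynomial.natDegree_pow] at hpos ⊢
    exact lt_mul_of_one_lt_left (Nat.pos_of_mul_pos_left hpos) hp.one_lt

end Pool.Agent.Lib.MP_6adaea_nt.S
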