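import Pool.Agent.Lib.MP_6adaea_nt.S.Elt
import Pool.Agent.Lib.MP_6adaea_nt.S.Ser
import Pool.Agent.Lib.MP_6adaea_nt.S.SubD
import Pool.Agent.Lib.MP_6adaea_nt.S.Cnt

/-!
Trichotomy for subrings of a product of power series rings.
-/

set_option linter.unusedSectionVars false

namespace Pool.Agent.Lib.MP_6adaea_nt.S
open PowerSeries

theorem Tri_dvd {k : Type} [Field k] {a : k⟦X⟧} (h : a ≠ 0) : ∃ m : ℕ, a ∣ X ^ m := by
  refine ⟨a.order.toNat, ?_⟩
  obtain ⟨u, hu⟩ := isUnit_divided_by_X_pow_order h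
  have h1 := X_pow_order_mul_divXPowOrder (f := a)
  refine ⟨(u⁻¹ : k⟦X⟧ˣ), ?_⟩
  rw [← hu] at h1
  conv_rhs => rw [← h1]
  rw [Units.mul_inv_cancel_right]

theorem Tri_mem {Λ Ω B R : Type} [CommRing Λ] [CommRing B] [Algebra Λ B] [Field Ω] [Algebra Λ Ω]
    [CommRing R] [Algebra R Ω] (ψ : Λ →+* R) (hψ : ∀ l, algebraMap Λ Ω l = algebraMap R Ω (ψ l))
    (σ : B →ₐ[Λ] Ω) {T : Set B} (hT : Submodule.span Λ T = ⊤) {S : Set Ω} (hS : σ '' T ⊆ S)
    (x : B) : σ x ∈ Algebra.adjoin R S := by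
  have hx : x ∈ Submodule.span Λ T := hT ▸ Submodule.mem_top
  induction hx using Submodule.span_induction with
  | mem x hx => exact Algebra.subset_adjoin (hS ⟨x, hx, rfl⟩)
  | zero => rw [map_zero]; exact zero_mem _
  | add x y _ _ hx hy => rw [map_add]; exact add_mem hx hy
  | smul l x _ hx =>
    rw [map_smul, Algebra.smul_def, hψ]
    exact mul_mem (Subalgebra.algebraMap_mem _ _) hx

theorem Tri_sep {Λ Ω B R : Type} [CommRing Λ] [CommRing B] [Algebra Λ B] [Field Ω] [Algebra Λ Ω]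
    [CommRing R] [Algebra R Ω] (ψ : Λ →+* R) (hψ : ∀ l, algebraMap Λ Ω l = algebraMap R Ω (ψ l))
    (σ : B →ₐ[Λ] Ω) (hσ : Function.Injective σ) (x : B)
    (h : ∃ f : Polynomial Λ, f.Monic ∧ Polynomial.aeval x f = 0 ∧
      Polynomial.aeval x f.derivative ≠ 0) :
    ∃ f : Polynomial R, f.Monic ∧ Polynomial.aeval (σ x) f = 0 ∧
      Polynomial.aeval (σ x) f.derivative ≠ 0 := by
  obtain ⟨f, h1, h2, h3⟩ := h
  have e : ∀ g : Polynomial Λ, Polynomial.aeval (σ x) (g.map ψ) = σ (Polynomial.aeval x g) := by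
    intro g
    rw [← Polynomial.aeval_algHom_apply, Polynomial.aeval_def, Polynomial.aeval_def,
      Polynomial.eval₂_map]
    congr 1
    exact RingHom.ext fun l => (hψ l).symm
  refine ⟨f.map ψ, h1.map ψ, by rw [e, h2, map_zero], ?_⟩
  rw [Polynomial.derivative_map, e]
  exact fun h => h3 (hσ (h.trans (map_zero σ).symm))

theorem Tri_core {Λ ι F : Type} [CommRing Λ] [IsDomain Λ] [IsPrincipalIdealRing Λ] [Finite ι]
    (B : ι → Type) [∀ i, CommRing (B i)] [∀ i, IsDomain (B i)] [∀ i, Algebra Λ (B i)]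
    [∀ i, Module.Finite Λ (B i)] [Field F] [IsAlgClosed F] (ψ : Λ →+* F⟦X⟧)
    (hψ : Function.Injective ψ) (t : Λ) (ht : ψ t = X)
    (hB : ∀ i, Function.Injective (algebraMap Λ (B i)))
    (hsep : ∀ i (x : B i), ∃ f : Polynomial Λ, f.Monic ∧ Polynomial.aeval x f = 0 ∧
      Polynomial.aeval x f.derivative ≠ 0) (O : Subalgebra Λ (∀ i, B i)) :
    (∃ l : Λ, l ≠ 0 ∧ ∀ x, l • x ∈ O) ∨
      ∃ (i j : ι) (f : B i →+* F⟦X⟧) (g : B j →+* F⟦X⟧), Function.Injective f ∧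
        Function.Injective g ∧ (∃ x : ∀ i, B i, f (x i) ≠ g (x j)) ∧
        (∀ o ∈ O, f (o i) = g (o j)) ∧ constantCoeff (f (algebraMap Λ _ t)) = 0 ∧
        constantCoeff (g (algebraMap Λ _ t)) = 0 := by
  let Ω := AlgebraicClosure (FractionRing F⟦X⟧)
  have hinj : Function.Injective (algebraMap F⟦X⟧ Ω) := by
    rw [IsScalarTower.algebraMap_eq F⟦X⟧ (FractionRing F⟦X⟧) Ω]
    exact (algebraMap (FractionRing F⟦X⟧) Ω).injective.comp (IsFractionRing.injective _ _)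
  let : Algebra Λ Ω := ((algebraMap F⟦X⟧ Ω).comp ψ).toAlgebra
  have hc : ∀ l, algebraMap Λ Ω l = algebraMap F⟦X⟧ Ω (ψ l) := fun _ => rfl
  rcases two_homs (Ω := Ω) B hB (hinj.comp hψ)
    (fun i x => let ⟨f, _, h⟩ := hsep i x; ⟨f, h⟩) O with h | ⟨i, j, σ, τ, h1, h2, ⟨x, h3⟩, h4⟩
  · exact Or.inl h
  obtain ⟨T, hT⟩ := Module.Finite.fg_top (R := Λ) (M := B i)
  obtain ⟨U, hU⟩ := Module.Finite.fg_top (R := Λ) (M := B j)
  obtain ⟨e, e1, e2⟩ := to_series hinj (σ '' T ∪ τ '' U)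
    ((T.finite_toSet.image _).union (U.finite_toSet.image _)) (by
      rintro _ (⟨y, -, rfl⟩ | ⟨y, -, rfl⟩)
      · exact Tri_sep ψ hc σ h1 y (hsep i y)
      · exact Tri_sep ψ hc τ h2 y (hsep j y))
  have m1 := Tri_mem ψ hc σ hT (Set.subset_union_left (t := τ '' U))
  have m2 := Tri_mem ψ hc τ hU (Set.subset_union_right (s := σ '' T))
  refine Or.inr ⟨i, j, e.comp (σ.toRingHom.codRestrict _ m1), e.comp (τ.toRingHom.codRestrict _ m2),
    fun a b h => h1 (congrArg Subtype.val (e1 h)), fun a b h => h2 (congrArg Subtype.val (e1 h)),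
    ⟨x, fun h => h3 (congrArg Subtype.val (e1 h))⟩,
    fun o ho => congrArg e (Subtype.ext (h4 o ho)), ?_, ?_⟩
  · rw [← e2]
    refine congrArg (fun y => constantCoeff (e y)) (Subtype.ext ?_)
    exact (σ.commutes t).trans ((hc t).trans (by rw [ht]; rfl))
  · rw [← e2]
    refine congrArg (fun y => constantCoeff (e y)) (Subtype.ext ?_)
    exact (τ.commutes t).trans ((hc t).trans (by rw [ht]; rfl))

theorem Tri_approx (p : ℕ) [Fact p.Prime] {R : Type} [CommRing R] (Φ : (ZMod p)⟦X⟧ →+* R)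
    (O : Subring R) (h : Φ X ∈ O) (N : ℕ) : ∀ a, ∃ o ∈ O, Φ X ^ N ∣ Φ a - o := by
  induction N with
  | zero => exact fun a => ⟨0, zero_mem _, by rw [pow_zero]; exact one_dvd _⟩
  | succ N ih =>
    intro a
    obtain ⟨n, hn⟩ := ZMod.natCast_zmod_surjective (constantCoeff a)
    obtain ⟨b, hb⟩ : (X : (ZMod p)⟦X⟧) ∣ a - n := by
      rw [X_dvd_iff, map_sub, map_natCast, hn, sub_self]
    obtain ⟨o, ho, c, hc⟩ := ih b
    refine ⟨n + Φ X * o, add_mem (natCast_mem _ n) (mul_mem h ho), c, ?_⟩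
    rw [sub_eq_iff_eq_add] at hb hc
    rw [hb, map_add, map_mul, map_natCast, hc]
    ring

theorem Tri_good {ι : Type} {κ : ι → Type} [∀ i, Field (κ i)] {F : Type} [Field F] {i : ι}
    (f : (κ i)⟦X⟧ →+* F⟦X⟧) (hf : Function.Injective f) {s : (κ i)⟦X⟧} (hs : s ≠ 0)
    (h : constantCoeff (f s) = 0) : Good (f.comp (Pi.evalRingHom (fun i => (κ i)⟦X⟧) i)) := by
  obtain ⟨m, u, hu⟩ := Tri_dvd hs
  refine ⟨?_, fun h0 => X_ne_zero (hf ((show f X = 0 from h0).trans (map_zero f).symm))⟩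
  have h1 : constantCoeff (f X) ^ m = 0 := by
    rw [← map_pow, ← map_pow, hu, map_mul, map_mul, h, zero_mul]
  exact eq_zero_of_pow_eq_zero h1

/-- Take `s` from `exists_good_elt`, `φ i` with `φ i X = s i`, `Λ = (ZMod p)⟦X⟧` acting on the
factors through `φ i`. The closure `O' = {x | ∀ N, ∃ o ∈ O, ϖ ^ N ∣ x - o}` is a `Λ`-subalgebra
(`a = trunc N a + X ^ N * a'`). Apply `two_homs` with `Ω` an algebraic closure of the fraction field
of `F⟦X⟧`, `Λ → F⟦X⟧` being `PowerSeries.map`. In the first case `l = X ^ m * unit` and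
`s ^ m ∣ ϖ ^ c` for some `c`. In the second case apply `to_series` to the images of finite
generating sets of the two factors; `s ∣ ϖ ^ c` gives the vanishing of the constant coefficient. -/
theorem tri (p : ℕ) [Fact p.Prime] {ι : Type} [Finite ι] (κ : ι → Type) [∀ i, Field (κ i)]
    [∀ i, Finite (κ i)] [∀ i, CharP (κ i) p] (F : Type) [Field F] [IsAlgClosed F] [CharP F p]
    (O : Subring (RR κ)) :
    (∃ c : ℕ, ∀ (N : ℕ) (x : RR κ), ∃ o ∈ O, pi0 κ ^ N ∣ pi0 κ ^ c * x - o) ∨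
      (∃ i, ∀ o ∈ O, d⁄dX (κ i) (o i) = 0) ∨
      ∃ f g : RR κ →+* F⟦X⟧, f ≠ g ∧ (∀ o ∈ O, f o = g o) ∧ Good f ∧ Good g := by
  by_cases h : ∃ i, ∀ o ∈ O, d⁄dX (κ i) (o i) = 0
  · exact Or.inr (Or.inl h)
  push Not at h
  obtain ⟨s, hsO, hs⟩ := exists_good_elt p κ O h
  have hs0 : ∀ i, s i ≠ 0 := fun i h0 => (hs i).2 (by rw [h0, map_zero])
  choose φ hφ using fun i => exists_subst p (s i) (hs i).1
  let : ∀ i, Algebra (ZMod p)⟦X⟧ (κ i)⟦X⟧ := fun i => (φ i).toAlgebra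
  have : ∀ i, Module.Finite (ZMod p)⟦X⟧ (κ i)⟦X⟧ := fun i =>
    subst_finite p (φ i) (hφ i ▸ hs0 i) (hφ i ▸ (hs i).1)
  have hΦ : algebraMap (ZMod p)⟦X⟧ (RR κ) X = s := funext hφ
  have hπ : pi0 κ ∣ s := by
    choose u hu using fun i => X_dvd_iff.2 (hs i).1
    exact ⟨u, funext hu⟩
  let O' : Subalgebra (ZMod p)⟦X⟧ (RR κ) :=
    { carrier := {x | ∀ N : ℕ, ∃ o ∈ O, pi0 κ ^ N ∣ x - o}
      mul_mem' := fun {x y} hx hy N => by
        obtain ⟨o, ho, h1⟩ := hx N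
        obtain ⟨o', ho', h2⟩ := hy N
        refine ⟨o * o', mul_mem ho ho', ?_⟩
        rw [show x * y - o * o' = x * (y - o') + (x - o) * o' by ring]
        exact (h2.mul_left _).add (h1.mul_right _)
      add_mem' := fun {x y} hx hy N => by
        obtain ⟨o, ho, h1⟩ := hx N
        obtain ⟨o', ho', h2⟩ := hy N
        refine ⟨o + o', add_mem ho ho', ?_⟩
        rw [add_sub_add_comm]
        exact h1.add h2
      algebraMap_mem' := fun a N => by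
        obtain ⟨o, ho, h1⟩ := Tri_approx p (algebraMap (ZMod p)⟦X⟧ (RR κ)) O (hΦ ▸ hsO) N a
        exact ⟨o, ho, (pow_dvd_pow_of_dvd (hΦ ▸ hπ) N).trans h1⟩ }
  rcases Tri_core (fun i => (κ i)⟦X⟧) (PowerSeries.map (ZMod.castHom (dvd_refl p) F))
    (PowerSeries.map_injective _ (RingHom.injective _)) X (map_X _)
    (fun i => subst_injective p (φ i) (hφ i ▸ hs0 i))
    (fun i x => subst_sep p (φ i) (hφ i ▸ (hs i).1) (hφ i ▸ (hs i).2) x) O' with
    ⟨l, h1, h2⟩ | ⟨i, j, f, g, h1, h2, ⟨x, h3⟩, h4, h5, h6⟩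
  · obtain ⟨m, v, hv⟩ := Tri_dvd h1
    choose c hc using fun i => Tri_dvd (hs0 i)
    obtain ⟨c₀, hc₀⟩ := (Set.finite_range c).bddAbove
    obtain ⟨w, hw⟩ : s ∣ pi0 κ ^ c₀ := by
      choose u hu using fun i => (hc i).trans (pow_dvd_pow X (hc₀ ⟨i, rfl⟩))
      exact ⟨u, funext hu⟩
    refine Or.inl ⟨c₀ * m, fun N x => ?_⟩
    have h3 := h2 (algebraMap (ZMod p)⟦X⟧ (RR κ) v * w ^ m * x) N
    rwa [Algebra.smul_def, ← mul_assoc, ← mul_assoc, ← map_mul, ← hv, map_pow, hΦ, ← mul_pow, ← hw,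
      ← pow_mul] at h3
  · refine Or.inr (Or.inr ⟨f.comp (Pi.evalRingHom _ i), g.comp (Pi.evalRingHom _ j),
      fun h => h3 (DFunLike.congr_fun h x), fun o ho => h4 o fun N => ⟨o, ho, by simp⟩,
      Tri_good f h1 (hs0 i) (hφ i ▸ h5), Tri_good g h2 (hs0 j) (hφ j ▸ h6)⟩)

end Pool.Agent.Lib.MP_6adaea_nt.S
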