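import Pool.Agent.Lib.MP_6adaea_nt.S.Trans
import Pool.Agent.Lib.MP_6adaea_nt.S.Seed
import Pool.Agent.Lib.MP_6adaea_nt.S.SDat
import Pool.Agent.Lib.MP_6adaea_nt.S.Sand
import Pool.Agent.Lib.MP_6adaea_nt.S.Tri
import Pool.Agent.Lib.MP_6adaea_nt.S.Sat

/-!
A finite level certificate for openness.
-/

set_option linter.unusedSectionVars false

namespace Pool.Agent.Lib.MP_6adaea_nt.S
open Matrix G

variable {n : Type} [Fintype n] [DecidableEq n]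

lemma cast_unit_or_zero (p : ℕ) [Fact p.Prime] {ι : Type} (κ : ι → Type) [∀ i, Field (κ i)]
    [∀ i, CharP (κ i) p] (m : ℕ) : IsUnit (m : RR κ) ∨ (m : RR κ) = 0 := by
  have e : ∀ i, (m : RR κ) i = PowerSeries.C (m : κ i) := fun i => by simp
  by_cases h : p ∣ m
  · refine Or.inr (funext fun i => ?_)
    rw [e, (CharP.cast_eq_zero_iff (κ i) p m).2 h, map_zero, Pi.zero_apply]
  · refine Or.inl (Pi.isUnit_iff.2 fun i => ?_)
    rw [e]
    exact (IsUnit.mk0 _ fun h' => h ((CharP.cast_eq_zero_iff (κ i) p m).1 h')).map _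

theorem core [Nontrivial n] (p : ℕ) [Fact p.Prime] {ι : Type} [Finite ι] (κ : ι → Type)
    [∀ i, Field (κ i)] [∀ i, Finite (κ i)] [∀ i, CharP (κ i) p] (F : Type) [Field F]
    [IsAlgClosed F] [CharP F p] (Γ : Subgroup (GL n (RR κ)))
    (h1 : ∀ η : Module.End (RR κ) (Matrix n n (RR κ)) →ₗ[RR κ] RR κ,
      (∀ g ∈ Γ, η (adL g - 1) = 0) → ∀ g : GL n (RR κ), g.val.det = 1 → η (adL g - 1) = 0)
    (h2 : ∀ i, ∃ g ∈ Γ, ∃ g' ∈ Γ, PowerSeries.derivative (κ i) ((chi g * chi g') i) ≠ 0)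
    (h3 : ∀ f g : RR κ →+* PowerSeries F, Good f → Good g →
      (∀ γ ∈ Γ, f (chi γ ^ 2) = g (chi γ ^ 2)) → f = g) :
    ∃ b N : ℕ, ∀ (S : Type) [CommRing S] (π : RR κ →+* S), Function.Surjective π →
      IsNilpotent (π (pi0 κ)) → ∀ H : Subgroup (GL n S),
      (∀ g ∈ Γ, ∃ g' ∈ H, Cong (π (pi0 κ ^ N)) (g.val.map π) g'.val) →
      Roots H {x | π (pi0 κ) ^ b ∣ x} := by
  obtain ⟨c0, hB⟩ := exists_Bp κ Γ h1
  obtain ⟨τ, _, _, _, ⟨D⟩⟩ := exists_SD (n := n) (cast_unit_or_zero p κ (Fintype.card n))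
  have hmem : ∀ g ∈ Γ, ∀ g' ∈ Γ, chi g * chi g' ∈ trR Γ := fun g hg g' hg' =>
    Subring.subset_closure ⟨g, hg, g', hg', rfl⟩
  rcases tri p κ F (trR Γ) with ⟨c1, hT⟩ | ⟨i, hi⟩ | ⟨f, g, hfg, ho, hf, hg⟩
  · set c := c0 * (10 * Fintype.card τ ^ 2 + 15) + (c1 + 1) with hc
    have hW : ∀ N, Wd Γ (pi0 κ ^ c) (pi0 κ ^ N) := fun N => by
      have := sand D hB (u := pi0 κ ^ (c1 + 1)) (v := pi0 κ ^ N) fun x => by
        simpa only [pow_succ, mul_assoc] using hT N (pi0 κ * x)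
      rwa [← pow_mul, ← pow_add] at this
    obtain ⟨β, hβ, hs⟩ := seed_exists p κ Γ c hW (2 * c + 1)
    refine ⟨β + c, β + 1, fun S _ π hπ hn H hH => lay hn (by omega) hβ ?_ ?_⟩
    · simpa only [map_pow] using (hW (2 * c + 1)).transfer hπ fun g hg => by
        obtain ⟨g', hg', e⟩ := hH g hg
        exact ⟨g', hg', e.of_dvd (map_dvd π (pow_dvd_pow _ (by omega)))⟩
    · simpa only [map_pow] using hs.transfer hn (by simpa only [pow_succ] using hH)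
  · obtain ⟨g, hg, g', hg', e⟩ := h2 i
    exact absurd (hi _ (hmem g hg g' hg')) e
  · exact absurd (h3 f g hf hg fun γ hγ => ho _ (by rw [sq]; exact hmem γ hγ γ hγ)) hfg

end Pool.Agent.Lib.MP_6adaea_nt.S
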