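import Pool.Agent.Lib.MP_6adaea_nt.G.Inv

/-!
Definitions for the small prime block.
-/

set_option linter.unusedSectionVars false

namespace Pool.Agent.Lib.MP_6adaea_nt.S
open Matrix G

variable {n : Type} [Fintype n] [DecidableEq n] {R : Type} [CommRing R]

/-- conjugation as a linear map -/
def adL (g : GL n R) : Module.End R (Matrix n n R) where
  toFun := ad g
  map_add' := ad_add g
  map_smul' := ad_smul g

@[simp] lemma adL_apply (g : GL n R) (X : Matrix n n R) : adL g X = ad g X := rfl

lemma adL_mul (g h : GL n R) : adL (g * h) = adL g * adL h :=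
  LinearMap.ext fun X => ad_mul g h X

@[simp] lemma adL_one : adL (1 : GL n R) = 1 := LinearMap.ext fun X => ad_one X

/-- bracket with `E_ij` -/
def brE (i j : n) : Module.End R (Matrix n n R) where
  toFun X := single i j 1 * X - X * single i j 1
  map_add' X Y := by rw [Matrix.mul_add, Matrix.add_mul]; abel
  map_smul' c X := by rw [Matrix.mul_smul, Matrix.smul_mul, smul_sub]; rfl

/-- the operator `X ↦ X_ji E_ij` -/
def qE (i j : n) : Module.End R (Matrix n n R) where
  toFun X := X j i • single i j 1
  map_add' X Y := by rw [Matrix.add_apply, add_smul]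
  map_smul' c X := by rw [Matrix.smul_apply, smul_eq_mul, mul_smul]; rfl

@[simp] lemma brE_apply (i j : n) (X : Matrix n n R) :
    brE i j X = single i j 1 * X - X * single i j 1 := rfl

@[simp] lemma qE_apply (i j : n) (X : Matrix n n R) : qE i j X = X j i • single i j 1 := rfl

lemma adL_rt {i j : n} (h : i ≠ j) (y : R) :
    adL (rt h y) - 1 = y • brE i j - y ^ 2 • qE i j := by
  ext1 X
  simp only [LinearMap.sub_apply, adL_apply, Module.End.one_apply, LinearMap.smul_apply,
    brE_apply, qE_apply, ad_rt, smul_smul]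
  abel

/-- entrywise congruence -/
def Cong {m : Type} (v : R) (X Y : Matrix m m R) : Prop := ∀ i j, v ∣ X i j - Y i j

lemma cong_iff {m : Type} {v : R} {X Y : Matrix m m R} : Cong v X Y ↔ ∃ Z, X = Y + v • Z := by
  constructor
  · intro h
    choose Z hZ using h
    exact ⟨Matrix.of Z, by ext i j; simp [← hZ]⟩
  · rintro ⟨Z, rfl⟩ i j
    simp

lemma Cong.refl {m : Type} (v : R) (X : Matrix m m R) : Cong v X X := fun _ _ => by simp

lemma Cong.symm {m : Type} {v : R} {X Y : Matrix m m R} (h : Cong v X Y) : Cong v Y X :=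
  fun i j => by rw [← neg_sub]; exact (h i j).neg_right

lemma Cong.trans {m : Type} {v : R} {X Y Z : Matrix m m R} (h : Cong v X Y) (h' : Cong v Y Z) :
    Cong v X Z := fun i j => by
  rw [← sub_add_sub_cancel _ (Y i j)]; exact (h i j).add (h' i j)

lemma Cong.of_dvd {m : Type} {u v : R} {X Y : Matrix m m R} (h : Cong v X Y) (huv : u ∣ v) :
    Cong u X Y := fun i j => huv.trans (h i j)

/-- the additive span of the `ad g X - X` -/
def DS (H : Subgroup (GL n R)) (X : Matrix n n R) : AddSubgroup (Matrix n n R) :=
  AddSubgroup.closure {Y | ∃ g ∈ H, Y = ad g X - X}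

/-- modulo `v`, the additive span of the `ad g X - X` contains `u * lev X * sl` -/
def Wd (H : Subgroup (GL n R)) (u v : R) : Prop :=
  ∀ X Y : Matrix n n R, Y.trace = 0 → ∀ a ∈ lev X, ∃ Z ∈ DS H X, Cong v Z ((u * a) • Y)

/-- an element of exact projective level `a` -/
def Seed (H : Subgroup (GL n R)) (a : R) : Prop :=
  ∃ g ∈ H, ∃ (z : Rˣ) (X : Matrix n n R), g.val = (z : R) • (1 + a • X) ∧ lev X = ⊤

/-- the linear span of the operators `ad g - 1` -/
def DM (H : Subgroup (GL n R)) : Submodule R (Module.End R (Matrix n n R)) :=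
  Submodule.span R {T | ∃ g ∈ H, T = adL g - 1}

/-- the span of the `ad g - 1` contains `w` times the two operators of each root -/
def Bp (H : Subgroup (GL n R)) (w : R) : Prop :=
  ∀ i j : n, i ≠ j → w • brE i j ∈ DM H ∧ w • qE i j ∈ DM H

open Classical in
/-- the number of trivial composition factors of the adjoint representation -/
noncomputable def ee (n R : Type) [Fintype n] [CommRing R] : ℕ :=
  if (Fintype.card n : R) = 0 then 2 else 1

/-- the character of the simple part of the adjoint representation -/
noncomputable def chi (g : GL n R) : R := g.val.trace * (g⁻¹).val.trace - ee n R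

/-- the ring generated by products of two values of the character -/
noncomputable def trR (H : Subgroup (GL n R)) : Subring R :=
  Subring.closure {o | ∃ g ∈ H, ∃ g' ∈ H, o = chi g * chi g'}

/-- dual bases of `sl` modulo scalars -/
structure SD (n R ι : Type) [Fintype n] [DecidableEq n] [CommRing R] [Fintype ι]
    [DecidableEq ι] where
  B : ι → Matrix n n R
  ξ : ι → Matrix n n R →ₗ[R] R
  trB : ∀ a, (B a).trace = 0
  one : ∀ a, ξ a 1 = 0
  dual : ∀ a b, ξ a (B b) = if a = b then 1 else 0
  scal : ∀ Y : Matrix n n R, Y.trace = 0 → Scal (Y - ∑ a, ξ a Y • B a)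
  tr : ∀ g : GL n R, ∑ a, ξ a (ad g (B a)) = chi g

/-- a product of power series rings -/
abbrev RR {ι : Type} (κ : ι → Type) : Type := ∀ i, PowerSeries (κ i)

/-- the common uniformiser -/
noncomputable def pi0 {ι : Type} (κ : ι → Type) [∀ i, Field (κ i)] : RR κ :=
  fun _ => PowerSeries.X

@[simp] lemma pi0_apply {ι : Type} (κ : ι → Type) [∀ i, Field (κ i)] (i : ι) :
    pi0 κ i = PowerSeries.X := rfl

/-- local homomorphisms to a power series ring which do not kill the uniformiser -/
def Good {ι : Type} {κ : ι → Type} [∀ i, Field (κ i)] {F : Type} [Field F]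
    (f : RR κ →+* PowerSeries F) : Prop :=
  PowerSeries.constantCoeff (f (pi0 κ)) = 0 ∧ f (pi0 κ) ≠ 0

end Pool.Agent.Lib.MP_6adaea_nt.S
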