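import Pool.Agent.Lib.MP_6adaea_nt.S.Poly

/-!
The derivative of the character.
-/

set_option linter.unusedSectionVars false

namespace Pool.Agent.Lib.MP_6adaea_nt.S
open Matrix G

variable {n : Type} [Fintype n] [DecidableEq n] {R Ω : Type} [CommRing R] [CommRing Ω] [IsDomain Ω]

/-- the homogeneous form of the derivative of the character -/
def DerB_dch (A B : Matrix n n Ω) : Ω :=
  A.det * B.trace * A.adjugate.trace - A.trace * (A.adjugate * B * A.adjugate).trace

lemma DerB_hom [Nonempty n] :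
    HomP (2 * Fintype.card n) fun x : Matrix n n Ω × Matrix n n Ω => DerB_dch x.1 x.2 := by
  have : 0 < Fintype.card n := Fintype.card_pos
  exact (((HomM.fst.det.mul HomM.snd.trace).mul HomM.fst.adjugate.trace).cast (by omega)).sub
    ((HomM.fst.trace.mul ((HomM.fst.adjugate.mul HomM.snd).mul HomM.fst.adjugate).trace).cast
      (by omega))

lemma DerB_eq {f : R →+* Ω} (D : R →+ Ω) (hm : ∀ x y, D (x * y) = f x * D y + f y * D x)
    (g : GL n R) : DerB_dch (g.val.map f) (g.val.map D) = (g.val.map f).det ^ 2 * D (chi g) := by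
  have h1 : D 1 = 0 := by simpa using hm 1 1
  have h2 : (red f g).val * (g⁻¹).val.map D + g.val.map D * ((red f g)⁻¹).val = 0 := by
    ext i j
    have h3 : D ((g.val * (g⁻¹).val) i j) = 0 := by
      rw [Units.mul_inv, Matrix.one_apply]
      split_ifs
      exacts [h1, map_zero D]
    rw [mul_apply, map_sum] at h3
    rw [← map_inv, Matrix.add_apply, mul_apply, mul_apply, ← Finset.sum_add_distrib,
      Matrix.zero_apply, ← h3]
    exact Finset.sum_congr rfl fun l _ => by rw [hm, mul_comm (f _) (D (g.val i l))]; rfl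
  have h4 : ((red f g)⁻¹).val * g.val.map D * ((red f g)⁻¹).val = -(g⁻¹).val.map D := by
    rw [Matrix.mul_assoc, eq_neg_of_add_eq_zero_right h2, Matrix.mul_neg, ← Matrix.mul_assoc,
      Units.inv_mul, Matrix.one_mul]
  have h5 := adj_eq (red f g)
  have h6 : ((red f g)⁻¹).val.trace = f (g⁻¹).val.trace := by
    rw [← map_inv, red_val, AddMonoidHom.map_trace]
  rw [red_val] at h5
  rw [DerB_dch, h5, Matrix.smul_mul, Matrix.smul_mul, Matrix.mul_smul, h4, chi, map_sub, hm,
    ← nsmul_one, map_nsmul, h1]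
  simp only [trace_smul, trace_neg, h6, ← AddMonoidHom.map_trace, smul_eq_mul]
  ring

lemma DerB_tm {i j : n} (h : i ≠ j) (x : Ω) (l : n) :
    DerB_dch (tm h x).val ((tm h x).val * (single i i 1 - single l l 1)) =
      (Fintype.card n + x) * ((tm h x).val i i - (tm h x).val l l -
        ((tm h x).val.adjugate i i - (tm h x).val.adjugate l l)) := by
  rw [DerB_dch, ← Matrix.mul_assoc, adjugate_mul, tm_det, one_smul, Matrix.one_mul, tm_trace,
    tm_adj_trace]
  simp only [Matrix.mul_sub, Matrix.sub_mul, trace_sub, trace_mul_single, trace_single_mul,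
    smul_eq_mul, one_mul, MulOpposite.op_one, one_smul]
  ring

/-- Write `G = γ.map f`, `G' = γ.map δ`. From `γ * γ⁻¹ = 1` one gets
`γ⁻¹.map δ = -(G⁻¹ * G' * G⁻¹)`, so with
`dch A B = det A * trace B * trace (adj A) - trace A * trace (adj A * B * adj A)` (degree `2 r`, use the
`HomM` lemmas) one has `dch G G' = det G ^ 2 * δ (chi γ)` (`δ` kills natural number casts, `adj_eq`).
(1) Some `γ' ∈ Γ` has `f (chi γ') ≠ 0` (`DB.exp_eq` with exponents `1, 2`); so
`δ (chi γ) = l * f (chi γ)` on `Γ` for a constant `l`, and `dch A B - l * det A * pch e A` vanishes on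
`Γ`. (2) At `(s, s * 0)`, `s = tm h x` with `(r + x) ^ 2 ≠ e` (`tm_pch`; otherwise use `Polynomial.funext`
or three values of `x`), this gives `l = 0`. (3) At `(s, s * Y)` for diagonal `Y` of trace zero
`dch = (r + x) * trace ((s - adj s) * Y) = (r + x) * x * (Y i i - Y j j)` (`tm_val`, `tm_adj`). Take
`Y = E_ii - E_jj` if `2 ≠ 0` and `Y = E_ii - E_ll` if there is a third index. -/
theorem DB.der_chi [Nontrivial n] [Infinite Ω] {Γ : Subgroup (GL n R)} {f : R →+* Ω} {δ : R → Ω}
    (ha : ∀ x y, δ (x + y) = δ x + δ y) (hm : ∀ x y, δ (x * y) = f x * δ y + f y * δ x)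
    (h : DB Γ f δ) (h0 : ∀ γ ∈ Γ, ∀ γ' ∈ Γ, δ (chi γ * chi γ') = 0) :
    (Fintype.card n = 2 ∧ (2 : Ω) = 0) ∧ ∀ γ ∈ Γ, δ (chi γ) = 0 := by
  obtain ⟨i, j, hij⟩ := exists_pair_ne n
  classical
  have key : ∀ g : GL n R, DerB_dch (g.val.map f) (g.val.map δ) =
      (g.val.map f).det ^ 2 * δ (chi g) := DerB_eq (AddMonoidHom.mk' δ ha) hm
  obtain ⟨γ', hγ', h1⟩ : ∃ γ' ∈ Γ, f (chi γ') ≠ 0 := by
    by_contra hc
    push Not at hc
    exact absurd (h.exp_eq (A := 1) (B := 2) fun γ hγ => by simp [hc γ hγ]) (by norm_num)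
  obtain ⟨l, hl⟩ : ∃ l, ∀ γ ∈ Γ, f (chi γ') * δ (chi γ) = l * f (chi γ) :=
    ⟨-δ (chi γ'), fun γ hγ => by
      have h2 := h0 γ hγ γ' hγ'
      rw [hm] at h2
      linear_combination h2⟩
  have h2' := h _ _ ((DerB_hom.smul (f (chi γ'))).sub ((((HomM.fst.det.cast (mul_one _)).mul
    (HomM.pch HomM.fst (ee n R))).cast (two_mul _).symm).smul l)) fun γ hγ => by
      simp only [key, pch_eq]
      linear_combination (γ.val.map f).det ^ 2 * hl γ hγ
  have h3 : ∀ x : Ω, l * ((Fintype.card n + x) ^ 2 - ee n R) = 0 := fun x => by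
    simpa [DerB_dch, tm_det, tm_pch] using h2' (tm hij x).val 0 (tm_det hij x) (trace_zero _ _)
  obtain rfl : l = 0 := by linear_combination h3 (1 - Fintype.card n) - h3 (-Fintype.card n)
  have hz : ∀ γ ∈ Γ, δ (chi γ) = 0 := fun γ hγ =>
    (mul_eq_zero.1 ((hl γ hγ).trans (zero_mul _))).resolve_left h1
  have h2 := h _ _ DerB_hom fun γ hγ => by simp only [key, hz γ hγ, mul_zero]
  obtain ⟨x, hx⟩ := Infinite.exists_notMem_finset ({0, -(Fintype.card n : Ω)} : Finset Ω)
  simp only [Finset.mem_insert, Finset.mem_singleton, not_or] at hx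
  have h4 := fun m => h2 (tm hij x).val (single i i 1 - single m m 1) (tm_det hij x) (by simp)
  simp only [DerB_tm, mul_eq_zero_iff_left
    (fun e => hx.2 (eq_neg_of_add_eq_zero_right e) : (Fintype.card n : Ω) + x ≠ 0), tm_adj] at h4
  simp only [tm_val] at h4
  refine ⟨⟨?_, ?_⟩, hz⟩
  · rw [← Finset.card_univ, ← Finset.card_pair hij]
    congr 1
    refine (Finset.eq_univ_of_forall fun m => ?_).symm
    by_contra hm
    simp only [Finset.mem_insert, Finset.mem_singleton, not_or] at hm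
    exact hx.1 (by simpa [hij, hij.symm, Ne.symm hm.1, Ne.symm hm.2] using h4 m)
  · have h5 := h4 j
    simp only [Matrix.add_apply, Matrix.sub_apply, one_apply_eq, single_apply, hij, hij.symm,
      and_self, and_true, and_false, if_true, if_false] at h5
    exact mul_right_cancel₀ hx.1 (by linear_combination h5)

end Pool.Agent.Lib.MP_6adaea_nt.S
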