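import Pool.Agent.Lib.MP_6adaea_nt.S.Poly

/-!
The derivative of the determinant.
-/

set_option linter.unusedSectionVars false

namespace Pool.Agent.Lib.MP_6adaea_nt.S
open Matrix G

variable {n : Type} [Fintype n] [DecidableEq n] {R Ω : Type} [CommRing R] [CommRing Ω] [IsDomain Ω]

lemma DerD_trace_adj (hn : Fintype.card n = 2) (A : Matrix n n R) :
    A.adjugate.trace = A.trace := by
  let e : Fin 2 ≃ n := (Fintype.equivFinOfCardEq hn).symm
  have h1 : ∀ B : Matrix n n R, B.trace = (B.submatrix e e).trace := fun B =>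
    (Equiv.sum_comp e fun l => B l l).symm
  rw [h1, h1 A, ← adjugate_submatrix_equiv_self, adjugate_fin_two, trace_fin_two, trace_fin_two]
  simp [add_comm]

lemma DerD_chi (hn : Fintype.card n = 2) (h2 : (2 : R) = 0) (g : GL n R) :
    chi g * g.val.det = g.val.trace * g.val.trace := by
  have h1 : (ee n R : R) = 0 := by
    rw [ee, if_pos (by rw [hn]; exact_mod_cast h2)]
    exact_mod_cast h2
  have h3 := DerD_trace_adj hn g.val
  rw [adj_eq, trace_smul, smul_eq_mul] at h3
  rw [chi, h1, sub_zero, mul_assoc, mul_comm _ g.val.det, h3]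

lemma DerD_val {i j : n} (h : i ≠ j) (x y : Ω) :
    (rt h x * rt h.symm y).val = 1 + single i j x + single j i y + single i i (x * y) := by
  rw [Units.val_mul, rt_val, rt_val]
  simp only [Matrix.add_mul, Matrix.mul_add, Matrix.one_mul, Matrix.mul_one,
    single_mul_single_same]
  abel

/-- Here `ee n R = 2`, `trace (adj A) = trace A` (reindex to `Fin 2`, or write `univ = {i, j}`), so
`chi γ * det γ = trace γ ^ 2` and `f (chi γ) * δ (det γ) = 0`: `δ (det γ) = 0` if `f (trace γ) ≠ 0`.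
The `γ ∈ Γ` with `δ (det γ) = 0` form a subgroup `Γ0`. If `γ0 ∈ Γ` is not in `Γ0` then
`trace A * trace (γ0.map f * A)` (degree `2`) vanishes on `Γ`. At
`s = rt h x * rt h.symm y = 1 + x E_ij + y E_ji + x y E_ii` the first factor is `x y`, the second is
`a + b x + c y + d x y`; the values `x, y ∈ {1, u}`, `u ≠ 0, 1`, give `b = c = d = 0`, so row `i` of
`γ0.map f` vanishes, against `det_map_ne`. -/
theorem DB.der_det [Infinite Ω] {Γ : Subgroup (GL n R)} {f : R →+* Ω} {δ : R → Ω}
    (ha : ∀ x y, δ (x + y) = δ x + δ y) (hm : ∀ x y, δ (x * y) = f x * δ y + f y * δ x)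
    (h : DB Γ f δ) (hn : Fintype.card n = 2) (h2 : (2 : R) = 0)
    (h0 : ∀ γ ∈ Γ, δ (chi γ) = 0) : ∀ γ ∈ Γ, δ γ.val.det = 0 := by
  classical
  have h2' : (2 : Ω) = 0 := by rw [← map_ofNat f 2, h2, map_zero]
  have hd : ∀ γ : GL n R, f γ.val.det ≠ 0 := fun γ => by
    have := det_map_ne f γ
    rwa [← red_val, red_det] at this
  have key : ∀ γ ∈ Γ, δ γ.val.det ≠ 0 → (γ.val.map f).trace = 0 := fun γ hγ hne => by
    have h1 := congrArg δ (DerD_chi hn h2 γ)
    rw [hm, hm, h0 γ hγ, mul_zero, add_zero, ← two_mul, h2', zero_mul] at h1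
    have h3 := congrArg f (DerD_chi hn h2 γ)
    rw [map_mul, map_mul, (mul_eq_zero.1 h1).resolve_right hne, zero_mul] at h3
    rw [← AddMonoidHom.map_trace]
    exact mul_self_eq_zero.1 h3.symm
  intro γ0 hγ0
  by_contra hne
  have h3 := h _ _ ((HomM.fst (n := n) (Ω := Ω)).trace.mul
    ((HomM.const (γ0.val.map f)).mul HomM.fst).trace) fun γ hγ => by
      by_cases hγ' : δ γ.val.det = 0
      · have h4 := key _ (Γ.mul_mem hγ0 hγ) (by
          rw [Units.val_mul, det_mul, hm, hγ', mul_zero, zero_add]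
          exact mul_ne_zero (hd γ) hne)
        rw [Units.val_mul, Matrix.map_mul] at h4
        simp only [h4, mul_zero]
      · simp only [key γ hγ hγ', zero_mul]
  obtain ⟨i, j, hij, hu⟩ := Finset.card_eq_two.1 (show (Finset.univ : Finset n).card = 2 from hn)
  have h5 : ∀ x y : Ω, x ≠ 0 → y ≠ 0 → (γ0.val.map f).trace + (γ0.val.map f) j i * x +
      (γ0.val.map f) i j * y + (γ0.val.map f) i i * (x * y) = 0 := fun x y hx hy => by
    have h6 := h3 (rt hij x * rt hij.symm y).val 0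
      (by rw [Units.val_mul, det_mul, rt_det, rt_det, one_mul]) (trace_zero _ _)
    simp only [DerD_val, Matrix.mul_add, Matrix.mul_one, trace_add, trace_one, hn,
      trace_single_eq_of_ne _ _ _ hij, trace_single_eq_of_ne _ _ _ hij.symm,
      trace_single_eq_same, trace_mul_single, Nat.cast_ofNat, h2', add_zero, zero_add,
      MulOpposite.smul_eq_mul_unop, MulOpposite.unop_op] at h6
    exact (mul_eq_zero.1 h6).resolve_left (mul_ne_zero hx hy)
  obtain ⟨u, hu1⟩ := Infinite.exists_notMem_finset ({0, 1} : Finset Ω)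
  simp only [Finset.mem_insert, Finset.mem_singleton, not_or] at hu1
  have hu2 : u - 1 ≠ 0 := sub_ne_zero.2 hu1.2
  have e1 := h5 1 1 one_ne_zero one_ne_zero
  have e2 := h5 u 1 hu1.1 one_ne_zero
  have e3 := h5 1 u one_ne_zero hu1.1
  have e4 := h5 u u hu1.1 hu1.1
  have e5 : (γ0.val.map f) i i = 0 :=
    mul_left_cancel₀ (mul_ne_zero hu2 hu2) (by linear_combination e4 - e3 - e2 + e1)
  have e6 : (γ0.val.map f) i j = 0 :=
    mul_left_cancel₀ hu2 (by linear_combination e3 - e1 - (u - 1) * e5)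
  refine det_map_ne f γ0 (det_eq_zero_of_row_eq_zero i fun l => ?_)
  have hl : l ∈ ({i, j} : Finset n) := hu ▸ Finset.mem_univ l
  rcases Finset.mem_insert.1 hl with rfl | hl
  · exact e5
  · rw [Finset.mem_singleton.1 hl]
    exact e6

/-- Among the units `u l = 1 + ϖ ^ (2 l + 1)`, `l ≤ C`, two satisfy `u l ≡ u l' * det γ` modulo
`ϖ ^ (2 C + 3)`. At the component `i` put `D = det γ i`, `d D = 0`. Differentiate:
`X ^ (2 l) ≡ X ^ (2 l') * D` modulo `X ^ (2 C + 2)` (characteristic two; the derivative of a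
multiple of `X ^ (N + 1)` is a multiple of `X ^ N`). `D` is a unit, so comparing orders (or the
coefficient at `2 * min l l'`) gives `l = l'`. -/
theorem det_der {ι : Type} (κ : ι → Type) [∀ i, Field (κ i)] (Γ : Subgroup (GL n (RR κ))) (C : ℕ)
    (hdet : ∀ (N : ℕ) (u : Fin (C + 1) → (RR κ)ˣ), ∃ l l', l ≠ l' ∧ ∃ γ ∈ Γ,
      pi0 κ ^ N ∣ (u l : RR κ) - u l' * γ.val.det) (i : ι) (h2 : (2 : κ i) = 0) :
    ∃ γ ∈ Γ, PowerSeries.derivative (κ i) (γ.val.det i) ≠ 0 := by
  by_contra hc
  push Not at hc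
  have hu : ∀ l : Fin (C + 1), IsUnit (1 + pi0 κ ^ (2 * (l : ℕ) + 1)) := fun l =>
    Pi.isUnit_iff.2 fun a => PowerSeries.isUnit_iff_constantCoeff.2 (by simp)
  obtain ⟨l, l', hne, γ, hγ, hdv⟩ := hdet (2 * C + 2) fun l => (hu l).unit
  have h1 : (PowerSeries.X : PowerSeries (κ i)) ^ (2 * C + 2) ∣
      (1 + PowerSeries.X ^ (2 * (l : ℕ) + 1)) -
        (1 + PowerSeries.X ^ (2 * (l' : ℕ) + 1)) * γ.val.det i := by
    simpa using map_dvd (Pi.evalRingHom (fun a => PowerSeries (κ a)) i) hdv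
  have h3 : ∀ m : ℕ, PowerSeries.coeff (2 * m + 1) (γ.val.det i) = 0 := fun m => by
    have := congrArg (PowerSeries.coeff (2 * m)) (hc γ hγ)
    rw [PowerSeries.coeff_derivative, map_zero] at this
    simpa [h2] using this
  have h4 : PowerSeries.constantCoeff (γ.val.det i) ≠ 0 :=
    (PowerSeries.isUnit_iff_constantCoeff.1
      (Pi.isUnit_iff.1 (Matrix.GeneralLinearGroup.det γ).isUnit i)).ne_zero
  rw [PowerSeries.X_pow_dvd_iff] at h1
  have hl := l.2
  have hl' := l'.2
  rcases lt_or_gt_of_ne (Fin.val_ne_of_ne hne) with hlt | hlt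
  · have h5 := h1 (2 * (l : ℕ) + 1) (by omega)
    rw [add_mul, one_mul, map_sub, map_add, map_add, h3, PowerSeries.coeff_X_pow_mul',
      if_neg (by omega), PowerSeries.coeff_X_pow_self, PowerSeries.coeff_one,
      if_neg (by omega)] at h5
    simp at h5
  · have h5 := h1 (2 * (l' : ℕ) + 1) (by omega)
    rw [add_mul, one_mul, map_sub, map_add, map_add, h3, PowerSeries.coeff_X_pow_mul',
      if_pos le_rfl, PowerSeries.coeff_X_pow, if_neg (by omega), PowerSeries.coeff_one,
      if_neg (by omega), Nat.sub_self, PowerSeries.coeff_zero_eq_constantCoeff] at h5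
    exact h4 (by simpa using h5)

end Pool.Agent.Lib.MP_6adaea_nt.S
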