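import Pool.Agent.Lib.MP_6adaea_nt.S.Defs

/-!
An element with nonzero derivative at all components.
-/

set_option linter.unusedSectionVars false

namespace Pool.Agent.Lib.MP_6adaea_nt.S
open PowerSeries

lemma Elt_der_pow {k : Type} [Field k] (f : PowerSeries k) (m : ℕ) :
    d⁄dX k (f ^ (m + 1)) = C ((m + 1 : ℕ) : k) * (f ^ m * d⁄dX k f) := by
  rw [Derivation.leibniz_pow, Nat.add_sub_cancel, smul_eq_mul, nsmul_eq_mul, map_natCast]

lemma Elt_exp (p : ℕ) [Fact p.Prime] {ι : Type} [Finite ι] (κ : ι → Type)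
    [∀ i, Field (κ i)] [∀ i, Finite (κ i)] [∀ i, CharP (κ i) p] :
    ∃ m : ℕ, ∀ i, ((m + 1 : ℕ) : κ i) = 0 ∧ ∀ c : κ i, c ^ (m + 1) = c := by
  classical
  have := Fintype.ofFinite ι
  have := fun i => Fintype.ofFinite (κ i)
  choose e he using fun i => FiniteField.card (κ i) p
  have hp := (Fact.out : p.Prime).pos
  have h0 : 0 < ∏ i, (e i : ℕ) := Finset.prod_pos fun i _ => (e i).pos
  refine ⟨p ^ (∏ i, (e i : ℕ)) - 1, fun i => ?_⟩
  rw [Nat.sub_add_cancel (Nat.one_le_pow _ _ hp)]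
  refine ⟨(CharP.cast_eq_zero_iff (κ i) p _).2 (dvd_pow_self p h0.ne'), fun c => ?_⟩
  obtain ⟨r, hr⟩ := Finset.dvd_prod_of_mem (fun i => (e i : ℕ)) (Finset.mem_univ i)
  rw [hr, pow_mul, ← (he i).2]
  exact FiniteField.pow_card_pow r c

lemma Elt_one (p : ℕ) [Fact p.Prime] {ι : Type} [Finite ι] (κ : ι → Type)
    [∀ i, Field (κ i)] [∀ i, Finite (κ i)] [∀ i, CharP (κ i) p] (O : Subring (RR κ))
    {o : RR κ} (ho : o ∈ O) :
    ∃ t ∈ O, ∀ i, constantCoeff (t i) = 0 ∧ d⁄dX (κ i) (t i) = d⁄dX (κ i) (o i) := by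
  obtain ⟨m, hm⟩ := Elt_exp p κ
  refine ⟨o - o ^ (m + 1), O.sub_mem ho (O.pow_mem ho _), fun i => ⟨?_, ?_⟩⟩
  · rw [Pi.sub_apply, Pi.pow_apply, map_sub, map_pow, (hm i).2, sub_self]
  · rw [Pi.sub_apply, Pi.pow_apply, map_sub, Elt_der_pow, (hm i).1, map_zero, zero_mul, sub_zero]

/-- For `o ∈ O` and `Q = p ^ m` with `c ^ Q = c` in all `κ i`, the element `o - o ^ Q` has constant
coefficients zero and the same derivative as `o`. Induct over a finite set of indices: if `s` is good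
on `A`, `t` is good at `i` and `d (s i) = 0`, take `s + t ^ (p * M + 1)` with `p * M` greater than the
orders of the `d (s j)`, `j ∈ A`. -/
theorem exists_good_elt (p : ℕ) [Fact p.Prime] {ι : Type} [Finite ι] (κ : ι → Type)
    [∀ i, Field (κ i)] [∀ i, Finite (κ i)] [∀ i, CharP (κ i) p] (O : Subring (RR κ))
    (h : ∀ i, ∃ o ∈ O, d⁄dX (κ i) (o i) ≠ 0) :
    ∃ s ∈ O, ∀ i, constantCoeff (s i) = 0 ∧ d⁄dX (κ i) (s i) ≠ 0 := by
  classical
  have := Fintype.ofFinite ι
  have hp := (Fact.out : p.Prime).pos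
  have key : ∀ A : Finset ι, ∃ s ∈ O, (∀ i, constantCoeff (s i) = 0) ∧
      ∀ i ∈ A, d⁄dX (κ i) (s i) ≠ 0 := by
    intro A
    induction A using Finset.induction_on with
    | empty => exact ⟨0, O.zero_mem, fun i => map_zero _, fun i hi => absurd hi (by simp)⟩
    | insert i A _ ih =>
      obtain ⟨s, hs, hs0, hsA⟩ := ih
      by_cases hi : d⁄dX (κ i) (s i) = 0
      swap
      · refine ⟨s, hs, hs0, fun j hj => ?_⟩
        rcases Finset.mem_insert.1 hj with rfl | hj
        · exact hi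
        · exact hsA j hj
      obtain ⟨o, ho, hoi⟩ := h i
      obtain ⟨t, ht, ht'⟩ := Elt_one p κ O ho
      have hti : d⁄dX (κ i) (t i) ≠ 0 := by rw [(ht' i).2]; exact hoi
      have hco : ∀ j, ∃ k : ℕ, j ∈ A → coeff k (d⁄dX (κ j) (s j)) ≠ 0 := fun j => by
        by_cases hj : j ∈ A
        · by_contra hc
          push Not at hc
          exact hsA j hj (PowerSeries.ext fun k => by rw [(hc k).2, map_zero])
        · exact ⟨0, fun h' => absurd h' hj⟩
      choose k hk using hco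
      obtain ⟨M, hM⟩ : ∃ M : ℕ, ∀ j, k j < M :=
        ⟨Finset.univ.sup k + 1, fun j => Nat.lt_succ_of_le (Finset.le_sup (Finset.mem_univ j))⟩
      have hd : ∀ j, d⁄dX (κ j) ((s + t ^ (p * M + 1)) j) =
          d⁄dX (κ j) (s j) + t j ^ (p * M) * d⁄dX (κ j) (t j) := fun j => by
        rw [Pi.add_apply, Pi.pow_apply, map_add, Elt_der_pow, Nat.cast_add, Nat.cast_mul,
          CharP.cast_eq_zero, zero_mul, zero_add, Nat.cast_one, map_one, one_mul]
      refine ⟨s + t ^ (p * M + 1), O.add_mem hs (O.pow_mem ht _), fun j => ?_, fun j hj => ?_⟩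
      · rw [Pi.add_apply, Pi.pow_apply, map_add, map_pow, hs0, (ht' j).1, zero_add,
          zero_pow (Nat.succ_ne_zero _)]
      · rw [hd]
        rcases Finset.mem_insert.1 hj with rfl | hj
        · rw [hi, zero_add]
          refine mul_ne_zero (pow_ne_zero _ fun h0 => hti ?_) hti
          rw [h0, map_zero]
        · intro h0
          have h1 : (X : PowerSeries (κ j)) ^ (p * M) ∣ t j ^ (p * M) * d⁄dX (κ j) (t j) :=
            (pow_dvd_pow_of_dvd (X_dvd_iff.2 (ht' j).1) _).mul_right _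
          have h2 := X_pow_dvd_iff.1 h1 (k j) ((hM j).trans_le (Nat.le_mul_of_pos_left M hp))
          have h3 := congrArg (coeff (k j)) h0
          rw [map_add, h2, add_zero, map_zero] at h3
          exact hk j hj h3
  obtain ⟨s, hs, h0, h1⟩ := key Finset.univ
  exact ⟨s, hs, fun i => ⟨h0 i, h1 i (Finset.mem_univ i)⟩⟩

end Pool.Agent.Lib.MP_6adaea_nt.S
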