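import Mathlib

/-!
Expansion in a uniformiser.
-/

set_option linter.unusedSectionVars false

namespace Pool.Agent.Lib.MP_6adaea_nt.S
open PowerSeries

theorem Exp_uniq {F O : Type} [Field F] [CommRing O] [IsDomain O] [Algebra F O] {π : O}
    (h0 : π ≠ 0) (h1 : ¬IsUnit π) (N : ℕ) (p : Polynomial F)
    (h : π ^ N ∣ Polynomial.aeval π p) : Polynomial.X ^ N ∣ p := by
  induction N with
  | zero => simp
  | succ N ih =>
    obtain ⟨q, rfl⟩ := ih ((pow_dvd_pow π N.le_succ).trans h)
    rw [map_mul, map_pow, Polynomial.aeval_X, pow_succ,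
      mul_dvd_mul_iff_left (pow_ne_zero N h0)] at h
    rw [pow_succ]
    refine mul_dvd_mul_left _ (Polynomial.X_dvd_iff.2 ?_)
    by_contra hc
    rw [← Polynomial.X_mul_divX_add q, map_add, map_mul, Polynomial.aeval_X, Polynomial.aeval_C,
      dvd_add_right (dvd_mul_right _ _)] at h
    exact h1 (isUnit_of_dvd_unit h ((IsUnit.mk0 _ hc).map _))

theorem Exp_ex {F O : Type} [Field F] [CommRing O] [Algebra F O] {π : O}
    (h2 : ∀ x : O, ∃ c : F, π ∣ x - algebraMap F O c) (N : ℕ) (x : O) :
    ∃ p : Polynomial F, π ^ N ∣ x - Polynomial.aeval π p := by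
  induction N with
  | zero => exact ⟨0, by simp⟩
  | succ N ih =>
    obtain ⟨p, y, hy⟩ := ih
    obtain ⟨c, z, hz⟩ := h2 y
    refine ⟨p + Polynomial.X ^ N * Polynomial.C c, z, ?_⟩
    rw [map_add, map_mul, map_pow, Polynomial.aeval_X, Polynomial.aeval_C]
    linear_combination hy + π ^ N * hz

/-- For `x` and `N` there is a unique polynomial of degree `< N` with `π ^ N ∣ x - f π` (uniqueness:
a nonzero constant is a unit, so it is not divisible by `π`). Define the coefficients recursively:
`c x` with `π ∣ x - c x`, `r x` with `x - c x = π * r x`, `e x = mk fun i => c (r^[i] x)`.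
`e x = f` iff `π ^ N ∣ x - aeval π (trunc N f)` for all `N`; this gives the ring laws. -/
theorem exists_expansion {F O : Type} [Field F] [CommRing O] [IsDomain O] [Algebra F O] (π : O)
    (h0 : π ≠ 0) (h1 : ¬IsUnit π) (h2 : ∀ x : O, ∃ c : F, π ∣ x - algebraMap F O c)
    (h3 : ∀ x : O, (∀ N : ℕ, π ^ N ∣ x) → x = 0) :
    ∃ e : O →ₐ[F] F⟦X⟧, Function.Injective e ∧ e π = X := by
  choose P hP using Exp_ex h2
  set e : O → F⟦X⟧ := fun x => mk fun i => (P (i + 1) x).coeff i with he
  have key : ∀ (N : ℕ) (x : O) (p : Polynomial F), π ^ N ∣ x - Polynomial.aeval π p →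
      ∀ i < N, coeff i (e x) = p.coeff i := by
    intro N x p h i hi
    have h4 : π ^ (i + 1) ∣ Polynomial.aeval π (P (i + 1) x - p) := by
      have := dvd_sub ((pow_dvd_pow π hi).trans h) (hP (i + 1) x)
      rwa [sub_sub_sub_cancel_left, ← map_sub] at this
    have h5 := Polynomial.X_pow_dvd_iff.1 (Exp_uniq h0 h1 _ _ h4) i i.lt_succ_self
    rw [Polynomial.coeff_sub, sub_eq_zero] at h5
    rw [he, coeff_mk, h5]
  have poly : ∀ p : Polynomial F, e (Polynomial.aeval π p) = (p : F⟦X⟧) := fun p => by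
    ext i
    rw [key (i + 1) _ p (by simp) i i.lt_succ_self, Polynomial.coeff_coe]
  have hadd : ∀ x y, e (x + y) = e x + e y := fun x y => by
    ext i
    rw [map_add, key _ x _ (hP (i + 1) x) i i.lt_succ_self,
      key _ y _ (hP (i + 1) y) i i.lt_succ_self, ← Polynomial.coeff_add]
    refine key (i + 1) _ _ ?_ i i.lt_succ_self
    rw [map_add, add_sub_add_comm]
    exact dvd_add (hP _ _) (hP _ _)
  have hmul : ∀ x y, e (x * y) = e x * e y := fun x y => by
    ext i
    have h4 : π ^ (i + 1) ∣ x * y - Polynomial.aeval π (P (i + 1) x * P (i + 1) y) := by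
      have e1 : x * y - Polynomial.aeval π (P (i + 1) x * P (i + 1) y) =
          (x - Polynomial.aeval π (P (i + 1) x)) * y +
            Polynomial.aeval π (P (i + 1) x) * (y - Polynomial.aeval π (P (i + 1) y)) := by
        rw [map_mul]
        ring
      rw [e1]
      exact dvd_add ((hP _ _).mul_right _) ((hP _ _).mul_left _)
    rw [key _ _ _ h4 i i.lt_succ_self, coeff_mul, Polynomial.coeff_mul]
    refine Finset.sum_congr rfl fun jk hjk => ?_
    have h5 := Finset.HasAntidiagonal.mem_antidiagonal.1 hjk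
    rw [key _ x _ (hP (i + 1) x) jk.1 (by omega), key _ y _ (hP (i + 1) y) jk.2 (by omega)]
  have hcom : ∀ c : F, e (algebraMap F O c) = algebraMap F F⟦X⟧ c := fun c => by
    have := poly (Polynomial.C c)
    rwa [Polynomial.aeval_C, Polynomial.coe_C] at this
  let E : O →ₐ[F] F⟦X⟧ :=
    { toFun := e
      map_one' := by simpa using hcom 1
      map_mul' := hmul
      map_zero' := by simpa using hcom 0
      map_add' := hadd
      commutes' := hcom }
  refine ⟨E, (injective_iff_map_eq_zero E).2 fun x hx => h3 x fun N => ?_, ?_⟩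
  · have hx' : e x = 0 := hx
    obtain ⟨q, hq⟩ : Polynomial.X ^ N ∣ P N x := Polynomial.X_pow_dvd_iff.2 fun i hi => by
      rw [← key N x _ (hP N x) i hi, hx', map_zero]
    have := hP N x
    rw [hq, map_mul, map_pow, Polynomial.aeval_X] at this
    simpa using dvd_add this (dvd_mul_right (π ^ N) (Polynomial.aeval π q))
  · have := poly Polynomial.X
    rwa [Polynomial.aeval_X, Polynomial.coe_X] at this

end Pool.Agent.Lib.MP_6adaea_nt.S
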