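import Pool.Agent.Lib.MP_6adaea_nt.S.Defs

/-!
Homogeneous polynomial functions of a pair of matrices.
-/

set_option linter.unusedSectionVars false

namespace Pool.Agent.Lib.MP_6adaea_nt.S
open Matrix G

variable {n : Type} [Fintype n] [DecidableEq n] {R Ω : Type} [CommRing R] [CommRing Ω]

/-- homogeneous polynomial functions of the entries of two matrices -/
inductive HomP : ℕ → (Matrix n n Ω × Matrix n n Ω → Ω) → Prop
  | const (c : Ω) : HomP 0 fun _ => c
  | fst (i j : n) : HomP 1 fun x => x.1 i j
  | snd (i j : n) : HomP 1 fun x => x.2 i j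
  | zero (d : ℕ) : HomP d fun _ => 0
  | add {d : ℕ} {f g} : HomP d f → HomP d g → HomP d fun x => f x + g x
  | mul {d e : ℕ} {f g} : HomP d f → HomP e g → HomP (d + e) fun x => f x * g x

/-- density of the image under two homomorphisms -/
def DA (Γ : Subgroup (GL n R)) (f g : R →+* Ω) (u : Ω) : Prop :=
  ∀ (d : ℕ) (P : Matrix n n Ω × Matrix n n Ω → Ω), HomP d P →
    (∀ γ ∈ Γ, P (γ.val.map f, γ.val.map g) = 0) →
    ∀ s t : Matrix n n Ω, s.det = 1 → t.det = 1 → Cong u s t → P (s, t) = 0

/-- density of the image under a homomorphism and a derivation -/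
def DB (Γ : Subgroup (GL n R)) (f : R →+* Ω) (δ : R → Ω) : Prop :=
  ∀ (d : ℕ) (P : Matrix n n Ω × Matrix n n Ω → Ω), HomP d P →
    (∀ γ ∈ Γ, P (γ.val.map f, γ.val.map δ) = 0) →
    ∀ s Y : Matrix n n Ω, s.det = 1 → Y.trace = 0 → P (s, s * Y) = 0

namespace HomP

variable {d e : ℕ} {f g : Matrix n n Ω × Matrix n n Ω → Ω}

lemma cast (h : HomP d f) (hd : d = e) : HomP e f := hd ▸ h

lemma congr (h : HomP d f) (hf : ∀ x, g x = f x) : HomP d g := by
  rwa [show g = f from funext hf]

lemma smul (c : Ω) (h : HomP d f) : HomP d fun x => c * f x :=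
  ((const c).mul h).cast (zero_add d)

lemma neg (h : HomP d f) : HomP d fun x => -f x :=
  (h.smul (-1)).congr fun x => by ring

lemma sub (h : HomP d f) (h' : HomP d g) : HomP d fun x => f x - g x :=
  (h.add h'.neg).congr fun x => by ring

lemma pow (h : HomP d f) (m : ℕ) : HomP (m * d) fun x => f x ^ m := by
  induction m with
  | zero => exact ((const 1).cast (by simp)).congr fun x => by simp
  | succ m ih => exact ((ih.mul h).cast (by ring)).congr fun x => by ring

lemma sum {τ : Type} (s : Finset τ) {F : τ → Matrix n n Ω × Matrix n n Ω → Ω}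
    (h : ∀ a ∈ s, HomP d (F a)) : HomP d fun x => ∑ a ∈ s, F a x := by
  classical
  induction s using Finset.induction_on with
  | empty => exact (zero d).congr fun x => by simp
  | insert a s ha ih =>
    exact ((h a (Finset.mem_insert_self _ _)).add
      (ih fun b hb => h b (Finset.mem_insert_of_mem hb))).congr fun x => Finset.sum_insert ha

lemma prod {τ : Type} (s : Finset τ) {F : τ → Matrix n n Ω × Matrix n n Ω → Ω} {D : τ → ℕ}
    (h : ∀ a ∈ s, HomP (D a) (F a)) : HomP (∑ a ∈ s, D a) fun x => ∏ a ∈ s, F a x := by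
  classical
  induction s using Finset.induction_on with
  | empty => exact ((const 1).cast (by simp)).congr fun x => by simp
  | insert a s ha ih =>
    exact (((h a (Finset.mem_insert_self _ _)).mul
      (ih fun b hb => h b (Finset.mem_insert_of_mem hb))).cast
        (Finset.sum_insert ha).symm).congr fun x => Finset.prod_insert ha

lemma det_row {A : Matrix n n Ω × Matrix n n Ω → Matrix n n Ω} {D : n → ℕ}
    (h : ∀ i j, HomP (D i) fun x => A x i j) : HomP (∑ i, D i) fun x => (A x).det := by
  refine (sum Finset.univ fun σ _ => ((prod Finset.univ (D := fun i => D (σ i))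
    fun i _ => h (σ i) i).smul ((Equiv.Perm.sign σ : ℤ) : Ω)).cast
      (Equiv.sum_comp σ D)).congr fun x => ?_
  rw [det_apply']

end HomP

/-- all entries are homogeneous of degree `d` -/
def HomM (d : ℕ) (A : Matrix n n Ω × Matrix n n Ω → Matrix n n Ω) : Prop :=
  ∀ i j, HomP d fun x => A x i j

namespace HomM

variable {d e : ℕ} {A B : Matrix n n Ω × Matrix n n Ω → Matrix n n Ω}

lemma fst : HomM 1 fun x : Matrix n n Ω × Matrix n n Ω => x.1 := HomP.fst

lemma snd : HomM 1 fun x : Matrix n n Ω × Matrix n n Ω => x.2 := HomP.snd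

lemma const (C : Matrix n n Ω) : HomM 0 fun _ : Matrix n n Ω × Matrix n n Ω => C :=
  fun i j => HomP.const (C i j)

lemma cast (h : HomM d A) (hd : d = e) : HomM e A := hd ▸ h

lemma mul (h : HomM d A) (h' : HomM e B) : HomM (d + e) fun x => A x * B x := fun i j =>
  (HomP.sum Finset.univ fun l _ => (h i l).mul (h' l j)).congr fun _ => mul_apply

lemma sub (h : HomM d A) (h' : HomM d B) : HomM d fun x => A x - B x := fun i j =>
  (h i j).sub (h' i j)

lemma smul {f : Matrix n n Ω × Matrix n n Ω → Ω} (hf : HomP e f) (h : HomM d A) :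
    HomM (e + d) fun x => f x • A x := fun i j => hf.mul (h i j)

lemma trace (h : HomM d A) : HomP d fun x => (A x).trace :=
  HomP.sum Finset.univ fun l _ => h l l

lemma det (h : HomM d A) : HomP (Fintype.card n * d) fun x => (A x).det :=
  (HomP.det_row (D := fun _ => d) h).cast (by simp)

lemma adjugate (h : HomM 1 A) : HomM (Fintype.card n - 1) fun x => (A x).adjugate := by
  intro i j
  refine ((HomP.det_row (A := fun x => (A x).updateRow j (Pi.single i 1))
    (D := fun l => if l = j then 0 else 1) fun l m => ?_).cast ?_).congr fun x =>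
      adjugate_apply _ _ _
  · by_cases hl : l = j
    · subst hl
      simp only [if_true, updateRow_self]
      exact HomP.const _
    · simp only [if_neg hl, updateRow_ne hl]
      exact h l m
  · rw [Finset.sum_ite, Finset.sum_const_zero, zero_add, Finset.sum_const, smul_eq_mul, mul_one,
      Finset.filter_ne', Finset.card_erase_of_mem (Finset.mem_univ _), Finset.card_univ]

end HomM

end Pool.Agent.Lib.MP_6adaea_nt.S
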