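import Pool.Agent.Lib.MP_6adaea_nt.S.Hom
import Pool.Agent.Lib.MP_6adaea_nt.U.RDefs

/-!
Two point jets on an arbitrary ring.
-/

set_option linter.unusedSectionVars false

namespace Pool.Agent.Lib.MP_6adaea_nt.S
open Matrix G Polynomial

variable {n : Type} [Fintype n] [DecidableEq n] {R D : Type} [CommRing R] [CommRing D]

/-- a twisted derivation -/
structure Jet (f g : R →+* D) (κ : R → D) : Prop where
  add : ∀ x y, κ (x + y) = κ x + κ y
  mul : ∀ x y, κ (x * y) = κ x * f y + g x * κ y

/-- the triangular representation attached to a twisted derivation -/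
def Jet.hom {f g : R →+* D} {κ : R → D} (h : Jet f g κ) : R →+* Matrix (Fin 2) (Fin 2) D where
  toFun x := !![f x, 0; κ x, g x]
  map_one' := by
    have h1 : κ 1 = 0 := by simpa using h.mul 1 1
    rw [h1, map_one, map_one, one_fin_two]
  map_mul' x y := by
    rw [mul_fin_two, h.mul, map_mul, map_mul]
    simp
  map_zero' := by
    have h1 : κ 0 = 0 := by simpa using h.add 0 0
    rw [h1, map_zero, map_zero]
    ext i j
    fin_cases i <;> fin_cases j <;> rfl
  map_add' x y := by
    rw [h.add, map_add, map_add]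
    ext i j
    fin_cases i <;> fin_cases j <;> simp

/-- the induced map on matrices -/
def Jet.hat {f g : R →+* D} {κ : R → D} (h : Jet f g κ) :
    Matrix n n R →+* Matrix (n × Fin 2) (n × Fin 2) D :=
  (compRingEquiv n (Fin 2) D).toRingHom.comp h.hom.mapMatrix

lemma Jet.hat_apply {f g : R →+* D} {κ : R → D} (h : Jet f g κ) (A : Matrix n n R)
    (x y : n × Fin 2) : h.hat A x y = h.hom (A x.1 y.1) x.2 y.2 := rfl

lemma cm_entries (t : Fin 2 → D) (a : D[X]) :
    aeval (U.cm t) a 0 0 = a.eval (t 0) ∧ aeval (U.cm t) a 0 1 = 0 ∧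
      aeval (U.cm t) a 1 1 = a.eval (t 1) ∧
      (t 0 = t 1 → aeval (U.cm t) a 1 0 = a.derivative.eval (t 0)) := by
  induction a using Polynomial.induction_on with
  | C c => simp [algebraMap_matrix_apply]
  | add a b ha hb =>
    simp only [map_add, Matrix.add_apply, eval_add, ha.1, hb.1, ha.2.1, hb.2.1, ha.2.2.1, hb.2.2.1,
      add_zero, true_and]
    intro h
    rw [ha.2.2.2 h, hb.2.2.2 h]
  | monomial m c ha =>
    obtain ⟨h1, h2, h3, h4⟩ := ha
    rw [pow_succ, ← mul_assoc]
    generalize C c * X ^ m = a at *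
    simp only [map_mul, aeval_X, mul_apply, Fin.sum_univ_two, h1, h2, h3, eval_mul, eval_X,
      derivative_mul, derivative_X, eval_add, mul_one]
    refine ⟨by simp [U.cm], by simp [U.cm], ?_, fun h => ?_⟩
    · simp [U.cm]
    · rw [h4 h]
      simp [U.cm, h]

section hom
variable {ι : Type} [Fintype ι] [DecidableEq ι]

lemma hom_smul {d : ℕ} {f : Matrix ι ι D → D} (c : D) (h : U.Hom d f) :
    U.Hom d fun g => c * f g := by
  induction h with
  | const a => exact U.Hom.const _
  | mul i j _ ih =>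
    convert U.Hom.mul i j ih using 2
    ring
  | add _ _ ih ih' =>
    convert U.Hom.add ih ih' using 2
    ring

lemma hom_mul {d e : ℕ} {f f' : Matrix ι ι D → D} (h : U.Hom d f) (h' : U.Hom e f') :
    U.Hom (d + e) fun g => f g * f' g := by
  induction h with
  | const a => simpa using hom_smul a h'
  | mul i j _ ih =>
    rw [Nat.add_right_comm]
    simpa only [mul_assoc] using U.Hom.mul i j ih
  | add _ _ ih ih' =>
    convert U.Hom.add ih ih' using 2
    ring

lemma hom_zero [Nonempty ι] (d : ℕ) : U.Hom d fun _ : Matrix ι ι D => 0 := by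
  induction d with
  | zero => exact U.Hom.const 0
  | succ d ih =>
    obtain ⟨i⟩ := ‹Nonempty ι›
    simpa using U.Hom.mul i i ih

lemma HomP.toHom [Nonempty ι] (a b a' b' : n → ι) {d : ℕ} {P : Matrix n n D × Matrix n n D → D}
    (h : HomP d P) : U.Hom d fun g : Matrix ι ι D => P (g.submatrix a b, g.submatrix a' b') := by
  induction h with
  | const c => exact U.Hom.const c
  | fst i j => simpa using U.Hom.mul (a i) (b j) (U.Hom.const (1 : D))
  | snd i j => simpa using U.Hom.mul (a' i) (b' j) (U.Hom.const (1 : D))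
  | zero d => exact hom_zero d
  | add _ _ ih ih' => exact U.Hom.add ih ih'
  | mul _ _ ih ih' => exact hom_mul ih ih'

end hom

theorem DA_of_dense [Nonempty n] [IsDomain D] {Γ : Subgroup (GL n R)} {f g : R →+* D} {κ : R → D}
    (h : Jet f g κ) {t : Fin 2 → D} (ht : t 0 ≠ t 1)
    (hd : ∀ d, U.Dense d t {y | ∃ γ ∈ Γ, y = h.hat γ.val}) : DA Γ f g (t 0 - t 1) := by
  intro d P hP h0 s s' hs hs' hc
  obtain ⟨Z, rfl⟩ := cong_iff.1 hc
  set σ : Matrix n n D[X] := s'.map C + (X - C (t 1)) • Z.map C with hσ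
  have e0 : σ.map (evalRingHom (t 0)) = s' + (t 0 - t 1) • Z := by
    ext i j
    simp [hσ]
  have e1 : σ.map (evalRingHom (t 1)) = s' := by
    ext i j
    simp [hσ]
  have h1 := hd d _ (hP.toHom (fun i => (i, 0)) (fun i => (i, 0)) (fun i => (i, 1)) fun i => (i, 1))
    (by rintro _ ⟨γ, hγ, rfl⟩; exact h0 γ hγ) σ (by
      have r0 : (σ.det - 1).IsRoot (t 0) := by
        have := (evalRingHom (t 0)).map_det σ
        rw [RingHom.mapMatrix_apply, e0, hs] at this
        rw [IsRoot, eval_sub, eval_one, sub_eq_zero]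
        exact this
      have r1 : (σ.det - 1).IsRoot (t 1) := by
        have := (evalRingHom (t 1)).map_det σ
        rw [RingHom.mapMatrix_apply, e1, hs'] at this
        rw [IsRoot, eval_sub, eval_one, sub_eq_zero]
        exact this
      obtain ⟨q, hq⟩ := dvd_iff_isRoot.2 r0
      rw [hq] at r1 ⊢
      refine mul_dvd_mul_left _ (dvd_iff_isRoot.2 ?_)
      rw [IsRoot, eval_mul, eval_sub, eval_X, eval_C] at r1
      exact (mul_eq_zero.1 r1).resolve_left (sub_ne_zero.2 ht.symm))
  rw [← e0, ← e1]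
  convert h1 using 3
  · ext i j
    exact (cm_entries t _).1.symm
  · ext i j
    exact (cm_entries t _).2.2.1.symm

theorem DB_of_dense [Nonempty n] {Γ : Subgroup (GL n R)} {f : R →+* D} {κ : R → D}
    (h : Jet f f κ) {t : Fin 2 → D} (ht : t 0 = t 1)
    (hd : ∀ d, U.Dense d t {y | ∃ γ ∈ Γ, y = h.hat γ.val}) : DB Γ f κ := by
  intro d P hP h0 s Y hs hY
  set σ : Matrix n n D[X] := s.map C * (1 + (X - C (t 0)) • Y.map C) with hσ
  have e : σ = s.map C + (X - C (t 0)) • (s * Y).map C := by
    rw [hσ, Matrix.mul_add, Matrix.mul_one, Matrix.mul_smul, Matrix.map_mul]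
  have h1 := hd d _ (hP.toHom (fun i => (i, 0)) (fun i => (i, 0)) (fun i => (i, 1)) fun i => (i, 0))
    (by rintro _ ⟨γ, hγ, rfl⟩; exact h0 γ hγ) σ (by
      have e1 : (s.map C).det = 1 := by
        rw [← RingHom.mapMatrix_apply, ← RingHom.map_det, hs, map_one]
      have e2 : (Y.map C).trace = 0 := by rw [← AddMonoidHom.map_trace, hY, map_zero]
      rw [hσ, det_mul, e1, one_mul, det_one_add_smul, e2, U.qd, ← ht, ← sq, zero_mul, add_zero,
        add_sub_cancel_left]
      exact dvd_mul_left _ _)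
  convert h1 using 3
  · ext i j
    refine Eq.trans ?_ (cm_entries t _).1.symm
    simp [e]
  · ext i j
    refine Eq.trans ?_ ((cm_entries t _).2.2.2 ht).symm
    simp [e, -Matrix.map_mul]

end Pool.Agent.Lib.MP_6adaea_nt.S
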