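import Pool.Agent.Lib.MP_6adaea_nt.S.Defs

/-!
Layers above a projective seed.
-/

set_option linter.unusedSectionVars false

namespace Pool.Agent.Lib.MP_6adaea_nt.S
open Matrix G

variable {n : Type} [Fintype n] [DecidableEq n] {R : Type} [CommRing R]

lemma Lay_det_inv {κ : GL n R} (hd : κ.val.det = 1) : (κ⁻¹).val.det = 1 := by
  have := congrArg det (Units.mul_inv κ)
  rwa [det_mul, hd, one_mul, det_one] at this

/-- the first order terms of elements of `H` at level `a` -/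
def Lay_U (H : Subgroup (GL n R)) (a : R) : AddSubgroup (Matrix n n R) where
  carrier := {X | ∃ κ ∈ H, κ.val.det = 1 ∧ ∃ Z, κ.val = 1 + a • X + a ^ 2 • Z}
  zero_mem' := ⟨1, H.one_mem, by simp, 0, by simp⟩
  add_mem' := by
    rintro X Y ⟨κ, hκ, hd, Z, hZ⟩ ⟨κ', hκ', hd', W, hW⟩
    refine ⟨κ * κ', H.mul_mem hκ hκ', by rw [Units.val_mul, det_mul, hd, hd', one_mul],
      Z + W + X * Y + a • (X * W) + a • (Z * Y) + a ^ 2 • (Z * W), ?_⟩
    rw [Units.val_mul, hZ, hW]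
    simp only [Matrix.add_mul, Matrix.mul_add, Matrix.one_mul, Matrix.mul_one, Matrix.smul_mul,
      Matrix.mul_smul]
    module
  neg_mem' := by
    rintro X ⟨κ, hκ, hd, Z, hZ⟩
    refine ⟨κ⁻¹, H.inv_mem hκ, Lay_det_inv hd, (X + a • Z) * ((X + a • Z) * (κ⁻¹).val) - Z, ?_⟩
    have h1 := Units.mul_inv κ
    obtain ⟨V, hV⟩ : ∃ V, V = (κ⁻¹).val := ⟨_, rfl⟩
    rw [← hV] at h1 ⊢
    have h2 : V = 1 - a • ((X + a • Z) * V) := by
      rw [← h1, hZ]
      simp only [Matrix.add_mul, Matrix.one_mul, Matrix.smul_mul]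
      module
    calc V = 1 - a • ((X + a • Z) * V) := h2
      _ = 1 - a • ((X + a • Z) * (1 - a • ((X + a • Z) * V))) :=
        congrArg (fun T => 1 - a • ((X + a • Z) * T)) h2
      _ = _ := by
        rw [Matrix.mul_sub, Matrix.mul_one, Matrix.mul_smul]
        module

lemma Lay_comm {H : Subgroup (GL n R)} {a : R} {γ g : GL n R} (hγ : γ ∈ H) (hg : g ∈ H) {z : R}
    {X : Matrix n n R} (hX : γ.val = z • (1 + a • X)) : ad g X - X ∈ Lay_U H a := by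
  have h1 := Units.mul_inv γ
  refine ⟨g * γ * g⁻¹ * γ⁻¹, H.mul_mem (H.mul_mem (H.mul_mem hg hγ) (H.inv_mem hg)) (H.inv_mem hγ),
    ?_, -((ad g X - X) * (X * (z • (γ⁻¹).val))), ?_⟩
  · rw [Units.val_mul, det_mul, Units.val_mul, Units.val_mul, det_units_conj, ← det_mul, h1, det_one]
  · rw [Units.val_mul, ad_val]
    obtain ⟨V, hV⟩ : ∃ V, V = (γ⁻¹).val := ⟨_, rfl⟩
    rw [← hV] at h1 ⊢
    rw [hX] at h1 ⊢
    have h2 : z • V = 1 - a • (X * (z • V)) := by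
      rw [← h1]
      simp only [Matrix.add_mul, Matrix.one_mul, Matrix.smul_mul, Matrix.mul_smul]
      module
    rw [ad_smul, ad_add, ad_id, ad_smul]
    calc z • (1 + a • ad g X) * V = z • (1 + a • X) * V + a • ((ad g X - X) * (z • V)) := by
          simp only [Matrix.add_mul, Matrix.sub_mul, Matrix.one_mul, Matrix.smul_mul,
            Matrix.mul_smul]
          module
      _ = 1 + a • ((ad g X - X) * (1 - a • (X * (z • V)))) := by rw [h1, ← h2]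
      _ = _ := by
          rw [Matrix.mul_sub _ 1, Matrix.mul_one, Matrix.mul_smul _ a]
          module

/-- Let `U` be the set of `Y` with `κ = 1 + a • Y + a ^ 2 • W` for some `κ ∈ H` of determinant one
and some `W`. It is an additive subgroup (inverse: `κ⁻¹ = 1 - N + N ^ 2 κ⁻¹` for `κ = 1 + N`).
If `γ = z (1 + a X)` is the seed then `g γ g⁻¹ γ⁻¹ = 1 + a (ad g X - X) (z γ⁻¹)` and
`z γ⁻¹ = 1 - a X (z γ⁻¹)`, so `ad g X - X ∈ U` and `DS H X ≤ U`. Apply `Wd` with `y ∈ lev X = ⊤`. -/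
theorem seed_step {H : Subgroup (GL n R)} {u v a : R} (hW : Wd H u v) (hs : Seed H a)
    {Y : Matrix n n R} (hY : Y.trace = 0) (y : R) :
    ∃ κ ∈ H, κ.val.det = 1 ∧ ∃ Z W : Matrix n n R,
      κ.val = 1 + (a * u * y) • Y + (a * v) • Z + a ^ 2 • W := by
  obtain ⟨γ, hγ, z, X, hX, hl⟩ := hs
  obtain ⟨Z', h1, h2⟩ := hW X Y hY y (by rw [hl]; trivial)
  obtain ⟨Z, rfl⟩ := cong_iff.1 h2
  have h3 : DS H X ≤ Lay_U H a := (AddSubgroup.closure_le _).2 (by
    rintro _ ⟨g, hg, rfl⟩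
    exact Lay_comm hγ hg hX)
  obtain ⟨κ, hκ, hd, W, hW⟩ := h3 h1
  refine ⟨κ, hκ, hd, Z, W, ?_⟩
  rw [hW]
  module

/-- the layer `l` is complete -/
def Lay_full (H : Subgroup (GL n R)) (ϖ : R) (l : ℕ) : Prop :=
  ∀ Y : Matrix n n R, Y.trace = 0 →
    ∃ κ ∈ H, κ.val.det = 1 ∧ ∃ Z, κ.val = 1 + ϖ ^ l • Y + ϖ ^ (l + 1) • Z

lemma Lay_of_seed {H : Subgroup (GL n R)} {ϖ : R} {c m t : ℕ}
    (hW : Wd H (ϖ ^ c) (ϖ ^ (2 * c + 1))) (hs : Seed H (ϖ ^ m)) (hm : 2 * c + 1 ≤ m) (ht : t ≤ c) :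
    Lay_full H ϖ (m + c + t) := by
  intro Y hY
  obtain ⟨κ, hκ, hd, Z, W, h⟩ := seed_step hW hs hY (ϖ ^ t)
  obtain ⟨d, rfl⟩ := Nat.exists_eq_add_of_le ht
  obtain ⟨e, rfl⟩ := Nat.exists_eq_add_of_le hm
  refine ⟨κ, hκ, hd, ϖ ^ d • Z + ϖ ^ (d + e) • W, ?_⟩
  rw [h]
  module

lemma Lay_seed [Nontrivial n] {H : Subgroup (GL n R)} {ϖ : R} (hϖ : IsNilpotent ϖ) {l : ℕ}
    (h : Lay_full H ϖ l) : Seed H (ϖ ^ l) := by
  obtain ⟨i, j, hij⟩ := exists_pair_ne n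
  obtain ⟨κ, hκ, -, Z, hZ⟩ := h (single i j 1) (trace_single_eq_of_ne i j 1 hij)
  refine ⟨κ, hκ, 1, single i j 1 + ϖ • Z, ?_, ?_⟩
  · rw [hZ, Units.val_one]
    module
  · refine Ideal.eq_top_of_isUnit_mem _ (offdiag_mem_lev _ hij) ?_
    rw [Matrix.add_apply, single_apply_same, Matrix.smul_apply, smul_eq_mul]
    exact ((Commute.all _ _).isNilpotent_mul_right hϖ).isUnit_one_add

lemma Lay_step {H : Subgroup (GL n R)} {ϖ : R} {l : ℕ} (i : n) (hU : Lay_full H ϖ (l + 1))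
    (ih : ∀ γ : GL n R, γ.val.det = 1 → ∀ X : Matrix n n R,
      γ.val = 1 + ϖ ^ (l + 1 + 1) • X → γ ∈ H)
    (γ : GL n R) (hγ : γ.val.det = 1) (X : Matrix n n R) (hX : γ.val = 1 + ϖ ^ (l + 1) • X) :
    γ ∈ H := by
  obtain ⟨z, hz⟩ : ∃ z : R, ϖ ^ (l + 1) * X.trace = z * (ϖ ^ (l + 1)) ^ 2 := by
    rw [hX, det_one_add_smul] at hγ
    generalize (Polynomial.eval _ _ : R) = z at hγ
    exact ⟨-z, by linear_combination hγ⟩
  obtain ⟨κ, hκ, hd, Z, hZ⟩ := hU (X - single i i X.trace) (by simp [trace_sub])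
  have e1 : single i i X.trace = X.trace • (single i i 1 : Matrix n n R) := by
    rw [smul_single, smul_eq_mul, mul_one]
  have h1 : γ.val = κ.val + ϖ ^ (l + 1 + 1) •
      ((z * ϖ ^ l) • (single i i 1 : Matrix n n R) - Z) := by
    have e2 : ϖ ^ (l + 1) • X.trace • (single i i 1 : Matrix n n R) =
        (z * (ϖ ^ (l + 1)) ^ 2) • (single i i 1 : Matrix n n R) := by rw [smul_smul, hz]
    rw [hX, hZ, e1, smul_sub, e2]
    module
  have h2 : γ * κ⁻¹ ∈ H := by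
    refine ih _ ?_ (((z * ϖ ^ l) • (single i i 1 : Matrix n n R) - Z) * (κ⁻¹).val) ?_
    · rw [Units.val_mul, det_mul, hγ, Lay_det_inv hd, one_mul]
    · rw [Units.val_mul, h1, Matrix.add_mul, Units.mul_inv, Matrix.smul_mul]
  simpa using H.mul_mem h2 hκ

/-- Call `l` full if for all `Y` of trace zero some `κ ∈ H` of determinant one has the form
`1 + ϖ ^ l • Y + ϖ ^ (l + 1) • Z`. A seed at `ϖ ^ m`, `β ≤ m`, makes all `l` with
`m + c ≤ l ≤ m + 2 * c` full (`seed_step` with `y = ϖ ^ (l - m - c)`). A full `l` gives a seed at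
`ϖ ^ l` (`Y = single i j 1`, the entry `1 + ϖ * Z i j` is a unit). By strong induction all
`l ≥ β + c` are full (use `m = β` or `m = l - c`). Then descending induction from `ϖ ^ N = 0` as in
`G.thick`: every `γ = 1 + ϖ ^ l • X` of determinant one, `l ≥ β + c`, is in `H`
(`ϖ ^ l * trace X` is a multiple of `(ϖ ^ l) ^ 2` by `Matrix.det_one_add_smul`). -/
theorem lay [Nontrivial n] {H : Subgroup (GL n R)} {ϖ : R} (hϖ : IsNilpotent ϖ) {c β : ℕ}
    (hc : 0 < c) (hβ : 2 * c + 1 ≤ β) (hW : Wd H (ϖ ^ c) (ϖ ^ (2 * c + 1)))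
    (hs : Seed H (ϖ ^ β)) : Roots H {x | ϖ ^ (β + c) ∣ x} := by
  have hf : ∀ l, β + c ≤ l → Lay_full H ϖ l := fun l => by
    induction l using Nat.strong_induction_on with
    | _ l ih =>
      intro hl
      by_cases h : l ≤ β + 2 * c
      · obtain ⟨t, rfl⟩ := Nat.exists_eq_add_of_le hl
        exact Lay_of_seed hW hs hβ (by omega)
      · obtain ⟨m, rfl⟩ : ∃ m, l = m + c + 0 := ⟨l - c, by omega⟩
        exact Lay_of_seed hW (Lay_seed hϖ (ih m (by omega) (by omega))) (by omega) (Nat.zero_le _)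
  rintro i j h x ⟨y, hy⟩
  obtain ⟨N, hN⟩ := id hϖ
  obtain ⟨b, hb⟩ : ∃ b, β + c = b + 1 := ⟨β + c - 1, by omega⟩
  have key : ∀ γ : GL n R, γ.val.det = 1 → ∀ X : Matrix n n R,
      γ.val = 1 + ϖ ^ (b + 1) • X → γ ∈ H := by
    refine Nat.decreasingInduction' (P := fun l => ∀ γ : GL n R, γ.val.det = 1 →
      ∀ X : Matrix n n R, γ.val = 1 + ϖ ^ (l + 1) • X → γ ∈ H) (n := b + N) (m := b)
      (fun k _ hk ih => ?_) (Nat.le_add_right _ _) ?_
    · exact Lay_step i (hf _ (by omega)) ih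
    · intro γ _ X hX
      rw [pow_eq_zero_of_le (by omega) hN, zero_smul, add_zero] at hX
      rw [show γ = 1 from Units.ext hX]
      exact H.one_mem
  refine key _ (rt_det h x) (single i j y) ?_
  rw [rt_val, hy, hb, smul_single, smul_eq_mul]

end Pool.Agent.Lib.MP_6adaea_nt.S
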