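import Pool.Agent.Lib.MP_6adaea_nt.S.Hom

/-!
Consequences of density for the adjoint representation and its character.
-/

set_option linter.unusedSectionVars false

namespace Pool.Agent.Lib.MP_6adaea_nt.S
open Matrix G

variable {n : Type} [Fintype n] [DecidableEq n] {R Ω : Type} [CommRing R] [CommRing Ω]
  [IsDomain Ω]

lemma adj_eq {S : Type} [CommRing S] (g : GL n S) :
    g.val.adjugate = g.val.det • (g⁻¹).val := by
  calc g.val.adjugate = ((g⁻¹).val * g.val) * g.val.adjugate := by
        rw [Units.inv_mul, Matrix.one_mul]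
    _ = _ := by rw [Matrix.mul_assoc, mul_adjugate, Matrix.mul_smul, Matrix.mul_one]

/-- the homogeneous form of the character -/
def pch {S : Type} [CommRing S] (e : ℕ) (A : Matrix n n S) : S :=
  A.trace * A.adjugate.trace - e * A.det

lemma pch_eq (f : R →+* Ω) (g : GL n R) :
    pch (ee n R) (g.val.map f) = (g.val.map f).det * f (chi g) := by
  have h1 : (g.val.map f).det = f g.val.det := (RingHom.map_det f g.val).symm
  have h2 : (g.val.map f).adjugate = g.val.adjugate.map f := (RingHom.map_adjugate f g.val).symm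
  rw [pch, h1, h2, adj_eq, chi, ← AddMonoidHom.map_trace, ← AddMonoidHom.map_trace, trace_smul]
  simp only [map_sub, map_mul, smul_eq_mul, map_natCast]
  ring

lemma det_map_ne (f : R →+* Ω) (g : GL n R) : (g.val.map f).det ≠ 0 :=
  (Matrix.GeneralLinearGroup.det (red f g)).ne_zero

lemma HomM.pch [Nonempty n] {A : Matrix n n Ω × Matrix n n Ω → Matrix n n Ω} (h : HomM 1 A)
    (e : ℕ) : HomP (Fintype.card n) fun x => pch e (A x) := by
  have : 0 < Fintype.card n := Fintype.card_pos
  exact ((h.trace.mul h.adjugate.trace).cast (by omega)).sub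
    ((h.det.cast (mul_one _)).smul (e : Ω))

/-- the test matrix -/
def tm {i j : n} (h : i ≠ j) (x : Ω) : GL n Ω := rt h x * rt h.symm 1

lemma tm_det {i j : n} (h : i ≠ j) (x : Ω) : (tm h x).val.det = 1 := by
  rw [tm, Units.val_mul, det_mul, rt_det, rt_det, one_mul]

lemma tm_val {i j : n} (h : i ≠ j) (x : Ω) :
    (tm h x).val = 1 + single i j x + single j i 1 + single i i x := by
  rw [tm, Units.val_mul, rt_val, rt_val]
  simp only [Matrix.add_mul, Matrix.mul_add, Matrix.one_mul, single_mul_single_same, mul_one]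
  abel

lemma tm_adj {i j : n} (h : i ≠ j) (x : Ω) :
    (tm h x).val.adjugate = 1 - single i j x - single j i 1 + single j j x := by
  rw [adj_eq, tm_det, one_smul, tm, _root_.mul_inv_rev, Units.val_mul, rt_inv_val, rt_inv_val]
  simp only [Matrix.add_mul, Matrix.mul_add, Matrix.mul_one, single_mul_single_same,
    ← single_neg, mul_neg, neg_mul, one_mul]
  abel

lemma tm_trace {i j : n} (h : i ≠ j) (x : Ω) :
    (tm h x).val.trace = Fintype.card n + x := by
  rw [tm_val]
  simp [trace_add, trace_single_eq_of_ne _ _ _ h, trace_single_eq_of_ne _ _ _ h.symm]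

lemma tm_adj_trace {i j : n} (h : i ≠ j) (x : Ω) :
    (tm h x).val.adjugate.trace = Fintype.card n + x := by
  rw [tm_adj]
  simp [trace_add, trace_sub, trace_single_eq_of_ne _ _ _ h, trace_single_eq_of_ne _ _ _ h.symm]

lemma tm_pch {i j : n} (h : i ≠ j) (x : Ω) (e : ℕ) :
    pch e (tm h x).val = (Fintype.card n + x) ^ 2 - e := by
  rw [pch, tm_trace, tm_adj_trace, tm_det]
  ring

lemma poly_natDegree (r e : Ω) (A : ℕ) :
    ((((Polynomial.X + Polynomial.C r) ^ 2 - Polynomial.C e) ^ 2) ^ A).natDegree = 4 * A := by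
  have h : ((Polynomial.X + Polynomial.C r) ^ 2 - Polynomial.C e).natDegree = 2 := by
    rw [Polynomial.natDegree_sub_C, Polynomial.natDegree_pow, Polynomial.natDegree_X_add_C]
  rw [Polynomial.natDegree_pow, Polynomial.natDegree_pow, h]
  ring

theorem DB.exp_eq [Nontrivial n] [Infinite Ω] {Γ : Subgroup (GL n R)} {f : R →+* Ω} {δ : R → Ω}
    (h : DB Γ f δ) {A B : ℕ} (hAB : ∀ γ ∈ Γ, f (chi γ ^ 2) ^ A = f (chi γ ^ 2) ^ B) : A = B := by
  obtain ⟨i, j, hij⟩ := exists_pair_ne n
  have h1 := HomM.pch (HomM.fst (n := n) (Ω := Ω)) (ee n R)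
  have h2 := (HomM.fst (n := n) (Ω := Ω)).det.cast (mul_one _)
  have h3 := h _ _ ((((h1.pow 2).pow A).mul ((h2.pow 2).pow B)).sub
    ((((h1.pow 2).pow B).mul ((h2.pow 2).pow A)).cast (by ring))) (fun γ hγ => by
      have := hAB γ hγ
      rw [map_pow] at this
      simp only [pch_eq, mul_pow, this]
      ring)
  have h4 : (((Polynomial.X + Polynomial.C (Fintype.card n : Ω)) ^ 2 -
      Polynomial.C (ee n R : Ω)) ^ 2) ^ A = (((Polynomial.X + Polynomial.C (Fintype.card n : Ω)) ^ 2 -
      Polynomial.C (ee n R : Ω)) ^ 2) ^ B := by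
    refine Polynomial.funext fun x => ?_
    have := h3 (tm hij x).val 0 (tm_det hij x) (trace_zero _ _)
    simp only [tm_pch, tm_det, one_pow, mul_one, sub_eq_zero] at this
    simpa [add_comm] using this
  have h5 := congrArg Polynomial.natDegree h4
  rw [poly_natDegree, poly_natDegree] at h5
  omega

theorem DA.not_rel [Nontrivial n] [Infinite Ω] {Γ : Subgroup (GL n R)} {f g : R →+* Ω} {u : Ω}
    (hu : u ≠ 0) (h : DA Γ f g u) {A B : ℕ} (hB : B ≠ 0)
    (hAB : ∀ γ ∈ Γ, f (chi γ ^ 2) ^ A = g (chi γ ^ 2) ^ B) : False := by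
  obtain ⟨i, j, hij⟩ := exists_pair_ne n
  have h1 := HomM.pch (HomM.fst (n := n) (Ω := Ω)) (ee n R)
  have h2 := (HomM.fst (n := n) (Ω := Ω)).det.cast (mul_one _)
  have h1' := HomM.pch (HomM.snd (n := n) (Ω := Ω)) (ee n R)
  have h2' := (HomM.snd (n := n) (Ω := Ω)).det.cast (mul_one _)
  have h3 := h _ _ ((((h1.pow 2).pow A).mul ((h2'.pow 2).pow B)).sub
    ((((h1'.pow 2).pow B).mul ((h2.pow 2).pow A)).cast (by ring))) (fun γ hγ => by
      have := hAB γ hγ
      rw [map_pow, map_pow] at this
      simp only [pch_eq, mul_pow, this]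
      ring)
  have h4 : (((Polynomial.X + Polynomial.C (Fintype.card n : Ω)) ^ 2 -
      Polynomial.C (ee n R : Ω)) ^ 2) ^ B =
      Polynomial.C ((pch (ee n R) (tm hij (0 : Ω)).val ^ 2) ^ A) := by
    refine Polynomial.eq_of_infinite_eval_eq _ _ ((Set.infinite_range_of_injective
      (mul_right_injective₀ hu)).mono ?_)
    rintro _ ⟨x, rfl⟩
    have := h3 (tm hij 0).val (tm hij (u * x)).val (tm_det hij 0) (tm_det hij _) (cong_iff.2
      ⟨-single i j x - single i i x, by
        rw [tm_val, tm_val, smul_sub, smul_neg, smul_single, smul_single, smul_eq_mul,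
          single_zero, single_zero]
        abel⟩)
    simp only [tm_pch hij (u * x), tm_det, one_pow, mul_one, sub_eq_zero] at this
    simpa [add_comm] using this.symm
  have h5 := congrArg Polynomial.natDegree h4
  rw [poly_natDegree, Polynomial.natDegree_C] at h5
  omega

lemma eta_eq (η : Module.End R (Matrix n n R) →ₗ[R] R) (T : Module.End R (Matrix n n R)) :
    η T = ∑ c, ∑ d, ∑ a, ∑ b, η ((entryLinearMap R R c d).smulRight (single a b 1)) *
      T (single c d 1) a b := by
  have h : T = ∑ c, ∑ d, ∑ a, ∑ b, T (single c d 1) a b •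
      (entryLinearMap R R c d).smulRight (single a b (1 : R)) := by
    ext1 X
    simp only [LinearMap.coe_sum, Finset.sum_apply, LinearMap.smul_apply,
      LinearMap.smulRight_apply, entryLinearMap_apply]
    conv_lhs => rw [matrix_eq_sum_single X]
    simp only [map_sum]
    refine Finset.sum_congr rfl fun c _ => Finset.sum_congr rfl fun d _ => ?_
    rw [show single c d (X c d) = X c d • single c d (1 : R) by rw [smul_single, smul_eq_mul, mul_one],
      map_smul]
    conv_lhs => rw [matrix_eq_sum_single (T (single c d 1))]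
    simp only [Finset.smul_sum, smul_single, smul_eq_mul, mul_one, mul_comm]
  conv_lhs => rw [h]
  simp only [map_sum, map_smul, smul_eq_mul, mul_comm]

theorem DB.adspan [Nonempty n] {Γ : Subgroup (GL n R)} {f : R →+* Ω} {δ : R → Ω} (h : DB Γ f δ)
    (η : Module.End R (Matrix n n R) →ₗ[R] R) (hη : ∀ γ ∈ Γ, η (adL γ - 1) = 0) (s : GL n R)
    (hs : s.val.det = 1) : f (η (adL s - 1)) = 0 := by
  have : 0 < Fintype.card n := Fintype.card_pos
  let P : Matrix n n Ω × Matrix n n Ω → Ω := fun x => ∑ c, ∑ d, ∑ a, ∑ b,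
    f (η ((entryLinearMap R R c d).smulRight (single a b 1))) *
      (x.1 * single c d (1 : Ω) * x.1.adjugate - x.1.det • single c d (1 : Ω)) a b
  have hP : HomP (Fintype.card n) P :=
    HomP.sum _ fun c _ => HomP.sum _ fun d _ => HomP.sum _ fun a _ => HomP.sum _ fun b _ =>
      HomP.smul _ (((((HomM.fst.mul (HomM.const _)).mul HomM.fst.adjugate).cast (by omega)).sub
        ((HomM.smul HomM.fst.det (HomM.const _)).cast (by omega))) a b)
  have key : ∀ (g : GL n R) (Y : Matrix n n Ω),
      P (g.val.map f, Y) = (g.val.map f).det * f (η (adL g - 1)) := by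
    intro g Y
    rw [eta_eq η]
    simp only [P, map_sum, Finset.mul_sum, map_mul]
    refine Finset.sum_congr rfl fun c _ => Finset.sum_congr rfl fun d _ =>
      Finset.sum_congr rfl fun a _ => Finset.sum_congr rfl fun b _ => ?_
    have e1 : (single c d (1 : R)).map f = single c d 1 := by
      ext u v
      simp [single, apply_ite f]
    have e2 : f ((adL g - 1) (single c d 1) a b) =
        (ad (red f g) (single c d 1) - single c d (1 : Ω)) a b := by
      rw [← e1, ← ad_map, ← Matrix.map_sub _ (map_sub f)]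
      rfl
    have e3 := adj_eq (red f g)
    rw [red_val] at e3
    rw [e2, e3, Matrix.mul_smul, ← smul_sub, ad, red_val, Matrix.smul_apply, smul_eq_mul]
    ring
  have h1 := h _ P hP (fun γ hγ => by rw [key, hη γ hγ, map_zero, mul_zero]) (s.val.map f) 0
    (by rw [← red_val, red_det, hs, map_one]) (trace_zero _ _)
  rw [key] at h1
  exact (mul_eq_zero.1 h1).resolve_left (det_map_ne f s)

end Pool.Agent.Lib.MP_6adaea_nt.S
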