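import Pool.Agent.Lib.MP_6adaea_nt.S.Brg

/-!
Homomorphisms from the completion to power series rings.
-/

set_option linter.unusedSectionVars false

namespace Pool.Agent.Lib.MP_6adaea_nt.S
open Polynomial

variable {k ι : Type} [Field k] [Fintype ι] (P : ι → k[X]) [∀ i, Fact (Irreducible (P i))]

/-- `f (ϖ ^ N * y)` is divisible by `X ^ N`; two power series congruent modulo all `X ^ N` are
equal -/
theorem good_ext [Finite k] (hP : Pairwise fun i j => IsCoprime (P i) (P j)) {F : Type} [Field F]
    {f g : RR (kap P) →+* PowerSeries F} (hf : Good f) (hg : Good g)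
    (h : ∀ a, f (emb P a) = g (emb P a)) : f = g := by
  have key : ∀ (φ : RR (kap P) →+* PowerSeries F), Good φ → ∀ (N : ℕ) (y : RR (kap P)),
      (PowerSeries.X : PowerSeries F) ^ N ∣ φ (pi0 (kap P) ^ N * y) := by
    intro φ hφ N y
    rw [map_mul, map_pow]
    exact (pow_dvd_pow_of_dvd (PowerSeries.X_dvd_iff.2 hφ.1) N).mul_right _
  refine RingHom.ext fun x => ?_
  rw [← sub_eq_zero]
  refine PowerSeries.ext fun m => ?_
  obtain ⟨a, y, hy⟩ := emb_dense P hP (m + 1) x
  have hx : x = emb P a + pi0 (kap P) ^ (m + 1) * y := by rw [← hy]; abel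
  have hd : (PowerSeries.X : PowerSeries F) ^ (m + 1) ∣ f x - g x := by
    rw [hx, map_add, map_add, h a, add_sub_add_left_eq_sub]
    exact (key f hf _ y).sub (key g hg _ y)
  rw [map_zero]
  exact PowerSeries.X_pow_dvd_iff.1 hd m (Nat.lt_succ_self m)

lemma Twi_range {k D : Type} [Field k] [Fintype k] [CommRing D] [IsDomain D] (α β : k →+* D)
    (c : k) : ∃ a, α a = β c := by
  classical
  have hm : (X ^ Fintype.card k - X : k[X]).Monic :=
    (monic_X_pow _).sub_of_left (by
      rw [degree_X, degree_X_pow]; exact_mod_cast Fintype.one_lt_card)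
  have hc : (X ^ Fintype.card k - X : k[X]).roots.card =
      (X ^ Fintype.card k - X : k[X]).natDegree := by
    rw [FiniteField.roots_X_pow_card_sub_X,
      FiniteField.X_pow_card_sub_X_natDegree_eq _ Fintype.one_lt_card]
    rfl
  have hp := prod_multiset_X_sub_C_of_monic_of_roots_card_eq hm hc
  rw [FiniteField.roots_X_pow_card_sub_X] at hp
  have hp' : ∏ a : k, (X - C a) = (X ^ Fintype.card k - X : k[X]) := hp
  have h0 := congrArg (eval₂RingHom α (β c)) hp'
  rw [map_prod] at h0
  simp only [coe_eval₂RingHom, eval₂_sub, eval₂_X, eval₂_C, eval₂_pow] at h0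
  rw [← map_pow, FiniteField.pow_card, sub_self, Finset.prod_eq_zero_iff] at h0
  obtain ⟨a, -, ha⟩ := h0
  exact ⟨a, (sub_eq_zero.1 ha).symm⟩

/-- Both ranges are the set of roots of `Z ^ q - Z` in `D` (`q` different roots of a polynomial of
degree `q`; `FiniteField.roots_X_pow_card_sub_X`, `Polynomial.Splits`). So `β = α ∘ θ` for a ring
endomorphism `θ` of `k`, which is a power of Frobenius
(`FiniteField.bijective_frobeniusAlgHom_pow` over `ZMod p`, `card k = p ^ finrank`). -/
theorem exists_twist (p : ℕ) [Fact p.Prime] {k D : Type} [Field k] [Finite k] [CharP k p]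
    [CommRing D] [IsDomain D] (α β : k →+* D) :
    ∃ j : ℕ, p ^ j < Nat.card k ∧ ∀ c, α c ^ p ^ j = β c := by
  classical
  let _ : Fintype k := Fintype.ofFinite k
  have hsur : ∀ c, ∃ a, α a = β c := Twi_range α β
  choose θ hθ using hsur
  have hα : Function.Injective α := α.injective
  let _ : Algebra (ZMod p) k := ZMod.algebra k p
  let θ' : k →+* k :=
    { toFun := θ
      map_one' := hα (by rw [hθ, map_one, map_one])
      map_mul' := fun x y => hα (by rw [map_mul, hθ, hθ, hθ, map_mul])
      map_zero' := hα (by rw [hθ, map_zero, map_zero])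
      map_add' := fun x y => hα (by rw [map_add, hθ, hθ, hθ, map_add]) }
  let θ'' : k →ₐ[ZMod p] k :=
    { θ' with
      commutes' := fun r =>
        RingHom.congr_fun (RingHom.ext_zmod (θ'.comp (algebraMap (ZMod p) k))
          (algebraMap (ZMod p) k)) r }
  obtain ⟨n, hn⟩ := (FiniteField.bijective_frobeniusAlgHom_pow (ZMod p) k).2 θ''
  refine ⟨n.1, ?_, fun c => ?_⟩
  · rw [Nat.card_eq_fintype_card, Module.card_eq_pow_finrank (K := ZMod p) (V := k), ZMod.card]
    exact Nat.pow_lt_pow_right (Fact.out : p.Prime).one_lt n.2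
  · have h1 : (FiniteField.frobeniusAlgHom (ZMod p) k ^ n.1) c = θ c := DFunLike.congr_fun hn c
    rw [AlgHom.coe_pow, FiniteField.coe_frobeniusAlgHom, pow_iterate, ZMod.card] at h1
    rw [← hθ c, ← h1, map_pow]

/-- `AdjoinRoot (P i)` is algebraic over `k`: `IsAlgClosed.lift`; take `PowerSeries.map` of it
after the projection; `PowerSeries.map_injective`. -/
theorem exists_std {F : Type} [Field F] [Algebra k F] [IsAlgClosed F] (i : ι) :
    ∃ e : PowerSeries (kap P i) →+* PowerSeries F, Function.Injective e ∧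
      e PowerSeries.X = PowerSeries.X ∧
      ∀ c : k, e (PowerSeries.C (AdjoinRoot.of (P i) c)) = algebraMap k _ c := by
  have : Module.Finite k (AdjoinRoot (P i)) :=
    (AdjoinRoot.powerBasis (Fact.out : Irreducible (P i)).ne_zero).finite
  let l : AdjoinRoot (P i) →ₐ[k] F := IsAlgClosed.lift
  refine ⟨PowerSeries.map (l : AdjoinRoot (P i) →+* F),
    PowerSeries.map_injective _ (l : AdjoinRoot (P i) →+* F).injective, PowerSeries.map_X _,
    fun c => ?_⟩
  rw [PowerSeries.map_C, PowerSeries.algebraMap_apply]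
  congr 1
  exact l.commutes c

end Pool.Agent.Lib.MP_6adaea_nt.S
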