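import Pool.Agent.Lib.MP_6adaea_nt.S.Jet
import Pool.Agent.Lib.MP_6adaea_nt.S.Twi
import Pool.Agent.Lib.MP_6adaea_nt.S.DerB
import Pool.Agent.Lib.MP_6adaea_nt.S.DerD
import Pool.Agent.Lib.MP_6adaea_nt.S.Core

/-!
Density excludes all relations.
-/

set_option linter.unusedSectionVars false

namespace Pool.Agent.Lib.MP_6adaea_nt.S
open Matrix G Polynomial

variable {n : Type} [Fintype n] [DecidableEq n] {k ι : Type} [Field k] [Finite k] [Fintype ι]
  (P : ι → k[X]) [∀ i, Fact (Irreducible (P i))] {F : Type} [Field F] [Algebra k F]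

/-- homomorphisms which are linear over the constants -/
def Lin (f : RR (kap P) →+* PowerSeries F) : Prop :=
  ∀ c : k, f (emb P (C c)) = algebraMap k _ c

variable (F) in
/-- all admissible jets of `Γ` are dense -/
def Den (Γ : Subgroup (GL n (RR (kap P)))) : Prop :=
  ∀ (f g : RR (kap P) →+* PowerSeries F) (κ : RR (kap P) → PowerSeries F) (h : Jet f g κ),
    Good f → Good g → Lin P f → Lin P g → κ (emb P X) = 1 → (∀ c : k, κ (emb P (C c)) = 0) →
    U.Adm k ![f (emb P X), g (emb P X)] →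
    ∀ d, U.Dense d ![f (emb P X), g (emb P X)] {y | ∃ γ ∈ Γ, y = h.hat γ.val}

/-- the derivative at all components -/
noncomputable def dd (x : RR (kap P)) : RR (kap P) := fun i => PowerSeries.derivative _ (x i)

variable {P}

lemma dd_add (x y : RR (kap P)) : dd P (x + y) = dd P x + dd P y := funext fun _ => map_add _ _ _

lemma dd_mul (x y : RR (kap P)) : dd P (x * y) = x * dd P y + y * dd P x :=
  funext fun _ => Derivation.leibniz _ _ _

lemma dd_emb (a : k[X]) : dd P (emb P a) = emb P (derivative a) := funext (emb_deriv P a)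

lemma Lin.emb_eq {f : RR (kap P) →+* PowerSeries F} (hf : Lin P f) (a : k[X]) :
    f (emb P a) = aeval (f (emb P X)) a := by
  have : f.comp (emb P) = (aeval (f (emb P X)) : k[X] →ₐ[k] PowerSeries F).toRingHom :=
    Polynomial.ringHom_ext (fun c => by simpa using hf c) (by simp)
  exact DFunLike.congr_fun this a

lemma nonconst (hP : Pairwise fun i j => IsCoprime (P i) (P j))
    {f : RR (kap P) →+* PowerSeries F} (hg : Good f) (hf : Lin P f) (c : F) :
    f (emb P X) ≠ PowerSeries.C c := by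
  intro h
  obtain ⟨u, hu⟩ := emb_pi P hP
  have h1 := hf.emb_eq (∏ i, P i)
  have h2 : (PowerSeries.C c : PowerSeries F) = algebraMap F _ c := rfl
  rw [h, h2, aeval_algebraMap_apply, hu, map_mul] at h1
  have h3 := congrArg PowerSeries.constantCoeff h1
  rw [map_mul, hg.1, mul_zero] at h3
  have h4 : aeval c (∏ i, P i) = 0 := by simpa using h3.symm
  rw [h4, map_zero] at h1
  exact hg.2 ((mul_eq_zero.1 h1).resolve_left (u.isUnit.map f).ne_zero)

lemma Den.db (hP : Pairwise fun i j => IsCoprime (P i) (P j)) [Nonempty n]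
    {Γ : Subgroup (GL n (RR (kap P)))} (h : Den P F Γ) {f : RR (kap P) →+* PowerSeries F}
    (hg : Good f) (hf : Lin P f) : DB Γ f fun x => f (dd P x) := by
  have hj : Jet f f fun x => f (dd P x) :=
    ⟨fun x y => by rw [dd_add, map_add], fun x y => by rw [dd_mul, map_add, map_mul, map_mul]; ring⟩
  refine DB_of_dense hj (t := ![f (emb P X), f (emb P X)]) rfl (h f f _ hj hg hg hf hf ?_ ?_ ?_)
  · simp [dd_emb]
  · simp [dd_emb]
  · refine ⟨fun i c => ?_, Or.inl rfl⟩
    fin_cases i <;> exact nonconst hP hg hf c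

lemma good_dvd {κ : ι → Type} [∀ i, Field (κ i)] {f : RR κ →+* PowerSeries F} (hg : Good f)
    (N : ℕ) {x : RR κ} (hx : pi0 κ ^ N ∣ x) : (PowerSeries.X : PowerSeries F) ^ N ∣ f x := by
  refine (pow_dvd_pow_of_dvd (PowerSeries.X_dvd_iff.2 hg.1) N).trans ?_
  rw [← map_pow]
  exact map_dvd f hx

lemma Den.da (hP : Pairwise fun i j => IsCoprime (P i) (P j)) [Nonempty n]
    {Γ : Subgroup (GL n (RR (kap P)))} (h : Den P F Γ) {f g : RR (kap P) →+* PowerSeries F}
    (hg : Good f) (hg' : Good g) (hf : Lin P f) (hf' : Lin P g)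
    (hu : ∀ u : ℕ, g (emb P X) ≠ f (emb P X) ^ Nat.card k ^ u ∧
      f (emb P X) ≠ g (emb P X) ^ Nat.card k ^ u) : DA Γ f g (f (emb P X) - g (emb P X)) := by
  have h0 : f (emb P X) - g (emb P X) ≠ 0 := sub_ne_zero.2 (by simpa using (hu 0).2)
  have h1 : ∀ x, f (emb P X) - g (emb P X) ∣ f x - g x := fun x => by
    obtain ⟨m, w, hw⟩ := IsDiscreteValuationRing.eq_unit_mul_pow_irreducible h0
      PowerSeries.X_irreducible
    obtain ⟨a, ha⟩ := emb_dense P hP m x
    have e1 : f (emb P X) - g (emb P X) ∣ PowerSeries.X ^ m := by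
      rw [hw]
      exact Units.mul_left_dvd.2 dvd_rfl
    have e2 : f (emb P X) - g (emb P X) ∣ f (emb P a) - g (emb P a) := by
      rw [hf.emb_eq a, hf'.emb_eq a, ← eval_map_algebraMap, ← eval_map_algebraMap]
      exact sub_dvd_eval_sub _ _ _
    have e3 := ((e1.trans (good_dvd hg m ha)).sub (e1.trans (good_dvd hg' m ha))).add e2
    convert e3 using 1
    simp only [map_sub]
    ring
  choose κ hκ using h1
  have hj : Jet f g κ := by
    refine ⟨fun x y => mul_left_cancel₀ h0 ?_, fun x y => mul_left_cancel₀ h0 ?_⟩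
    · rw [mul_add, ← hκ, ← hκ, ← hκ, map_add, map_add]
      ring
    · rw [← hκ, map_mul, map_mul]
      linear_combination f y * hκ x + g x * hκ y
  refine DA_of_dense hj (t := ![f (emb P X), g (emb P X)]) (sub_ne_zero.1 h0)
    (h f g _ hj hg hg' hf hf' (mul_left_cancel₀ h0 ?_) (fun c => mul_left_cancel₀ h0 ?_)
      ⟨fun i c => ?_, Or.inr hu⟩)
  · rw [← hκ, mul_one]
  · rw [← hκ, hf c, hf' c, sub_self, mul_zero]
  · fin_cases i
    exacts [nonconst hP hg hf c, nonconst hP hg' hf' c]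

/-- a Frobenius twist -/
noncomputable def tw (p : ℕ) [Fact p.Prime] [CharP F p] {R : Type} [CommRing R]
    (f : R →+* PowerSeries F) (j : ℕ) : R →+* PowerSeries F :=
  haveI : CharP (PowerSeries F) p := charP_of_injective_algebraMap' F p
  (iterateFrobenius (PowerSeries F) p j).comp f

lemma tw_apply (p : ℕ) [Fact p.Prime] [CharP F p] {R : Type} [CommRing R]
    (f : R →+* PowerSeries F) (j : ℕ) (x : R) : tw p f j x = f x ^ p ^ j := rfl

lemma Good.tw (p : ℕ) [Fact p.Prime] [CharP F p] {κ : ι → Type} [∀ i, Field (κ i)]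
    {f : RR κ →+* PowerSeries F} (hg : Good f) (j : ℕ) : Good (tw p f j) :=
  ⟨by rw [tw_apply, map_pow, hg.1, zero_pow (pow_ne_zero _ (Fact.out : p.Prime).ne_zero)],
    pow_ne_zero _ hg.2⟩

lemma pow_rel (hP : Pairwise fun i j => IsCoprime (P i) (P j)) (p : ℕ) [Fact p.Prime] [CharP k p]
    [CharP F p] {f g : RR (kap P) →+* PowerSeries F} (hg : Good f) (hg' : Good g) (hf : Lin P f)
    (hf' : Lin P g) {u : ℕ} (h : g (emb P X) = f (emb P X) ^ Nat.card k ^ u) (x : RR (kap P)) :
    g x = f x ^ Nat.card k ^ u := by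
  have := Fintype.ofFinite k
  obtain ⟨m, -, hm⟩ := FiniteField.card k p
  have e : Nat.card k ^ u = p ^ (m * u) := by rw [Nat.card_eq_fintype_card, hm, pow_mul]
  have hl : Lin P (tw p f (m * u)) := fun c => by
    rw [tw_apply, hf c, ← map_pow, ← e, Nat.card_eq_fintype_card, FiniteField.pow_card_pow]
  have h1 : g = tw p f (m * u) := good_ext P hP hg' (hg.tw p _) fun a => by
    rw [hf'.emb_eq, hl.emb_eq, h, tw_apply, e]
  rw [h1, tw_apply, e]

theorem Den.ext (hP : Pairwise fun i j => IsCoprime (P i) (P j)) [Nontrivial n] [Infinite F]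
    (p : ℕ) [Fact p.Prime] [CharP k p] [CharP F p] {Γ : Subgroup (GL n (RR (kap P)))}
    (h : Den P F Γ) (f g : RR (kap P) →+* PowerSeries F) (hg : Good f) (hg' : Good g)
    (hr : ∀ γ ∈ Γ, f (chi γ ^ 2) = g (chi γ ^ 2)) : f = g := by
  have hp : p.Prime := Fact.out
  have : Infinite (PowerSeries F) := Infinite.of_injective _ PowerSeries.C_injective
  have : CharP (PowerSeries F) p := charP_of_injective_algebraMap' F p
  obtain ⟨a, ha, ea⟩ := exists_twist p ((f.comp (emb P)).comp C) (algebraMap k (PowerSeries F))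
  obtain ⟨b, hb, eb⟩ := exists_twist p ((g.comp (emb P)).comp C) (algebraMap k (PowerSeries F))
  have hf : Lin P (tw p f a) := ea
  have hf' : Lin P (tw p g b) := eb
  have hr' : ∀ γ ∈ Γ, tw p f a (chi γ ^ 2) ^ p ^ b = tw p g b (chi γ ^ 2) ^ p ^ a := fun γ hγ => by
    rw [tw_apply, tw_apply, hr γ hγ, ← pow_mul, ← pow_mul, mul_comm]
  have key : ∀ {f g : RR (kap P) →+* PowerSeries F} {a b : ℕ}, p ^ b < Nat.card k → Good f →
      Good g → Lin P (tw p f a) → Lin P (tw p g b) →
      (∀ γ ∈ Γ, tw p f a (chi γ ^ 2) ^ p ^ b = tw p g b (chi γ ^ 2) ^ p ^ a) → ∀ u : ℕ,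
      tw p g b (emb P X) = tw p f a (emb P X) ^ Nat.card k ^ u → f = g := by
    intro f g a b hb hg hg' hf hf' hr' u hu
    have h1 := pow_rel hP p (hg.tw p a) (hg'.tw p b) hf hf' hu
    have h2 : p ^ b = Nat.card k ^ u * p ^ a := (h.db hP (hg.tw p a) hf).exp_eq fun γ hγ => by
      rw [hr' γ hγ, h1, ← pow_mul]
    obtain rfl : u = 0 := by
      by_contra h0
      have h3 : Nat.card k ≤ Nat.card k ^ u := Nat.le_self_pow h0 _
      have h4 : 0 < p ^ a := pow_pos hp.pos a
      nlinarith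
    rw [pow_zero, one_mul] at h2
    obtain rfl : b = a := Nat.pow_right_injective hp.two_le h2
    refine RingHom.ext fun x => iterateFrobenius_inj (PowerSeries F) p b ?_
    simpa [tw_apply, iterateFrobenius_def] using (h1 x).symm
  by_contra hne
  refine (h.da hP (hg.tw p a) (hg'.tw p b) hf hf' fun u => ⟨fun e => hne ?_, fun e => hne ?_⟩).not_rel
    (sub_ne_zero.2 fun e => hne ?_) (pow_ne_zero a hp.ne_zero) hr'
  · exact key hb hg hg' hf hf' hr' u e
  · exact (key ha hg' hg hf' hf (fun γ hγ => (hr' γ hγ).symm) u e).symm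
  · exact key hb hg hg' hf hf' hr' 0 (by simpa using e.symm)

lemma exists_lin [IsAlgClosed F] (i : ι) : ∃ f : RR (kap P) →+* PowerSeries F,
    Good f ∧ Lin P f ∧ ∀ x, f x = 0 ↔ x i = 0 := by
  obtain ⟨e, h1, h2, h3⟩ := exists_std P (F := F) i
  refine ⟨e.comp (Pi.evalRingHom _ i), ⟨?_, ?_⟩, fun c => ?_, fun x => map_eq_zero_iff e h1⟩
  · simp [h2]
  · simp [h2]
  · simpa [emb_C] using h3 c

theorem Den.core (hP : Pairwise fun i j => IsCoprime (P i) (P j)) [Nontrivial n] [IsAlgClosed F]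
    {Γ : Subgroup (GL n (RR (kap P)))} (h : Den P F Γ) (C : ℕ)
    (hdet : ∀ (N : ℕ) (u : Fin (C + 1) → (RR (kap P))ˣ), ∃ l l', l ≠ l' ∧ ∃ γ ∈ Γ,
      pi0 (kap P) ^ N ∣ (u l : RR (kap P)) - u l' * γ.val.det) :
    ∃ b N : ℕ, ∀ (S : Type) [CommRing S] (π : RR (kap P) →+* S), Function.Surjective π →
      IsNilpotent (π (pi0 _)) → ∀ H : Subgroup (GL n S),
      (∀ g ∈ Γ, ∃ g' ∈ H, Cong (π (pi0 _ ^ N)) (g.val.map π) g'.val) →
      Roots H {x | π (pi0 _) ^ b ∣ x} := by
  obtain ⟨p, hp⟩ := CharP.exists k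
  have : Fact p.Prime := ⟨CharP.char_is_prime k p⟩
  have : CharP F p := charP_of_injective_algebraMap' k p
  have : ∀ i, CharP (kap P i) p := fun i => charP_of_injective_algebraMap' k p
  have : ∀ i, Finite (kap P i) := fun i => by
    have := (AdjoinRoot.powerBasis (Fact.out : Irreducible (P i)).ne_zero).finite
    exact Module.finite_of_finite k
  have : Infinite (PowerSeries F) := Infinite.of_injective _ PowerSeries.C_injective
  refine S.core p (kap P) F Γ (fun η hη g hg => funext fun i => ?_) (fun i => ?_) (h.ext hP p)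
  · obtain ⟨f, h1, h2, h3⟩ := exists_lin (P := P) (F := F) i
    exact (h3 _).1 ((h.db hP h1 h2).adspan η hη g hg)
  · obtain ⟨f, h1, h2, h3⟩ := exists_lin (P := P) (F := F) i
    by_contra hc
    push Not at hc
    have ha : ∀ x y, f (dd P (x + y)) = f (dd P x) + f (dd P y) := fun x y => by
      rw [dd_add, map_add]
    have hm : ∀ x y, f (dd P (x * y)) = f x * f (dd P y) + f y * f (dd P x) := fun x y => by
      rw [dd_mul, map_add, map_mul, map_mul]
    obtain ⟨⟨h4, h5⟩, h6⟩ := (h.db hP h1 h2).der_chi ha hm fun γ hγ γ' hγ' =>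
      (h3 _).2 (hc γ hγ γ' hγ')
    have h7 : (2 : RR (kap P)) = 0 := by
      have := cast_unit_or_zero p (kap P) 2
      rw [Nat.cast_ofNat] at this
      exact this.resolve_left fun hu => (hu.map f).ne_zero (by rw [map_ofNat, h5])
    have h8 : (2 : kap P i) = 0 := by
      have := congrArg (fun x : RR (kap P) => PowerSeries.constantCoeff (x i)) h7
      simpa only [Pi.ofNat_apply, map_ofNat, Pi.zero_apply, map_zero] using this
    obtain ⟨γ, hγ, e⟩ := det_der (kap P) Γ C hdet i h8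
    exact e ((h3 _).1 ((h.db hP h1 h2).der_det ha hm h4 h7 h6 γ hγ))

end Pool.Agent.Lib.MP_6adaea_nt.S
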