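import Mathlib

/-!
A power series ring over a finite field as an algebra over a subring of power series.
-/

set_option linter.unusedSectionVars false

namespace Pool.Agent.Lib.MP_6adaea_nt.S
open PowerSeries

/-- Substitution: `PowerSeries.substAlgHom` (`HasSubst.of_constantCoeff_zero'`). -/
theorem exists_subst (p : ℕ) [Fact p.Prime] {κ : Type} [Field κ] [CharP κ p] (s : κ⟦X⟧)
    (hs : constantCoeff s = 0) : ∃ φ : (ZMod p)⟦X⟧ →+* κ⟦X⟧, φ X = s := by
  let : Algebra (ZMod p) κ := ZMod.algebra κ p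
  have h := HasSubst.of_constantCoeff_zero' hs
  exact ⟨(substAlgHom (R := ZMod p) h).toRingHom, substAlgHom_X h⟩

/-- Write `a = X ^ m * unit` (`PowerSeries.X_pow_order_mul_divXPowOrder`). -/
theorem subst_injective (p : ℕ) [Fact p.Prime] {κ : Type} [Field κ] (φ : (ZMod p)⟦X⟧ →+* κ⟦X⟧)
    (h0 : φ X ≠ 0) : Function.Injective φ := by
  rw [injective_iff_map_eq_zero]
  intro a ha
  by_contra hne
  rw [← X_pow_order_mul_divXPowOrder (f := a), map_mul, map_pow] at ha
  exact mul_ne_zero (pow_ne_zero _ h0) ((isUnit_divided_by_X_pow_order hne).map φ).ne_zero ha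

lemma Sub_step {κ : Type} [Field κ] {s : κ⟦X⟧} (h0 : s ≠ 0) : ∃ (d : ℕ)
    (b : (Fin d → κ) → κ⟦X⟧), ∀ x : κ⟦X⟧, ∃ c y, x = b c + s * y := by
  refine ⟨s.order.toNat, fun c => mk fun j => if h : j < s.order.toNat then c ⟨j, h⟩ else 0,
    fun x => ⟨fun j => coeff j x, ?_⟩⟩
  obtain ⟨u, hu⟩ := isUnit_divided_by_X_pow_order h0
  have h1 : s ∣ X ^ s.order.toNat := ⟨u⁻¹.val, by
    conv_rhs => rw [← X_pow_order_mul_divXPowOrder (f := s), ← hu]
    rw [mul_assoc, Units.mul_inv, mul_one]⟩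
  obtain ⟨y, hy⟩ := h1.trans (X_pow_dvd_iff.2 fun m hm => by simp [hm] :
    X ^ s.order.toNat ∣ x - mk fun j => if j < s.order.toNat then coeff j x else 0)
  exact ⟨y, by rw [← hy]; simp⟩

/-- `s = φ X = X ^ d * unit`, `d > 0`. The finitely many `c X ^ j` (`c ∈ κ`, `j < d`) generate
`κ⟦X⟧` modulo `s`; iterate: `x = ∑ t, (∑_{l < N} a t l s ^ l) t + s ^ N x_N` with `a t l ∈ ZMod p`,
and `x - ∑ t, φ (mk (a t)) t` is divisible by all `X ^ N`. (In fact one may take
`x = ∑_l s ^ l t_l` with `t_l` in the finite set of polynomials of degree `< d`, and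
`a t l = [t_l = t]`.) -/
theorem subst_finite (p : ℕ) [Fact p.Prime] {κ : Type} [Field κ] [Finite κ]
    (φ : (ZMod p)⟦X⟧ →+* κ⟦X⟧) (h0 : φ X ≠ 0) (hs : constantCoeff (φ X) = 0) : φ.Finite := by
  classical
  obtain ⟨d, b, hb⟩ := Sub_step h0
  choose cf nx hnx using hb
  let := Fintype.ofFinite (Fin d → κ)
  let := φ.toAlgebra
  refine ⟨Submodule.fg_def.2 ⟨Set.range b, Set.finite_range b, eq_top_iff.2 fun x _ => ?_⟩⟩
  have h1 : ∀ N, x = ∑ l ∈ Finset.range N, φ X ^ l * b (cf (nx^[l] x)) + φ X ^ N * nx^[N] x := by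
    intro N
    induction N with
    | zero => simp
    | succ N ih =>
      rw [Finset.sum_range_succ, Function.iterate_succ_apply', pow_succ, mul_assoc, add_assoc,
        ← mul_add, ← hnx]
      exact ih
  let a : (Fin d → κ) → (ZMod p)⟦X⟧ := fun t => mk fun l => if cf (nx^[l] x) = t then 1 else 0
  have h2 : ∀ N t, φ X ^ N ∣ φ (a t) -
      ∑ l ∈ Finset.range N, if cf (nx^[l] x) = t then φ X ^ l else 0 := by
    intro N t
    have : X ^ N ∣ a t - ∑ l ∈ Finset.range N, if cf (nx^[l] x) = t then X ^ l else 0 := by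
      refine X_pow_dvd_iff.2 fun m hm => ?_
      rw [map_sub, map_sum, Finset.sum_eq_single m]
      · simp only [a, coeff_mk]
        split_ifs <;> simp
      · intro l _ hl
        split_ifs
        · rw [coeff_X_pow, if_neg hl.symm]
        · simp
      · intro h
        exact absurd (Finset.mem_range.2 hm) h
    have h3 := map_dvd φ this
    rw [map_pow, map_sub, map_sum] at h3
    simpa only [apply_ite φ, map_pow, map_zero] using h3
  have h3 : ∀ N, φ X ^ N ∣ x - ∑ t, φ (a t) * b t := by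
    intro N
    have e : ∑ l ∈ Finset.range N, φ X ^ l * b (cf (nx^[l] x)) =
        ∑ t, (∑ l ∈ Finset.range N, if cf (nx^[l] x) = t then φ X ^ l else 0) * b t := by
      simp only [Finset.sum_mul, ite_mul, zero_mul]
      rw [Finset.sum_comm]
      simp
    have e2 : x - ∑ t, φ (a t) * b t = φ X ^ N * nx^[N] x - ∑ t, (φ (a t) -
        ∑ l ∈ Finset.range N, if cf (nx^[l] x) = t then φ X ^ l else 0) * b t := by
      simp only [sub_mul, Finset.sum_sub_distrib]
      rw [← e]
      linear_combination h1 N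
    rw [e2]
    exact (dvd_mul_right _ _).sub (Finset.dvd_sum fun t _ => (h2 N t).mul_right _)
  have h4 : x = ∑ t, φ (a t) * b t := by
    rw [← sub_eq_zero]
    ext n
    exact X_pow_dvd_iff.1 ((pow_dvd_pow_of_dvd (X_dvd_iff.2 hs) (n + 1)).trans (h3 (n + 1))) n
      n.lt_succ_self
  rw [h4]
  exact Submodule.sum_mem _ fun t _ =>
    Submodule.smul_mem _ (a t) (Submodule.subset_span ⟨t, rfl⟩)

end Pool.Agent.Lib.MP_6adaea_nt.S
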