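import Pool.Agent.Lib.MP_6adaea_nt.S.Defs

/-!
Transfer to approximating groups.
-/

set_option linter.unusedSectionVars false

namespace Pool.Agent.Lib.MP_6adaea_nt.S
open Matrix G

variable {n : Type} [Fintype n] [DecidableEq n] {R : Type} [CommRing R]

lemma Trans_lev {S : Type} [CommRing S] (f : R →+* S) (X : Matrix n n R) :
    lev (X.map f) = (lev X).map f :=
  le_antisymm (lev_le_iff.2 ⟨fun _ _ h => Ideal.mem_map_of_mem f (offdiag_mem_lev X h),
    fun i j => by simpa using Ideal.mem_map_of_mem f (diag_mem_lev X i j)⟩)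
    (Ideal.map_le_iff_le_comap.2 (lev_le_iff.2 ⟨fun _ _ h => offdiag_mem_lev (X.map f) h,
      fun i j => by simpa using diag_mem_lev (X.map f) i j⟩))

lemma Trans_cong {v : R} {X Y : Matrix n n R} : Cong v X Y ↔
    X.map (Ideal.Quotient.mk (Ideal.span {v})) = Y.map (Ideal.Quotient.mk (Ideal.span {v})) := by
  simp only [Cong, ← Matrix.ext_iff, map_apply, Ideal.Quotient.eq, Ideal.mem_span_singleton]

lemma Trans_ad {v : R} {g g' : GL n R} (h : Cong v g.val g'.val) (X : Matrix n n R) :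
    Cong v (ad g X) (ad g' X) := by
  rw [Trans_cong] at h ⊢
  rw [ad_map, ad_map, show red _ g = red _ g' from Units.ext h]

lemma Trans_nil {X Z : Matrix n n R} {c : R} (hc : IsNilpotent c) (h : lev X = ⊤) :
    lev (X + c • Z) = ⊤ := by
  have h0 : ∀ r, c * r ∈ lev (X + c • Z) ⊔ Ideal.span {c} := fun r =>
    Ideal.mem_sup_right (Ideal.mem_span_singleton.2 ⟨r, rfl⟩)
  have h1 : lev X ≤ lev (X + c • Z) ⊔ Ideal.span {c} := lev_le_iff.2 ⟨fun i j hij => by
    simpa using sub_mem (Ideal.mem_sup_left (offdiag_mem_lev (X + c • Z) hij)) (h0 (Z i j)),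
    fun i j => by
      convert sub_mem (Ideal.mem_sup_left (diag_mem_lev (X + c • Z) i j)) (h0 (Z i i - Z j j))
        using 1
      simp only [Matrix.add_apply, Matrix.smul_apply, smul_eq_mul]
      ring⟩
  obtain ⟨x, hx, y, hy, e⟩ := Submodule.mem_sup.1 (h1 (h ▸ Submodule.mem_top : (1 : R) ∈ lev X))
  obtain ⟨r, rfl⟩ := Ideal.mem_span_singleton.1 hy
  exact Ideal.eq_top_of_isUnit_mem _ hx
    (eq_sub_of_add_eq e ▸ ((Commute.all c r).isNilpotent_mul_right hc).isUnit_one_sub)

/-- Transfer along a surjection `f` to a group which approximates the image of `Γ` modulo `f v`.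
Lift `X, Y` (correct the trace of the lift of `Y` at one diagonal place by an element of the
kernel; for empty `n` everything is trivial) and `a` (`lev (X.map f) = (lev X).map f`); induct over
the additive closure; if `h ≡ g` modulo `v` then `h⁻¹ ≡ g⁻¹` and `ad h X ≡ ad g X`. -/
theorem Wd.transfer {S : Type} [CommRing S] {f : R →+* S} (hf : Function.Surjective f)
    {Γ : Subgroup (GL n R)} {H : Subgroup (GL n S)} {u v : R} (hW : Wd Γ u v)
    (h : ∀ g ∈ Γ, ∃ g' ∈ H, Cong (f v) (g.val.map f) g'.val) : Wd H (f u) (f v) := by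
  have lift : ∀ X' : Matrix n n S, ∃ X : Matrix n n R, X.map f = X' := fun X' => by
    choose X hX using fun i j => hf (X' i j)
    exact ⟨of X, Matrix.ext hX⟩
  intro X' Y' hY' a' ha'
  obtain ⟨X, rfl⟩ := lift X'
  obtain ⟨Y, hY, rfl⟩ : ∃ Y : Matrix n n R, Y.trace = 0 ∧ Y.map f = Y' := by
    obtain ⟨Y, rfl⟩ := lift Y'
    rcases isEmpty_or_nonempty n with _ | ⟨⟨i⟩⟩
    · exact ⟨Y, by simp [trace], rfl⟩
    · refine ⟨Y - single i i Y.trace, by simp, ?_⟩
      rw [← AddMonoidHom.map_trace] at hY'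
      ext p q
      simp [single_apply, apply_ite f, hY']
  rw [Trans_lev, Ideal.mem_map_iff_of_surjective f hf] at ha'
  obtain ⟨a, ha, rfl⟩ := ha'
  obtain ⟨Z, hZ, hc⟩ := hW X Y hY a ha
  obtain ⟨Z', h1, h2⟩ : ∃ Z' ∈ DS H (X.map f), Cong (f v) Z' (Z.map f) := by
    clear hc
    induction hZ using AddSubgroup.closure_induction with
    | mem Z hZ =>
      obtain ⟨g, hg, rfl⟩ := hZ
      obtain ⟨g', hg', e⟩ := h g hg
      refine ⟨_, AddSubgroup.subset_closure ⟨g', hg', rfl⟩, fun i j => ?_⟩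
      have h1 := (Trans_ad (g := red f g) e (X.map f)).symm i j
      rw [← ad_map] at h1
      simpa using h1
    | zero => exact ⟨0, zero_mem _, fun i j => by simp⟩
    | add Z W _ _ hZ hW =>
      obtain ⟨Z', h1, h2⟩ := hZ
      obtain ⟨W', h3, h4⟩ := hW
      refine ⟨_, add_mem h1 h3, fun i j => ?_⟩
      simpa [add_sub_add_comm] using (h2 i j).add (h4 i j)
    | neg Z _ hZ =>
      obtain ⟨Z', h1, h2⟩ := hZ
      refine ⟨_, neg_mem h1, fun i j => ?_⟩
      simpa [neg_add_eq_sub] using h2.symm i j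
  exact ⟨Z', h1, h2.trans fun i j => by simpa using map_dvd f (hc i j)⟩

/-- `g' = f z • (1 + f a • (X.map f + f w • Z))`; the level ideal `I` of the last matrix satisfies
`I + (f w) = ⊤`, and `f w` is nilpotent. -/
theorem Seed.transfer {S : Type} [CommRing S] {f : R →+* S} {Γ : Subgroup (GL n R)}
    {H : Subgroup (GL n S)} {a w : R} (hw : IsNilpotent (f w)) (hs : Seed Γ a)
    (h : ∀ g ∈ Γ, ∃ g' ∈ H, Cong (f (a * w)) (g.val.map f) g'.val) : Seed H (f a) := by
  obtain ⟨g, hg, z, X, e, hX⟩ := hs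
  obtain ⟨g', hg', h1⟩ := h g hg
  obtain ⟨Z, h2⟩ := cong_iff.1 h1.symm
  refine ⟨g', hg', Units.map f z, X.map f + (f w * f ↑z⁻¹) • Z, ?_, Trans_nil
    ((Commute.all _ _).isNilpotent_mul_right hw) (by rw [Trans_lev, hX, Ideal.map_top])⟩
  have h3 : f z * f ↑z⁻¹ = 1 := by rw [← map_mul, z.mul_inv, map_one]
  rw [h2, e]
  ext i j
  simp only [Matrix.add_apply, Matrix.smul_apply, map_apply, smul_eq_mul, map_mul, map_add,
    Matrix.one_apply, apply_ite f, map_one, map_zero, Units.coe_map, MonoidHom.coe_coe]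
  linear_combination (-(f a * f w * Z i j)) * h3

end Pool.Agent.Lib.MP_6adaea_nt.S
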