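import Pool.Agent.Lib.MP_6adaea_nt.S.Defs

/-!
Ultralimits of subgroups.
-/

set_option linter.unusedSectionVars false

namespace Pool.Agent.Lib.MP_6adaea_nt.S
open Matrix G

variable {n : Type} [Fintype n] [DecidableEq n]

lemma Ulim_mul {R : Type} [CommRing R] {v : R} {X Y X' Y' : Matrix n n R} (h : Cong v X Y)
    (h' : Cong v X' Y') : Cong v (X * X') (Y * Y') := by
  obtain ⟨Z, rfl⟩ := cong_iff.1 h
  obtain ⟨Z', rfl⟩ := cong_iff.1 h'
  refine cong_iff.2 ⟨Y * Z' + Z * (Y' + v • Z'), ?_⟩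
  rw [Matrix.add_mul, Matrix.mul_add, Matrix.mul_smul, Matrix.smul_mul, smul_add, add_assoc]

lemma Ulim_inv {R : Type} [CommRing R] {v : R} {g h : GL n R} (e : Cong v g.val h.val) :
    Cong v (g⁻¹).val (h⁻¹).val := by
  have h1 := Ulim_mul (Ulim_mul (Cong.refl v (g⁻¹).val) e.symm) (Cong.refl v (h⁻¹).val)
  rwa [Units.mul_inv_cancel_right, Units.inv_mul, Matrix.one_mul] at h1

section

variable {ι : Type} {κ : ι → Type} [∀ i, Field (κ i)]

/-- truncation -/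
noncomputable def Ulim_tr (N : ℕ) (X : Matrix n n (RR κ)) : n → n → ∀ i, Fin N → κ i :=
  fun a b i k => PowerSeries.coeff k (X a b i)

lemma Ulim_cong {N : ℕ} {X Y : Matrix n n (RR κ)} :
    Cong (pi0 κ ^ N) X Y ↔ Ulim_tr N X = Ulim_tr N Y := by
  simp only [Cong, pi_dvd_iff, Pi.pow_apply, pi0_apply, PowerSeries.X_pow_dvd_iff, Pi.sub_apply,
    map_sub, sub_eq_zero, funext_iff, Ulim_tr, Fin.forall_iff]

lemma Ulim_eq {X Y : Matrix n n (RR κ)} (h : ∀ N, Cong (pi0 κ ^ N) X Y) : X = Y := by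
  ext a b i k
  exact congrFun (congrFun (congrFun (congrFun (Ulim_cong.1 (h (k + 1))) a) b) i) (Fin.last k)

variable [Finite ι] [∀ i, Finite (κ i)]

lemma Ulim_lim (U : Ultrafilter ℕ) (x : ℕ → Matrix n n (RR κ)) :
    ∃ X : Matrix n n (RR κ), ∀ N, ∀ᶠ l in (U : Filter ℕ), Cong (pi0 κ ^ N) X (x l) := by
  have h : ∀ a b i k, ∃ c, ∀ᶠ l in (U : Filter ℕ), c = PowerSeries.coeff k (x l a b i) := by
    intro a b i k
    obtain ⟨c, hc⟩ := (U.map fun l => PowerSeries.coeff k (x l a b i)).eq_pure_of_finite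
    have h1 : {y | c = y} ∈ U.map fun l => PowerSeries.coeff k (x l a b i) := by
      rw [hc]
      exact rfl
    exact ⟨c, h1⟩
  choose c hc using h
  refine ⟨Matrix.of fun a b i => PowerSeries.mk (c a b i), fun N => ?_⟩
  simp only [Ulim_cong, funext_iff, Filter.eventually_all, Ulim_tr, of_apply, PowerSeries.coeff_mk]
  exact fun a b i k => hc a b i k

lemma Ulim_limGL (U : Ultrafilter ℕ) (x : ℕ → GL n (RR κ)) :
    ∃ g : GL n (RR κ), ∀ N, ∀ᶠ l in (U : Filter ℕ), Cong (pi0 κ ^ N) g.val (x l).val := by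
  obtain ⟨X, hX⟩ := Ulim_lim U fun l => (x l).val
  obtain ⟨Y, hY⟩ := Ulim_lim U fun l => ((x l)⁻¹).val
  refine ⟨⟨X, Y, Ulim_eq fun N => ?_, Ulim_eq fun N => ?_⟩, hX⟩
  · obtain ⟨l, h1, h2⟩ := ((hX N).and (hY N)).exists
    simpa only [Units.mul_inv] using Ulim_mul h1 h2
  · obtain ⟨l, h1, h2⟩ := ((hX N).and (hY N)).exists
    simpa only [Units.inv_mul] using Ulim_mul h2 h1

end

/-- `Γ` is the set of `g` such that for all `N`, for `U`-most `l`, `g` is congruent modulo `ϖ ^ N` to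
an element of `H l` (for inverses: `g ≡ h` implies `g⁻¹ ≡ h⁻¹`). Every sequence `x l` in `RR κ`
has a limit: each coefficient takes finitely many values (`Ultrafilter.eventually_exists_mem_iff`,
or `Ultrafilter.eq_pure_of_finite` for the pushed forward ultrafilter), so there is `x` with
`ϖ ^ N ∣ x l - x` for `U`-most `l`, for all `N`; limits are unique, so the limit of invertible
matrices is invertible. There are finitely many matrices modulo `ϖ ^ N` (truncations). For each class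
which meets `Γ`, `U`-most `H l` meet it. For each class which meets `H l` for `U`-most `l`, choose
`h l ∈ H l` in the class (else `1`) and take the limit. -/
theorem ulim {ι : Type} [Finite ι] (κ : ι → Type) [∀ i, Field (κ i)] [∀ i, Finite (κ i)]
    (U : Ultrafilter ℕ) (H : ℕ → Subgroup (GL n (RR κ))) :
    ∃ Γ : Subgroup (GL n (RR κ)), ∀ N : ℕ, ∀ᶠ l in (U : Filter ℕ),
      (∀ g ∈ Γ, ∃ h ∈ H l, Cong (pi0 κ ^ N) g.val h.val) ∧
      ∀ h ∈ H l, ∃ g ∈ Γ, Cong (pi0 κ ^ N) g.val h.val := by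
  classical
  let Γ : Subgroup (GL n (RR κ)) :=
    { carrier := {g | ∀ N, ∀ᶠ l in (U : Filter ℕ), ∃ h ∈ H l, Cong (pi0 κ ^ N) g.val h.val}
      one_mem' := fun N => Filter.Eventually.of_forall fun l => ⟨1, one_mem _, Cong.refl _ _⟩
      mul_mem' := fun ha hb N => ((ha N).and (hb N)).mono fun l ⟨⟨h, h1, h2⟩, h', h3, h4⟩ =>
        ⟨h * h', mul_mem h1 h3, Ulim_mul h2 h4⟩
      inv_mem' := fun ha N => (ha N).mono fun l ⟨h, h1, h2⟩ => ⟨h⁻¹, inv_mem h1, Ulim_inv h2⟩ }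
  refine ⟨Γ, fun N => ?_⟩
  have key : ∀ᶠ l in (U : Filter ℕ), ∀ c, (∃ h ∈ H l, Ulim_tr N h.val = c) ↔
      ∃ g ∈ Γ, Ulim_tr N g.val = c := by
    refine Filter.eventually_all.2 fun c => ?_
    by_cases hc : ∃ g ∈ Γ, Ulim_tr N g.val = c
    · obtain ⟨g, hg, e⟩ := hc
      exact (hg N).mono fun l ⟨h, h1, h2⟩ =>
        iff_of_true ⟨h, h1, (Ulim_cong.1 h2).symm.trans e⟩ ⟨g, hg, e⟩
    · refine (Ultrafilter.eventually_not.2 fun h0 => hc ?_).mono fun l hl => iff_of_false hl hc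
      have h1 : ∀ l, ∃ h ∈ H l, (∃ h ∈ H l, Ulim_tr N h.val = c) → Ulim_tr N h.val = c := by
        intro l
        by_cases h2 : ∃ h ∈ H l, Ulim_tr N h.val = c
        · obtain ⟨h, h3, h4⟩ := h2
          exact ⟨h, h3, fun _ => h4⟩
        · exact ⟨1, one_mem _, fun h3 => absurd h3 h2⟩
      choose x hx hx' using h1
      obtain ⟨g, hg⟩ := Ulim_limGL U x
      obtain ⟨l, h2, h3⟩ := ((hg N).and h0).exists
      exact ⟨g, fun M => (hg M).mono fun l hl => ⟨x l, hx l, hl⟩, (Ulim_cong.1 h2).trans (hx' l h3)⟩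
  refine key.mono fun l hl => ⟨fun g hg => ?_, fun h hh => ?_⟩
  · obtain ⟨h, h1, h2⟩ := (hl _).2 ⟨g, hg, rfl⟩
    exact ⟨h, h1, Ulim_cong.2 h2.symm⟩
  · obtain ⟨g, h1, h2⟩ := (hl _).1 ⟨h, hh, rfl⟩
    exact ⟨g, h1, Ulim_cong.2 h2⟩

end Pool.Agent.Lib.MP_6adaea_nt.S
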